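import Pool.Agent.P.MP_a11166_lc.Comb

/-! Row AL. Generic solutions of `u A v = v B u` are all equivalent at stage `0`.
`shift_per`: `u`, `v` are comparable as initial segments. If `u <+: v` or `u.length ≤ g.length +
v.length`, show `u <+: g ++ u` or `v <+: g ++ v` by comparing lengths
(`List.prefix_of_prefix_length_le`): the hypothesis says that `u` and `g ++ v` are comparable. If
`v <+: u` and `g ++ v <+: u`, then `v <+: g ++ v`; if `v <+: u` and `u <+: g ++ v` then
`u <+: g ++ u`; if `u <+: v` then `u <+: g ++ v` and `g ++ u <+: g ++ v` give `u <+: g ++ u`.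
`Gen.not_per`: `Per.left`, `Per.right`.
`swap_block`: first `a.length = b.length` by `shift_per` (the equation `u A v = v B u` makes `u`,
`v` comparable), then `A'.length = B'.length` by `shift_per` for the reversed words (if `A'` is
longer then `u A' v = v B' u ze`; `Per.reverse`), so `u A' v = v B' u` and `R = R'`. If
`u = v B u1` then `u = u1 A v`, and `B ++ u1 <+: B' ++ u`; different lengths of `B`, `B'` give
`u1 <+: g ++ u1` with `g ≠ []`, `g.length ≤ M`; so `B = B'`, then `A = A'`. The other case is
symmetric.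
`al`: lengths exceed `M` (`lt_length_of_not_per`). Length conditions with `0 ≤ a * b`: sign
argument. Equations: if `(dc false, dc true) ≠ (0, 0)` then, having no mixed signs, `length_ev`
shows that both equations are false. Otherwise `bd_of_inA`, and induction on `BD` (generalizing
`U`, `V`) proves that the equation for `(u, v)` implies the one for `(u', v')`:
`exists_cst_of_proj_nil`, `exists_of_proj_cons`, `pre_of_pre_append` with `per_of_pre` for `same`,
`swap_block` for `swap`.
-/

set_option autoImplicit false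

namespace Pool.Agent.WEq

open Pool.Agent.Lib.Comp

variable {S : Type}

theorem shift_per {M : ℕ} {u v g R R' : List S} (huv : u <+: v ∨ v <+: u)
    (h : u ++ R = g ++ v ++ R') (hg : g ≠ []) (hM : g.length ≤ M) : Per M u ∨ Per M v := by
  have hu : u <+: g ++ v ++ R' := ⟨R, h⟩
  rcases huv with ⟨t, rfl⟩ | hv
  · left
    refine per_of_pre (pre_of_pre_append (r := t ++ R') ?_) hg hM
    simpa only [List.append_assoc] using hu
  · right
    exact per_of_pre (pre_of_pre_append (hv.trans hu)) hg hM

theorem Gen.not_per {M : ℕ} {A B u v : List S} (h : Gen M A B u v) :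
    ¬ Per M u ∧ ¬ Per M v := by
  rcases h.2 with ⟨u1, rfl, h1, h2⟩ | ⟨v1, rfl, h1, h2⟩
  · exact ⟨fun hu => h1 hu.right, h2⟩
  · exact ⟨h1, fun hv => h2 hv.right⟩

/-- Two words followed by continuations that agree: equal, or one extends the other. -/
theorem al_split {a b X Y : List S} (h : a ++ X = b ++ Y) :
    (a = b ∧ X = Y) ∨ (∃ g, g ≠ [] ∧ b = a ++ g ∧ X = g ++ Y) ∨
      (∃ g, g ≠ [] ∧ a = b ++ g ∧ Y = g ++ X) := by
  rcases List.append_eq_append_iff.1 h with ⟨g, h1, h2⟩ | ⟨g, h1, h2⟩
  · by_cases hg : g = []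
    · subst hg
      left
      exact ⟨by simpa using h1.symm, by simpa using h2⟩
    · right; left; exact ⟨g, hg, h1, h2⟩
  · by_cases hg : g = []
    · subst hg
      left
      exact ⟨by simpa using h1, by simpa using h2.symm⟩
    · right; right; exact ⟨g, hg, h1, h2⟩

theorem al_cancel2 {M : ℕ} {u v a b R R' : List S} (huv : u <+: v ∨ v <+: u) (hu : ¬ Per M u)
    (hv : ¬ Per M v) (ha : a.length ≤ M) (hb : b.length ≤ M) (h : a ++ (u ++ R) = b ++ (v ++ R')) :
    a = b ∧ u ++ R = v ++ R' := by
  rcases al_split h with h1 | ⟨g, hg, rfl, h2⟩ | ⟨g, hg, rfl, h2⟩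
  · exact h1
  · exfalso
    have := shift_per (M := M) huv (g := g) (R := R) (R' := R') (by simpa using h2) hg
      (by simp at hb; omega)
    tauto
  · exfalso
    have := shift_per (M := M) huv.symm (g := g) (R := R') (R' := R) (by simpa using h2) hg
      (by simp at ha; omega)
    tauto

theorem al_cancel {M : ℕ} {w a b R R' : List S} (hw : ¬ Per M w)
    (ha : a.length ≤ M) (hb : b.length ≤ M) (h : a ++ (w ++ R) = b ++ (w ++ R')) :
    a = b ∧ R = R' := by
  obtain ⟨h1, h2⟩ := al_cancel2 (Or.inl (List.prefix_refl w)) hw hw ha hb h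
  exact ⟨h1, List.append_cancel_left h2⟩

theorem al_comp {u v R R' : List S} (h : u ++ R = v ++ R') : u <+: v ∨ v <+: u :=
  List.prefix_or_prefix_of_prefix (l₃ := u ++ R) ⟨R, rfl⟩ ⟨R', h.symm⟩

theorem al_tail {M : ℕ} {u v A' B' ze : List S} (huv : v.reverse <+: u.reverse ∨
    u.reverse <+: v.reverse) (hu : ¬ Per M u) (hv : ¬ Per M v) (hA' : A'.length ≤ M)
    (hze : ze ≠ []) (h : u ++ A' ++ v = v ++ B' ++ u ++ ze) : False := by
  have hl := congrArg List.length h
  simp only [List.length_append] at hl
  have h1 : v.reverse ++ (A'.reverse ++ u.reverse) =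
      ze.reverse ++ u.reverse ++ (B'.reverse ++ v.reverse) := by
    have := congrArg List.reverse h
    simpa only [List.reverse_append, List.append_assoc] using this
  rcases shift_per (M := M) huv h1 (by simpa using hze) (by simp; omega) with h2 | h2
  · exact hv (by simpa using h2.reverse)
  · exact hu (by simpa using h2.reverse)

theorem swap_block {M : ℕ} {A B u v : List S} (hA : A.length ≤ M) (hB : B.length ≤ M)
    (hG : Gen M A B u v) {a A' b B' R R' : List S} (ha : a.length ≤ M) (hA' : A'.length ≤ M)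
    (hb : b.length ≤ M) (hB' : B'.length ≤ M)
    (h : a ++ u ++ A' ++ v ++ R = b ++ v ++ B' ++ u ++ R') :
    a = b ∧ A' = A ∧ B' = B ∧ R = R' := by
  obtain ⟨hu, hv⟩ := hG.not_per
  have e0 : u ++ (A ++ v) = v ++ (B ++ u) := by simpa only [List.append_assoc] using hG.1
  have huv := al_comp e0
  have hr : v.reverse <+: u.reverse ∨ u.reverse <+: v.reverse := by
    have := congrArg List.reverse e0
    simp only [List.reverse_append, List.append_assoc] at this
    exact al_comp this
  obtain ⟨hab, h1⟩ := al_cancel2 huv hu hv ha hb (R := A' ++ v ++ R) (R' := B' ++ u ++ R')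
    (by simpa only [List.append_assoc] using h)
  have h2 : (u ++ A' ++ v) ++ R = (v ++ B' ++ u) ++ R' := by
    simpa only [List.append_assoc] using h1
  have h3 : u ++ A' ++ v = v ++ B' ++ u ∧ R = R' := by
    rcases al_split h2 with h3 | ⟨g, hg, h3, -⟩ | ⟨g, hg, h3, -⟩
    · exact h3
    · exact (al_tail hr.symm hv hu hB' hg h3).elim
    · exact (al_tail hr hu hv hA' hg h3).elim
  obtain ⟨h3, hR⟩ := h3
  have key : A' = A ∧ B' = B := by
    rcases hG.2 with ⟨u1, e1, h4, -⟩ | ⟨v1, e1, -, h4⟩
    · have e2 : u = u1 ++ A ++ v := by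
        have := hG.1
        nth_rewrite 1 [e1] at this
        simp only [List.append_assoc, List.append_cancel_left_eq] at this
        simpa only [List.append_assoc] using this.symm
      have e3 : B ++ (u1 ++ (A' ++ v)) = B' ++ (u1 ++ (A ++ v)) := by
        have := h3
        nth_rewrite 1 [e1] at this
        nth_rewrite 1 [e2] at this
        simpa only [List.append_assoc, List.append_cancel_left_eq] using this
      obtain ⟨e4, e5⟩ := al_cancel h4 hB hB' e3
      exact ⟨List.append_cancel_right e5, e4.symm⟩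
    · have e2 : v = v1 ++ B ++ u := by
        have := hG.1
        nth_rewrite 2 [e1] at this
        simp only [List.append_assoc, List.append_cancel_left_eq] at this
        simpa only [List.append_assoc] using this
      have e3 : A' ++ (v1 ++ (B ++ u)) = A ++ (v1 ++ (B' ++ u)) := by
        have := h3
        nth_rewrite 2 [e1] at this
        nth_rewrite 1 [e2] at this
        simpa only [List.append_assoc, List.append_cancel_left_eq] using this
      obtain ⟨e4, e5⟩ := al_cancel h4 hA' hA e3
      exact ⟨e4, (List.append_cancel_right e5).symm⟩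
  exact ⟨hab, key.1, key.2, hR⟩

theorem al_sign {M d0 d1 n m c : ℤ} (hd : 0 ≤ d0 * d1) (h0 : ¬ (d0 = 0 ∧ d1 = 0)) (hn : M < n)
    (hm : M < m) (hc : |c| ≤ M) :
    (0 ≤ d0 ∧ 0 ≤ d1 ∧ 0 < d0 * n + d1 * m + c) ∨
      (d0 ≤ 0 ∧ d1 ≤ 0 ∧ d0 * n + d1 * m + c < 0) := by
  obtain ⟨hc1, hc2⟩ := abs_le.1 hc
  have hM : 0 ≤ M := (abs_nonneg c).trans hc
  rcases mul_nonneg_iff.1 hd with ⟨h1, h2⟩ | ⟨h1, h2⟩
  · left
    refine ⟨h1, h2, ?_⟩
    by_cases h3 : d0 = 0
    · have h4 : 1 ≤ d1 := by omega
      subst h3
      nlinarith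
    · have h4 : 1 ≤ d0 := by omega
      nlinarith
  · right
    refine ⟨h1, h2, ?_⟩
    by_cases h3 : d0 = 0
    · have h4 : d1 ≤ -1 := by omega
      subst h3
      nlinarith
    · have h4 : d0 ≤ -1 := by omega
      nlinarith

theorem al_fm {a b : ℤ} (h : Fm 0 a b) : 0 ≤ a * b := by
  rcases h with h | h
  · exact h
  · have h1 := abs_nonneg a
    have h2 := abs_nonneg b
    have h3 : |a| = 0 := by simp only [Nat.cast_zero] at h; omega
    rw [abs_eq_zero.1 h3, zero_mul]

theorem al_ne {M : ℕ} {x y : List S} (hx : M < x.length) (hy : M < y.length) {U V : FW S}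
    (hU : U.length ≤ M) (hV : V.length ≤ M)
    (hd : 0 ≤ dc false (proj U) (proj V) * dc true (proj U) (proj V))
    (h0 : ¬ (dc false (proj U) (proj V) = 0 ∧ dc true (proj U) (proj V) = 0)) :
    ev x y U ≠ ev x y V := by
  intro h
  have h1 := length_ev x y U
  have h2 := length_ev x y V
  rw [h, h2] at h1
  have h3 := length_proj_le U
  have h4 := length_proj_le V
  have h5 := al_sign (M := M) (n := x.length) (m := y.length)
    (c := ((U.length : ℤ) - (proj U).length) - ((V.length : ℤ) - (proj V).length)) hd h0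
    (by exact_mod_cast hx) (by exact_mod_cast hy) (abs_le.2 ⟨by omega, by omega⟩)
  simp only [dc] at h5
  rcases h5 with ⟨-, -, h5⟩ | ⟨-, -, h5⟩ <;> nlinarith

theorem al_bd {M : ℕ} {A B u v u' v' : List S} (hA : A.length ≤ M) (hB : B.length ≤ M)
    (h : Gen M A B u v) (h' : Gen M A B u' v') {p q : List Bool} (hpq : BD p q) :
    ∀ U V : FW S, U.length ≤ M → V.length ≤ M → proj U = p → proj V = q →
      ev u v U = ev u v V → ev u' v' U = ev u' v' V := by
  induction hpq with
  | nil =>
    intro U V _ _ hU hV e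
    obtain ⟨a, rfl⟩ := exists_cst_of_proj_nil hU
    obtain ⟨b, rfl⟩ := exists_cst_of_proj_nil hV
    simpa using e
  | same b _ ih =>
    intro U V lU lV hU hV e
    obtain ⟨a, U1, rfl, hU1⟩ := exists_of_proj_cons hU
    obtain ⟨a', V1, rfl, hV1⟩ := exists_of_proj_cons hV
    simp only [List.length_append, length_cst, List.length_cons] at lU lV
    simp only [ev_append, ev_cst, ev_inr] at e ⊢
    have hw : ¬ Per M (cond b v u) := by
      cases b
      · exact h.not_per.1
      · exact h.not_per.2
    obtain ⟨rfl, e1⟩ := al_cancel hw (by omega) (by omega) e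
    rw [ih U1 V1 (by omega) (by omega) hU1 hV1 e1]
  | swap b _ ih =>
    intro U V lU lV hU hV e
    obtain ⟨a, U1, rfl, hU1⟩ := exists_of_proj_cons hU
    obtain ⟨a', V1, rfl, hV1⟩ := exists_of_proj_cons hV
    obtain ⟨c, U2, rfl, hU2⟩ := exists_of_proj_cons hU1
    obtain ⟨c', V2, rfl, hV2⟩ := exists_of_proj_cons hV1
    simp only [List.length_append, length_cst, List.length_cons] at lU lV
    have e0 : ∀ R : List S, u' ++ (A ++ (v' ++ R)) = v' ++ (B ++ (u' ++ R)) := by
      intro R
      have := congrArg (· ++ R) h'.1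
      simpa only [List.append_assoc] using this
    cases b
    · simp only [Bool.not_false, ev_append, ev_cst, ev_x, ev_y] at e ⊢
      obtain ⟨rfl, rfl, rfl, e1⟩ := swap_block hA hB h (a := a) (A' := c) (b := a') (B' := c')
        (R := ev u v U2) (R' := ev u v V2) (by omega) (by omega) (by omega) (by omega)
        (by simpa only [List.append_assoc] using e)
      rw [ih U2 V2 (by omega) (by omega) hU2 hV2 e1, e0]
    · simp only [Bool.not_true, ev_append, ev_cst, ev_x, ev_y] at e ⊢
      obtain ⟨rfl, rfl, rfl, e1⟩ := swap_block hA hB h (a := a') (A' := c') (b := a) (B' := c)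
        (R := ev u v V2) (R' := ev u v U2) (by omega) (by omega) (by omega) (by omega)
        (by simpa only [List.append_assoc] using e.symm)
      rw [ih U2 V2 (by omega) (by omega) hU2 hV2 e1.symm, e0]

theorem al {M : ℕ} (hM : 1 ≤ M) {A B u v u' v' : List S} (hA : A.length ≤ M) (hB : B.length ≤ M)
    (h : Gen M A B u v) (h' : Gen M A B u' v') : EqvK 0 M u v u' v' := by
  have l1 := lt_length_of_not_per hM h.not_per.1
  have l2 := lt_length_of_not_per hM h.not_per.2
  have l3 := lt_length_of_not_per hM h'.not_per.1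
  have l4 := lt_length_of_not_per hM h'.not_per.2
  refine ⟨fun U V hU hV hI => ?_, fun a b c _ _ hc hF => ?_⟩
  · by_cases h0 : dc false (proj U) (proj V) = 0 ∧ dc true (proj U) (proj V) = 0
    · have hb := bd_of_inA hI h0.1 h0.2
      exact ⟨al_bd hA hB h h' hb U V hU hV rfl rfl, al_bd hA hB h' h hb U V hU hV rfl rfl⟩
    · have hd := al_fm hI.2
      exact ⟨fun e => (al_ne l1 l2 hU hV hd h0 e).elim, fun e => (al_ne l3 l4 hU hV hd h0 e).elim⟩
  · by_cases h0 : a = 0 ∧ b = 0
    · obtain ⟨rfl, rfl⟩ := h0
      simp [Lin]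
    · have hd := al_fm hF
      have s1 := al_sign (M := M) (n := u.length) (m := v.length) hd h0 (by exact_mod_cast l1)
        (by exact_mod_cast l2) hc
      have s2 := al_sign (M := M) (n := u'.length) (m := v'.length) hd h0 (by exact_mod_cast l3)
        (by exact_mod_cast l4) hc
      simp only [Lin]
      omega

end Pool.Agent.WEq
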