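import Pool.Agent.P.MP_a11166_lc.Defs

/-! Basic facts on values, substitutions, periods and the equivalences. -/

set_option autoImplicit false

namespace Pool.Agent.WEq

open Pool.Agent.Lib.Comp

variable {S : Type}

@[fun_prop] theorem pr_pow {α : Type} [Primcodable α] {f g : α → ℕ} (hf : Primrec f)
    (hg : Primrec g) : Primrec (fun a => f a ^ g a) :=
  (Primrec₂.unpaired'.1 Nat.Primrec.pow).comp hf hg

@[simp] theorem ev_nil (x y : List S) : ev x y [] = [] := rfl
@[simp] theorem ev_inl (x y : List S) (a : S) (U : FW S) :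
    ev x y (Sum.inl a :: U) = a :: ev x y U := by simp [ev]
@[simp] theorem ev_x (x y : List S) (U : FW S) :
    ev x y (Sum.inr false :: U) = x ++ ev x y U := by simp [ev]
@[simp] theorem ev_y (x y : List S) (U : FW S) :
    ev x y (Sum.inr true :: U) = y ++ ev x y U := by simp [ev]
theorem ev_inr (x y : List S) (b : Bool) (U : FW S) :
    ev x y (Sum.inr b :: U) = cond b y x ++ ev x y U := by simp [ev]
@[simp] theorem ev_append (x y : List S) (U V : FW S) :
    ev x y (U ++ V) = ev x y U ++ ev x y V := by simp [ev]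
@[simp] theorem cst_nil : cst ([] : List S) = [] := rfl
@[simp] theorem cst_cons (a : S) (l : List S) : cst (a :: l) = Sum.inl a :: cst l := rfl
@[simp] theorem cst_append (a b : List S) : cst (a ++ b) = cst a ++ cst b := by simp [cst]
@[simp] theorem length_cst (a : List S) : (cst a).length = a.length := by simp [cst]
@[simp] theorem ev_cst (x y a : List S) : ev x y (cst a) = a := by
  induction a with
  | nil => rfl
  | cons b l ih => simp [ih]
theorem cst_inj {a b : List S} (h : cst a = cst b) : a = b := by
  have := congrArg (ev [] []) h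
  simpa using this

@[simp] theorem proj_nil : proj ([] : FW S) = [] := rfl
@[simp] theorem proj_inl (a : S) (U : FW S) : proj (Sum.inl a :: U) = proj U := by simp [proj]
@[simp] theorem proj_inr (b : Bool) (U : FW S) : proj (Sum.inr b :: U) = b :: proj U := by
  simp [proj]
@[simp] theorem proj_append (U V : FW S) : proj (U ++ V) = proj U ++ proj V := by simp [proj]
@[simp] theorem proj_cst (a : List S) : proj (cst a) = [] := by
  induction a with
  | nil => rfl
  | cons b l ih => simp [ih]
theorem length_proj_le (U : FW S) : (proj U).length ≤ U.length := List.length_filterMap_le _ _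

@[simp] theorem subst_nil (sx sy : FW S) : subst sx sy [] = [] := rfl
@[simp] theorem subst_inl (sx sy : FW S) (a : S) (U : FW S) :
    subst sx sy (Sum.inl a :: U) = Sum.inl a :: subst sx sy U := by simp [subst]
@[simp] theorem subst_x (sx sy : FW S) (U : FW S) :
    subst sx sy (Sum.inr false :: U) = sx ++ subst sx sy U := by simp [subst]
@[simp] theorem subst_y (sx sy : FW S) (U : FW S) :
    subst sx sy (Sum.inr true :: U) = sy ++ subst sx sy U := by simp [subst]
@[simp] theorem subst_append (sx sy U V : FW S) :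
    subst sx sy (U ++ V) = subst sx sy U ++ subst sx sy V := by simp [subst]
@[simp] theorem subst_cst (sx sy : FW S) (a : List S) : subst sx sy (cst a) = cst a := by
  induction a with
  | nil => rfl
  | cons b l ih => simp [ih]

theorem ev_subst (u v : List S) (sx sy U : FW S) :
    ev u v (subst sx sy U) = ev (ev u v sx) (ev u v sy) U := by
  induction U with
  | nil => rfl
  | cons c U ih => rcases c with a | _ | _ <;> simp [ih]

theorem length_subst_le {K : ℕ} (hK : 1 ≤ K) {sx sy : FW S} (hx : sx.length ≤ K)
    (hy : sy.length ≤ K) (U : FW S) : (subst sx sy U).length ≤ U.length * K := by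
  induction U with
  | nil => simp
  | cons c U ih =>
    rcases c with a | _ | _ <;> simp only [subst_inl, subst_x, subst_y, List.length_cons,
      List.length_append, Nat.succ_mul] <;> omega

theorem proj_subst (sx sy U : FW S) :
    proj (subst sx sy U) = (proj U).flatMap (fun b => cond b (proj sy) (proj sx)) := by
  induction U with
  | nil => rfl
  | cons c U ih => rcases c with a | _ | _ <;> simp [ih]

/-- Substitution is evaluation over the alphabet of letters and variables. -/
theorem subst_eq_ev (sx sy U : FW S) : subst sx sy U = ev sx sy (U.map (Sum.map Sum.inl id)) := by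
  induction U with
  | nil => rfl
  | cons c U ih => rcases c with a | _ | _ <;> simp [ih]

theorem exists_cst_of_proj_nil {U : FW S} (h : proj U = []) : ∃ a, U = cst a := by
  induction U with
  | nil => exact ⟨[], rfl⟩
  | cons c U ih =>
    rcases c with a | b
    · obtain ⟨l, rfl⟩ := ih (by simpa using h)
      exact ⟨a :: l, rfl⟩
    · simp at h

theorem exists_of_proj_cons {U : FW S} {b : Bool} {p : List Bool} (h : proj U = b :: p) :
    ∃ a U', U = cst a ++ Sum.inr b :: U' ∧ proj U' = p := by
  induction U with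
  | nil => simp at h
  | cons c U ih =>
    rcases c with a | b'
    · obtain ⟨l, U', rfl, h'⟩ := ih (by simpa using h)
      exact ⟨a :: l, U', rfl, h'⟩
    · simp only [proj_inr, List.cons.injEq] at h
      obtain ⟨rfl, h⟩ := h
      exact ⟨[], U, rfl, h⟩

/-- A formal word is free of `y` or has a first occurrence of `y`. -/
theorem onlyX_or_split (U : FW S) :
    OnlyX U ∨ ∃ W U', U = W ++ Sum.inr true :: U' ∧ OnlyX W := by
  induction U with
  | nil => left; simp [OnlyX]
  | cons c U ih =>
    rcases c with a | _ | _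
    · rcases ih with h | ⟨W, U', rfl, h⟩
      · left; simpa [OnlyX] using h
      · right; exact ⟨Sum.inl a :: W, U', rfl, by simpa [OnlyX] using h⟩
    · rcases ih with h | ⟨W, U', rfl, h⟩
      · left; simpa [OnlyX] using h
      · right; exact ⟨Sum.inr false :: W, U', rfl, by simpa [OnlyX] using h⟩
    · right; exact ⟨[], U, rfl, by simp [OnlyX]⟩

theorem OnlyX.ev_eq {U : FW S} (h : OnlyX U) (x y y' : List S) : ev x y U = ev x y' U := by
  induction U with
  | nil => rfl
  | cons c U ih =>
    rcases c with a | _ | _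
    · simp [ih (by simpa [OnlyX] using h)]
    · simp [ih (by simpa [OnlyX] using h)]
    · simp [OnlyX] at h

theorem onlyX_append {U V : FW S} : OnlyX (U ++ V) ↔ OnlyX U ∧ OnlyX V := by
  simp only [OnlyX, proj_append, List.mem_append]
  exact ⟨fun h => ⟨fun b hb => h b (Or.inl hb), fun b hb => h b (Or.inr hb)⟩,
    fun h b hb => hb.elim (h.1 b) (h.2 b)⟩

theorem onlyX_cst (a : List S) : OnlyX (cst a) := by simp [OnlyX]

theorem onlyX_x : OnlyX ([Sum.inr false] : FW S) := by simp [OnlyX]

theorem onlyX_subst {sx sy : FW S} (hx : OnlyX sx) (hy : OnlyX sy) (U : FW S) :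
    OnlyX (subst sx sy U) := by
  induction U with
  | nil => simp [OnlyX]
  | cons c U ih =>
    rcases c with a | _ | _
    · simpa [OnlyX] using ih
    · rw [subst_x]; exact onlyX_append.2 ⟨hx, ih⟩
    · rw [subst_y]; exact onlyX_append.2 ⟨hy, ih⟩

theorem OnlyX.proj_eq {U : FW S} (h : OnlyX U) :
    proj U = List.replicate (proj U).length false := List.eq_replicate_iff.2 ⟨rfl, h⟩

/-- The length of a value: letters, plus occurrences times lengths. -/
theorem length_ev (x y : List S) (U : FW S) :
    ((ev x y U).length : ℤ) = ((proj U).count false : ℤ) * x.length +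
      ((proj U).count true : ℤ) * y.length + ((U.length : ℤ) - (proj U).length) := by
  induction U with
  | nil => simp
  | cons c U ih =>
    rcases c with a | _ | _
    · simp only [ev_inl, proj_inl, List.length_cons, Nat.cast_add, Nat.cast_one, ih]; ring
    · simp only [ev_x, proj_inr, List.length_cons, List.length_append, List.count_cons,
        Nat.cast_add, Nat.cast_one, ih]; simp; ring
    · simp only [ev_y, proj_inr, List.length_cons, List.length_append, List.count_cons,
        Nat.cast_add, Nat.cast_one, ih]; simp; ring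

theorem count_add_count (p : List Bool) : p.count false + p.count true = p.length := by
  induction p with
  | nil => rfl
  | cons b p ih => cases b <;> simp <;> omega

theorem length_ev_le {B : ℕ} {x y : List S} (hx : x.length ≤ B) (hy : y.length ≤ B) (U : FW S) :
    (ev x y U).length ≤ U.length * (B + 1) := by
  induction U with
  | nil => simp
  | cons c U ih =>
    rcases c with a | _ | _ <;> simp only [ev_inl, ev_x, ev_y, List.length_cons,
      List.length_append, Nat.succ_mul] <;> omega

/-! Periods. -/

theorem hasPeriod_of_pre {g w : List S} (h : w <+: g ++ w) : w.HasPeriod g.length := by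
  by_cases hl : w.length ≤ g.length
  · exact List.hasPeriod_of_length_le _ _ hl
  · have h1 : g <+: w := List.prefix_of_prefix_length_le (List.prefix_append g w) h (by omega)
    have h2 : w.take g.length = g := (List.prefix_iff_eq_take.1 h1).symm
    rw [List.HasPeriod, h2]; exact h

theorem pre_of_pre_append {g w r : List S} (h : w <+: g ++ w ++ r) : w <+: g ++ w :=
  List.prefix_of_prefix_length_le h (List.prefix_append _ _) (by simp)

theorem hasPeriod_of_conj {g w g' : List S} (h : g ++ w = w ++ g') : w.HasPeriod g.length :=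
  hasPeriod_of_pre ⟨g', h.symm⟩

theorem exists_conj_of_hasPeriod {w : List S} {p : ℕ} (h : w.HasPeriod p) (hp : p ≤ w.length) :
    ∃ g g' : List S, g.length = p ∧ g'.length = p ∧ g ++ w = w ++ g' := by
  obtain ⟨t, ht⟩ := h
  have h1 : (w.take p).length = p := by simp [hp]
  refine ⟨w.take p, t, h1, ?_, ht.symm⟩
  have := congrArg List.length ht
  simp only [List.length_append, h1] at this
  omega

theorem hasPeriod_reverse {w : List S} {p : ℕ} (h : w.HasPeriod p) : w.reverse.HasPeriod p := by
  by_cases hp : p ≤ w.length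
  · obtain ⟨g, g', -, h2, h3⟩ := exists_conj_of_hasPeriod h hp
    have : g'.reverse ++ w.reverse = w.reverse ++ g.reverse := by
      rw [← List.reverse_append, ← List.reverse_append, h3]
    simpa [h2] using hasPeriod_of_conj this
  · exact List.hasPeriod_of_length_le _ _ (by simp; omega)

theorem Per.mono {M M' : ℕ} {w : List S} (h : Per M w) (hM : M ≤ M') : Per M' w := by
  obtain ⟨p, h1, h2, h3⟩ := h
  exact ⟨p, h1, h2.trans hM, h3⟩

theorem Per.factor {M : ℕ} {u v w : List S} (h : Per M (u ++ v ++ w)) : Per M v := by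
  obtain ⟨p, h1, h2, h3⟩ := h
  exact ⟨p, h1, h2, h3.factor⟩

theorem Per.left {M : ℕ} {u v : List S} (h : Per M (u ++ v)) : Per M u :=
  Per.factor (u := []) (w := v) (by simpa using h)

theorem Per.right {M : ℕ} {u v : List S} (h : Per M (u ++ v)) : Per M v :=
  Per.factor (u := u) (w := []) (by simpa using h)

theorem Per.reverse {M : ℕ} {w : List S} (h : Per M w) : Per M w.reverse := by
  obtain ⟨p, h1, h2, h3⟩ := h
  exact ⟨p, h1, h2, hasPeriod_reverse h3⟩

theorem per_of_length_le {M : ℕ} {w : List S} (hM : 1 ≤ M) (h : w.length ≤ M) : Per M w :=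
  ⟨M, hM, le_rfl, List.hasPeriod_of_length_le _ _ h⟩

theorem lt_length_of_not_per {M : ℕ} {w : List S} (hM : 1 ≤ M) (h : ¬ Per M w) : M < w.length := by
  by_contra h'
  exact h (per_of_length_le hM (by omega))

theorem per_of_pre {M : ℕ} {g w : List S} (h : w <+: g ++ w) (h1 : g ≠ []) (h2 : g.length ≤ M) :
    Per M w :=
  ⟨g.length, List.length_pos_iff.2 h1, h2, hasPeriod_of_pre h⟩

/-- A word without period `1` has two different letters. -/
theorem exists_ne_of_not_per {M : ℕ} {w : List S} (hM : 1 ≤ M) (h : ¬ Per M w) :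
    ∃ a b : S, a ≠ b := by
  by_contra hc
  push Not at hc
  refine h ⟨1, le_rfl, hM, List.hasPeriod_iff_getElem?.2 fun i hi => ?_⟩
  rw [List.getElem?_eq_getElem (by omega), List.getElem?_eq_getElem (by omega), hc w[i] w[i + 1]]

/-- The word `a ^ L b a ^ r` has no period between `1` and `L`. -/
theorem not_per_marker {a b : S} (hab : a ≠ b) (L r : ℕ) :
    ¬ Per L (List.replicate L a ++ b :: List.replicate r a) := by
  rintro ⟨p, h1, h2, h3⟩
  have h := List.hasPeriod_iff_getElem?.1 h3 (L - p) (by simp; omega)
  rw [List.getElem?_append_left (by simp; omega), List.getElem?_append_right (by simp; omega)] at h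
  simp only [List.length_replicate, show L - p + p - L = 0 by omega, List.getElem?_cons_zero] at h
  rw [List.getElem?_replicate, if_pos (by omega)] at h
  exact hab (Option.some.inj h)

/-! The equivalences. -/

theorem Eqv.refl (M : ℕ) (x y : List S) : Eqv M x y x y :=
  ⟨fun _ _ _ _ => Iff.rfl, fun _ _ _ _ _ _ => Iff.rfl⟩

theorem Eqv.symm {M : ℕ} {x y x' y' : List S} (h : Eqv M x y x' y') : Eqv M x' y' x y :=
  ⟨fun U V hU hV => (h.1 U V hU hV).symm, fun a b c ha hb hc => (h.2 a b c ha hb hc).symm⟩

theorem Eqv.trans {M : ℕ} {x y x' y' x'' y'' : List S} (h : Eqv M x y x' y')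
    (h' : Eqv M x' y' x'' y'') : Eqv M x y x'' y'' :=
  ⟨fun U V hU hV => (h.1 U V hU hV).trans (h'.1 U V hU hV),
    fun a b c ha hb hc => (h.2 a b c ha hb hc).trans (h'.2 a b c ha hb hc)⟩

theorem Eqv.mono {M M' : ℕ} {x y x' y' : List S} (h : Eqv M' x y x' y') (hM : M ≤ M') :
    Eqv M x y x' y' := by
  have hM' : (M : ℤ) ≤ M' := by exact_mod_cast hM
  exact ⟨fun U V hU hV => h.1 U V (hU.trans hM) (hV.trans hM),
    fun a b c ha hb hc => h.2 a b c (ha.trans hM') (hb.trans hM') (hc.trans hM')⟩

theorem ev_swap (x y : List S) (U : FW S) : ev y x (U.map (Sum.map id not)) = ev x y U := by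
  induction U with
  | nil => rfl
  | cons c U ih => rcases c with a | _ | _ <;> simp [ih]

theorem Eqv.swap {M : ℕ} {x y x' y' : List S} (h : Eqv M x y x' y') : Eqv M y x y' x' := by
  refine ⟨fun U V hU hV => ?_, fun a b c ha hb hc => ?_⟩
  · have := h.1 (U.map (Sum.map id not)) (V.map (Sum.map id not)) (by simpa) (by simpa)
    rwa [ev_swap, ev_swap, ev_swap, ev_swap] at this
  · have := h.2 b a c hb ha hc
    simp only [Lin] at this ⊢
    rw [add_comm (a * _), add_comm (a * _)]
    exact this

theorem Eqv.eqvK {M : ℕ} {x y x' y' : List S} (h : Eqv M x y x' y') (k : ℕ) :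
    EqvK k M x y x' y' :=
  ⟨fun U V hU hV _ => h.1 U V hU hV, fun a b c ha hb hc _ => h.2 a b c ha hb hc⟩

theorem EqvK.symm {k M : ℕ} {x y x' y' : List S} (h : EqvK k M x y x' y') : EqvK k M x' y' x y :=
  ⟨fun U V hU hV hA => (h.1 U V hU hV hA).symm,
    fun a b c ha hb hc hF => (h.2 a b c ha hb hc hF).symm⟩

theorem EqvK.trans {k M : ℕ} {x y x' y' x'' y'' : List S} (h : EqvK k M x y x' y')
    (h' : EqvK k M x' y' x'' y'') : EqvK k M x y x'' y'' :=
  ⟨fun U V hU hV hA => (h.1 U V hU hV hA).trans (h'.1 U V hU hV hA),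
    fun a b c ha hb hc hF => (h.2 a b c ha hb hc hF).trans (h'.2 a b c ha hb hc hF)⟩

theorem EqvK.mono {k M M' : ℕ} {x y x' y' : List S} (h : EqvK k M' x y x' y') (hM : M ≤ M') :
    EqvK k M x y x' y' := by
  have hM' : (M : ℤ) ≤ M' := by exact_mod_cast hM
  exact ⟨fun U V hU hV hA => h.1 U V (hU.trans hM) (hV.trans hM) hA,
    fun a b c ha hb hc hF => h.2 a b c (ha.trans hM') (hb.trans hM') (hc.trans hM') hF⟩

theorem Shr.mono {M M' B B' : ℕ} {x y : List S} (h : Shr M' B x y) (hM : M ≤ M') (hB : B ≤ B') :
    Shr M B' x y := by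
  obtain ⟨x', y', h1, h2, h3⟩ := h
  exact ⟨x', y', h1.mono hM, h2.trans hB, h3.trans hB⟩

theorem Shr.swap {M B : ℕ} {x y : List S} (h : Shr M B x y) : Shr M B y x := by
  obtain ⟨x', y', h1, h2, h3⟩ := h
  exact ⟨y', x', h1.swap, h3, h2⟩

theorem Shr.of_eqv {M B : ℕ} {x y x' y' : List S} (h : Eqv M x y x' y') (h' : Shr M B x' y') :
    Shr M B x y := by
  obtain ⟨u, v, h1, h2, h3⟩ := h'
  exact ⟨u, v, h.trans h1, h2, h3⟩

theorem Shr.shrK {M B : ℕ} {x y : List S} (h : Shr M B x y) (k : ℕ) : ShrK k M B x y := by
  obtain ⟨x', y', h1, h2, h3⟩ := h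
  exact ⟨x', y', h1.eqvK k, h2, h3⟩

theorem ShrK.mono {k M M' B B' : ℕ} {x y : List S} (h : ShrK k M' B x y) (hM : M ≤ M')
    (hB : B ≤ B') : ShrK k M B' x y := by
  obtain ⟨x', y', h1, h2, h3⟩ := h
  exact ⟨x', y', h1.mono hM, h2.trans hB, h3.trans hB⟩

theorem ShrK.of_eqvK {k M B : ℕ} {x y x' y' : List S} (h : EqvK k M x y x' y')
    (h' : ShrK k M B x' y') : ShrK k M B x y := by
  obtain ⟨u, v, h1, h2, h3⟩ := h'
  exact ⟨u, v, h.trans h1, h2, h3⟩

/-- Equivalent pairs of level `M + 1` have the same small periods. -/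
theorem Eqv.per_left {M : ℕ} {x y x' y' : List S} (h : Eqv (M + 1) x y x' y') (hx : Per M x) :
    Per M x' := by
  obtain ⟨p, h1, h2, h3⟩ := hx
  by_cases hp : p ≤ x.length
  · obtain ⟨g, g', e1, e2, e3⟩ := exists_conj_of_hasPeriod h3 hp
    have := (h.1 (cst g ++ [Sum.inr false]) (Sum.inr false :: cst g') (by simp; omega)
      (by simp; omega)).1 (by simpa using e3)
    simp only [ev_append, ev_cst, ev_x, ev_nil, List.append_nil] at this
    exact ⟨p, h1, h2, e1 ▸ hasPeriod_of_conj this⟩
  · have := (h.2 (-1) 0 p (by simp) (by simp; positivity)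
      (by rw [abs_of_nonneg (by positivity)]; exact_mod_cast (by omega : p ≤ M + 1))).1
      (by simp only [Lin]; omega)
    simp only [Lin] at this
    exact ⟨p, h1, h2, List.hasPeriod_of_length_le _ _ (by omega)⟩

theorem Eqv.per_right {M : ℕ} {x y x' y' : List S} (h : Eqv (M + 1) x y x' y') (hy : Per M y) :
    Per M y' := h.swap.per_left hy

@[simp] theorem length_wd (f : ℕ → S) (m : ℕ) : (wd f m).length = m := by simp [wd]

theorem getElem?_wd (f : ℕ → S) {m i : ℕ} (h : i < m) : (wd f m)[i]? = some (f i) := by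
  simp [wd, h]

end Pool.Agent.WEq
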