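import Pool.Agent.P.MP_a11166_lc.Comb

/-! Row Sub. Transfer of the equivalences along substitutions.
Equations: `ev_subst`, `length_subst_le`. Length conditions: by `length_ev`,
`|ev u v sx| = a1 |u| + b1 |v| + c1` and `|ev u v sy| = a2 |u| + b2 |v| + c2` with all six numbers in
`[0, K]`, so `Lin a b c (ev u v sx) (ev u v sy)` is
`Lin (a a1 + b a2) (a b1 + b b2) (a c1 + b c2 + c) u v`. Bounds: `length_ev_le`.
-/

set_option autoImplicit false

namespace Pool.Agent.WEq

open Pool.Agent.Lib.Comp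

variable {S : Type}

theorem sub_len {K : ℕ} {s : FW S} (hs : s.length ≤ K) :
    ∃ c : ℤ, 0 ≤ c ∧ c ≤ K ∧ ((proj s).count false : ℤ) ≤ K ∧ ((proj s).count true : ℤ) ≤ K ∧
      ∀ u v : List S, ((ev u v s).length : ℤ) =
        ((proj s).count false : ℤ) * u.length + ((proj s).count true : ℤ) * v.length + c := by
  have h1 := length_proj_le s
  have h2 := count_add_count (proj s)
  exact ⟨(s.length : ℤ) - (proj s).length, by omega, by omega, by omega, by omega,
    fun u v => length_ev u v s⟩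

theorem sub_abs {M K a b c s t : ℤ} (ha : |a| ≤ M) (hb : |b| ≤ M) (hc : |c| ≤ M) (hs0 : 0 ≤ s)
    (hs : s ≤ K) (ht0 : 0 ≤ t) (ht : t ≤ K) : |a * s + b * t + c| ≤ M * (2 * K + 1) := by
  have h1 : |a * s| ≤ M * K := by
    rw [abs_mul, abs_of_nonneg hs0]
    exact mul_le_mul ha hs hs0 ((abs_nonneg a).trans ha)
  have h2 : |b * t| ≤ M * K := by
    rw [abs_mul, abs_of_nonneg ht0]
    exact mul_le_mul hb ht ht0 ((abs_nonneg b).trans hb)
  have := abs_add_le (a * s + b * t) c
  have := abs_add_le (a * s) (b * t)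
  linarith

theorem sub_lin {M K : ℕ} {sx sy : FW S} (hx : sx.length ≤ K) (hy : sy.length ≤ K) {a b c : ℤ}
    (ha : |a| ≤ M) (hb : |b| ≤ M) (hc : |c| ≤ M) :
    ∃ c' : ℤ, |a * (proj sx).count false + b * (proj sy).count false| ≤ (M * (2 * K + 1) : ℕ) ∧
      |a * (proj sx).count true + b * (proj sy).count true| ≤ (M * (2 * K + 1) : ℕ) ∧
      |c'| ≤ (M * (2 * K + 1) : ℕ) ∧ ∀ u v : List S, Lin a b c (ev u v sx) (ev u v sy) ↔
        Lin (a * (proj sx).count false + b * (proj sy).count false)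
          (a * (proj sx).count true + b * (proj sy).count true) c' u v := by
  obtain ⟨c1, a1, a2, a3, a4, a5⟩ := sub_len hx
  obtain ⟨c2, b1, b2, b3, b4, b5⟩ := sub_len hy
  have h0 : |(0 : ℤ)| ≤ M := by simp
  refine ⟨a * c1 + b * c2 + c, ?_, ?_, ?_, fun u v => ?_⟩
  · simpa using sub_abs ha hb h0 (by positivity) a3 (by positivity) b3
  · simpa using sub_abs ha hb h0 (by positivity) a4 (by positivity) b4
  · simpa using sub_abs ha hb hc a1 a2 b1 b2
  · simp only [Lin, a5, b5]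
    constructor <;> intro h <;> linarith

theorem sub_size {M K : ℕ} (hK : 1 ≤ K) {sx sy : FW S} (hx : sx.length ≤ K) (hy : sy.length ≤ K)
    {U : FW S} (hU : U.length ≤ M) : (subst sx sy U).length ≤ M * (2 * K + 1) :=
  (length_subst_le hK hx hy U).trans (Nat.mul_le_mul hU (by omega))

theorem sub_bound {K B : ℕ} {s : FW S} (hs : s.length ≤ K) {u v : List S} (hu : u.length ≤ B)
    (hv : v.length ≤ B) : (ev u v s).length ≤ K * (B + 1) :=
  (length_ev_le hu hv s).trans (Nat.mul_le_mul_right _ hs)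

theorem eqv_subst {M K : ℕ} (hK : 1 ≤ K) {sx sy : FW S} (hx : sx.length ≤ K) (hy : sy.length ≤ K)
    {u v u' v' : List S} (h : Eqv (M * (2 * K + 1)) u v u' v') :
    Eqv M (ev u v sx) (ev u v sy) (ev u' v' sx) (ev u' v' sy) := by
  refine ⟨fun U V hU hV => ?_, fun a b c ha hb hc => ?_⟩
  · simpa only [ev_subst] using h.1 _ _ (sub_size hK hx hy hU) (sub_size hK hx hy hV)
  · obtain ⟨c', h1, h2, h3, h4⟩ := sub_lin hx hy ha hb hc
    rw [h4, h4]
    exact h.2 _ _ _ h1 h2 h3

theorem shr_subst {M K B : ℕ} (hK : 1 ≤ K) {sx sy : FW S} (hx : sx.length ≤ K)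
    (hy : sy.length ≤ K) {u v : List S} (h : Shr (M * (2 * K + 1)) B u v) :
    Shr M (K * (B + 1)) (ev u v sx) (ev u v sy) := by
  obtain ⟨u', v', h1, h2, h3⟩ := h
  exact ⟨_, _, eqv_subst hK hx hy h1, sub_bound hx h2 h3, sub_bound hy h2 h3⟩

theorem proj_subst_smor {j : ℕ} {sx sy : FW S} (px : proj sx = List.replicate j false ++ [true])
    (py : proj sy = [false]) (U : FW S) : proj (subst sx sy U) = smor j (proj U) := by
  rw [proj_subst, px, py, smor]

theorem shrK_subst_id {k M K B : ℕ} (hK : 1 ≤ K) {sx sy : FW S} (hx : sx.length ≤ K)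
    (hy : sy.length ≤ K) (px : proj sx = [false]) (py : proj sy = [true]) {u v : List S}
    (h : ShrK k (M * (2 * K + 1)) B u v) :
    ShrK k M (K * (B + 1)) (ev u v sx) (ev u v sy) := by
  obtain ⟨u', v', h1, h2, h3⟩ := h
  have hp : ∀ U : FW S, proj (subst sx sy U) = proj U := fun U => by
    rw [proj_subst, px, py]
    induction proj U with
    | nil => rfl
    | cons b p ih => cases b <;> simp [ih]
  refine ⟨_, _, ⟨fun U V hU hV hA => ?_, fun a b c ha hb hc hF => ?_⟩, sub_bound hx h2 h3,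
    sub_bound hy h2 h3⟩
  · simpa only [ev_subst] using h1.1 _ _ (sub_size hK hx hy hU) (sub_size hK hx hy hV)
      (by rwa [hp, hp])
  · obtain ⟨c', e1, e2, e3, e4⟩ := sub_lin hx hy ha hb hc
    rw [e4, e4]
    exact h1.2 _ _ _ e1 e2 e3 (by simpa [px, py] using hF)

theorem shrK_subst_smor {k j M K B : ℕ} (hj : 1 ≤ j) (hK : 1 ≤ K) {sx sy : FW S}
    (hx : sx.length ≤ K) (hy : sy.length ≤ K) (px : proj sx = List.replicate j false ++ [true])
    (py : proj sy = [false]) {u v : List S} (h : ShrK k (M * (2 * K + 1)) B u v) :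
    ShrK (k + 1) M (K * (B + 1)) (ev u v sx) (ev u v sy) := by
  obtain ⟨u', v', h1, h2, h3⟩ := h
  refine ⟨_, _, ⟨fun U V hU hV hA => ?_, fun a b c ha hb hc hF => ?_⟩, sub_bound hx h2 h3,
    sub_bound hy h2 h3⟩
  · simpa only [ev_subst] using h1.1 _ _ (sub_size hK hx hy hU) (sub_size hK hx hy hV)
      (by rw [proj_subst_smor px py, proj_subst_smor px py]; exact inA_smor hj hA)
  · obtain ⟨c', e1, e2, e3, e4⟩ := sub_lin hx hy ha hb hc
    rw [e4, e4]
    exact h1.2 _ _ _ e1 e2 e3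
      (by simpa [px, py, List.count_replicate, mul_comm] using fm_smor hj hF)

end Pool.Agent.WEq
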