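import Pool.Agent.P.MP_a11166_lc.RD
import Pool.Agent.P.MP_a11166_lc.Sub

/-! Row C0. Stage `0`.
`exists_q`: `firstswap` (`Per.mono`) and `pop` give `x = g1 ++ x0`, `y = g2 ++ y0` and
`x0 ++ A1 ++ y0 ++ R = y0 ++ C1 ++ x0 ++ R'` with `A1 = A ++ g2`, `C1 = C ++ g1` of length at most
`2 M`. If `C1.length ≤ A1.length` then `x0 A1 y0 = y0 C1 x0 ze`, `ze` is a final segment of `y0`
(`ze.length ≤ 2 M ≤ y0.length`), `y0 = v ++ ze`, and `x0 A1 v = v (ze C1) x0`. Symmetrically
otherwise.
`c0`: `1 ≤ M` since `proj U ≠ proj V`. If `Per (3 M) x ∨ Per (3 M) y` use `h2` at level `3 M`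
(`Shr.mono`, `Shr.shrK`). Otherwise the lengths exceed `3 M`; `length_ev` and the second half of
`InA 0` give `dc false = dc true = 0`, so `bd_of_inA`, `exists_q`, `hQ` at level
`M (2 (3 M + 1) + 1)` and `shrK_subst_id` with `K = 3 M + 1`,
`sx = cst g1 ++ inr false :: cst z1`, `sy = cst g2 ++ inr true :: cst z2`.
-/

set_option autoImplicit false

namespace Pool.Agent.WEq

open Pool.Agent.Lib.Comp

variable {S : Type}

theorem c0_aux {x y A C R R' : List S} (h1 : C.length ≤ A.length) (h2 : A.length ≤ y.length)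
    (h : x ++ A ++ y ++ R = y ++ C ++ x ++ R') :
    ∃ v z, y = v ++ z ∧ z.length + C.length = A.length ∧ x ++ A ++ v = v ++ (z ++ C) ++ x := by
  obtain ⟨z, hz⟩ : y ++ C ++ x <+: x ++ A ++ y :=
    List.prefix_of_prefix_length_le ⟨R', h.symm⟩ (List.prefix_append _ R) (by
      simp only [List.length_append]; omega)
  have hl := congrArg List.length hz
  simp only [List.length_append] at hl
  obtain ⟨v, rfl⟩ : z <:+ y :=
    List.suffix_of_suffix_length_le ⟨_, hz⟩ (List.suffix_append _ y) (by omega)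
  refine ⟨v, z, rfl, by omega, List.append_cancel_right (bs := z) ?_⟩
  simpa only [List.append_assoc] using hz.symm

theorem c0_pos {M : ℕ} {U V : FW S} (hU : U.length ≤ M) (hV : V.length ≤ M)
    (hne : proj U ≠ proj V) : 1 ≤ M := by
  by_contra hM
  rw [List.length_eq_zero_iff.1 (show U.length = 0 by omega),
    List.length_eq_zero_iff.1 (show V.length = 0 by omega)] at hne
  exact hne rfl

theorem exists_q {M : ℕ} {x y : List S} (hx : ¬ Per (3 * M) x) (hy : ¬ Per (3 * M) y)
    {U V : FW S} (hU : U.length ≤ M) (hV : V.length ≤ M) (hB : BD (proj U) (proj V))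
    (hne : proj U ≠ proj V) (h : ev x y U = ev x y V) :
    ∃ g1 z1 g2 z2 u v A C : List S, x = g1 ++ u ++ z1 ∧ y = g2 ++ v ++ z2 ∧
      g1.length + z1.length ≤ 3 * M ∧ g2.length + z2.length ≤ 3 * M ∧ A.length ≤ 2 * M ∧
      C.length ≤ 2 * M ∧ u ++ A ++ v = v ++ C ++ u := by
  have hM := c0_pos hU hV hne
  have lx := lt_length_of_not_per (by omega) hx
  have ly := lt_length_of_not_per (by omega) hy
  obtain ⟨a, A, b, C, R, R', h1, h2, h3, h4, h5⟩ := firstswap (fun hq => hx (hq.mono (by omega)))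
    (fun hq => hy (hq.mono (by omega))) hU hV hB hne h
  obtain ⟨g1, g2, x0, y0, rfl, rfl, k1, k2, k3⟩ := pop (R := A ++ y ++ R) (R' := C ++ x ++ R')
    h1 h3 (show M ≤ x.length by omega) (show M ≤ y.length by omega)
    (by simpa only [List.append_assoc] using h5)
  have k4 : x0 ++ (A ++ g2) ++ y0 ++ R = y0 ++ (C ++ g1) ++ x0 ++ R' := by
    simpa only [List.append_assoc] using k3
  rw [List.length_append] at lx ly
  have l1 : (A ++ g2).length ≤ 2 * M := by
    rw [List.length_append]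
    omega
  have l2 : (C ++ g1).length ≤ 2 * M := by
    rw [List.length_append]
    omega
  rcases le_total (C ++ g1).length (A ++ g2).length with hl | hl
  · obtain ⟨v, z, rfl, e1, e2⟩ := c0_aux hl (by omega) k4
    exact ⟨g1, [], g2, z, x0, v, A ++ g2, z ++ (C ++ g1), by simp, by simp, by simp; omega,
      by omega, l1, by rw [List.length_append]; omega, e2⟩
  · obtain ⟨u, z, rfl, e1, e2⟩ := c0_aux hl (by omega) k4.symm
    exact ⟨g1, z, g2, [], u, y0, z ++ (A ++ g2), C ++ g1, by simp, by simp, by omega,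
      by simp; omega, by rw [List.length_append]; omega, l2, e2.symm⟩

theorem c0_zero {a b X Y M : ℤ} (h : 0 ≤ a * b) (hX : M < X) (hY : M < Y)
    (h1 : a * X + b * Y ≤ M) (h2 : -M ≤ a * X + b * Y) : a = 0 ∧ b = 0 := by
  have hM : 0 ≤ M := by linarith
  rcases mul_nonneg_iff.1 h with ⟨ha, hb⟩ | ⟨ha, hb⟩
  · constructor <;> nlinarith
  · constructor <;> nlinarith

theorem c0 {B2 BQ : ℕ → ℕ} (hB2 : Primrec B2) (h2 : T2St S B2) (hBQ : Primrec BQ)
    (hQ : QSt S BQ) : ∃ B : ℕ → ℕ, Primrec B ∧ ∀ M, CSt S 0 M (B M) := by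
  refine ⟨fun M => B2 (3 * M) + (3 * M + 1) * (BQ (M * (2 * (3 * M + 1) + 1)) + 1), by fun_prop,
    fun M x y U V _ hU hV hA hne h => ?_⟩
  have hM := c0_pos hU hV hne
  by_cases hp : Per (3 * M) x ∨ Per (3 * M) y
  · exact ((h2 _ x y hp).mono (by omega) (Nat.le_add_right _ _)).shrK 0
  rw [not_or] at hp
  have lx := lt_length_of_not_per (by omega) hp.1
  have ly := lt_length_of_not_per (by omega) hp.2
  have e1 := length_ev x y U
  have e2 := length_ev x y V
  have l1 := length_proj_le U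
  have l2 := length_proj_le V
  have hz : dc false (proj U) (proj V) = 0 ∧ dc true (proj U) (proj V) = 0 := by
    rcases hA.2 with h0 | h0
    · rw [h, e2] at e1
      refine c0_zero (X := x.length) (Y := y.length) (M := M) h0 (by omega) (by omega) ?_ ?_ <;>
        unfold dc <;> rw [sub_mul, sub_mul] <;> omega
    · rw [Nat.cast_zero] at h0
      have a1 := abs_nonneg (dc false (proj U) (proj V))
      have a2 := abs_nonneg (dc true (proj U) (proj V))
      exact ⟨abs_nonpos_iff.1 (by linarith), abs_nonpos_iff.1 (by linarith)⟩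
  obtain ⟨g1, z1, g2, z2, u, v, A, C, rfl, rfl, k1, k2, k3, k4, k5⟩ :=
    exists_q hp.1 hp.2 hU hV (bd_of_inA hA hz.1 hz.2) hne h
  have k6 : 2 * M ≤ M * (2 * (3 * M + 1) + 1) := by nlinarith
  have k7 := shrK_subst_id (K := 3 * M + 1) (sx := cst g1 ++ Sum.inr false :: cst z1)
    (sy := cst g2 ++ Sum.inr true :: cst z2) (by omega) (by simp; omega) (by simp; omega)
    (by simp) (by simp) (hQ _ A C u v (by omega) (k3.trans k6) (k4.trans k6) k5)
  simp only [ev_append, ev_cst, ev_x, ev_y, ← List.append_assoc] at k7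
  exact k7.mono le_rfl (Nat.le_add_left _ _)

end Pool.Agent.WEq
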