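import Pool.Agent.P.MP_a11166_lc.Basic

/-! Row Comb. Lattice path combinatorics of the standard morphisms.
`inA_smor`: an initial segment of `smor j p` is `smor j p0 ++ replicate i false` with `p0 <+: p`,
`i ≤ j`; `count false (smor j p) = j * count false p + count true p`,
`count true (smor j p) = count false p`. So the new vector is `z = (j w1 + w2 + i - i', w1)` with
`w` an old vector. If `z1 * z2 < 0`, say `0 < w1`, `z1 < 0`, then `w2 < 0`, and
`|z1| + |z2| = |w1| + |w2| - (j w1 + i - i')` with `0 ≤ j w1 + i - i'` and equality only for
`w1 = 1`, `i = 0`, `i' = j`, where `z = (w2, 1)`; if `w = (1, -1)` then `z = (-1, 1)`.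
`smor_inj`: induction from the right (last letters), or on reversed lists.
`bd_of_inA`: strong induction on the length; equal heads are removed; if the heads differ then the
second letters exist (counts) and `[b, b]` against `[!b]` would give the vector `±(2, -1)` or
`±(1, -2)`, which is not `Ok 0`.
-/

set_option autoImplicit false

namespace Pool.Agent.WEq

open Pool.Agent.Lib.Comp

variable {S : Type}

@[simp] theorem smor_nil (j : ℕ) : smor j [] = [] := rfl
theorem smor_false (j : ℕ) (p : List Bool) :
    smor j (false :: p) = (List.replicate j false ++ [true]) ++ smor j p := by simp [smor]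
theorem smor_true (j : ℕ) (p : List Bool) : smor j (true :: p) = false :: smor j p := by simp [smor]
theorem smor_append (j : ℕ) (p q : List Bool) : smor j (p ++ q) = smor j p ++ smor j q := by
  simp [smor]

theorem count_false_smor (j : ℕ) (p : List Bool) :
    (smor j p).count false = j * p.count false + p.count true := by
  induction p with
  | nil => simp
  | cons b p ih =>
    cases b
    · simp [smor_false, ih, List.count_replicate]; ring
    · simp [smor_true, ih]; ring

theorem count_true_smor (j : ℕ) (p : List Bool) : (smor j p).count true = p.count false := by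
  induction p with
  | nil => simp
  | cons b p ih =>
    cases b
    · simp [smor_false, ih, List.count_replicate]
    · simp [smor_true, ih]

theorem fm_smor {k j : ℕ} (hj : 1 ≤ j) {a b : ℤ} (h : Fm (k + 1) a b) :
    Fm k ((j : ℤ) * a + b) a := by
  have hj' : (1 : ℤ) ≤ j := by exact_mod_cast hj
  rcases h with h | h
  · left; nlinarith [mul_self_nonneg a]
  · by_cases h' : 0 ≤ ((j : ℤ) * a + b) * a
    · exact Or.inl h'
    · right
      push_cast at h
      rcases mul_neg_iff.1 (not_le.1 h') with ⟨h1, h2⟩ | ⟨h1, h2⟩
      · have : (j : ℤ) * a ≤ a := by nlinarith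
        rw [abs_of_pos h1, abs_of_neg h2]
        rw [abs_of_neg h2, abs_of_pos (by omega : 0 < b)] at h
        omega
      · have : a ≤ (j : ℤ) * a := by nlinarith
        rw [abs_of_neg h1, abs_of_pos h2]
        rw [abs_of_pos h2, abs_of_neg (by omega : b < 0)] at h
        omega

theorem pre_smor {j : ℕ} {p r : List Bool} (h : r <+: smor j p) :
    ∃ p0 i, p0 <+: p ∧ i ≤ j ∧ r = smor j p0 ++ List.replicate i false := by
  induction p generalizing r with
  | nil => exact ⟨[], 0, List.prefix_rfl, by omega, by simpa using h⟩
  | cons b p ih =>
    cases b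
    · rw [smor_false] at h
      by_cases hl : r.length ≤ j
      · refine ⟨[], r.length, List.nil_prefix, hl, ?_⟩
        rw [List.append_assoc] at h
        have := List.prefix_of_prefix_length_le h (List.prefix_append _ _) (by simpa using hl)
        simpa using (List.prefix_replicate_iff.1 this).2
      · obtain ⟨r', rfl⟩ := List.prefix_of_prefix_length_le (List.prefix_append _ _) h
          (by simp; omega)
        obtain ⟨p0, i, h1, h2, h3⟩ := ih ((List.prefix_append_right_inj _).1 h)
        exact ⟨false :: p0, i, List.cons_prefix_cons.2 ⟨rfl, h1⟩, h2, by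
          rw [smor_false, h3, List.append_assoc (List.replicate j false ++ [true])]⟩
    · rw [smor_true] at h
      cases r with
      | nil => exact ⟨[], 0, List.nil_prefix, by omega, by simp⟩
      | cons c r =>
        obtain ⟨rfl, h'⟩ := List.cons_prefix_cons.1 h
        obtain ⟨p0, i, h1, h2, h3⟩ := ih h'
        exact ⟨true :: p0, i, List.cons_prefix_cons.2 ⟨rfl, h1⟩, h2, by rw [smor_true, h3]; rfl⟩

theorem ok_neg {k : ℕ} {a b : ℤ} (h : Ok k a b) : Ok k (-a) (-b) := by
  simpa [Ok] using h

theorem ok_step_pos {k : ℕ} {j w1 w2 i i' : ℤ} (hj : 1 ≤ j) (hi : 0 ≤ i) (hi' : i' ≤ j)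
    (hw : 0 < w1) (hz : j * w1 + w2 + i - i' < 0) (h : Ok (k + 1) w1 w2) :
    Ok k (j * w1 + w2 + i - i') w1 := by
  have h1 : j + w1 - 1 ≤ j * w1 := by nlinarith
  have h2 : w2 < 0 := by omega
  have h3 : ¬ 0 ≤ w1 * w2 := not_le.2 (mul_neg_of_pos_of_neg hw h2)
  right
  rw [abs_of_neg hz, abs_of_pos hw]
  rcases h with h | h | h
  · exact absurd h h3
  · rw [abs_of_pos hw, abs_of_neg h2] at h
    left; omega
  · rw [abs_of_pos hw, abs_of_neg h2] at h
    push_cast at h
    split_ifs at h ⊢ <;> omega

theorem ok_step {k : ℕ} {j w1 w2 i i' : ℤ} (hj : 1 ≤ j) (hi : 0 ≤ i) (hi2 : i ≤ j) (hi' : 0 ≤ i')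
    (hi2' : i' ≤ j) (h : Ok (k + 1) w1 w2) : Ok k (j * w1 + w2 + i - i') w1 := by
  by_cases h' : 0 ≤ (j * w1 + w2 + i - i') * w1
  · exact Or.inl h'
  · rcases mul_neg_iff.1 (not_le.1 h') with ⟨h1, h2⟩ | ⟨h1, h2⟩
    · have := ok_neg (ok_step_pos (w1 := -w1) (w2 := -w2) (i := i') (i' := i) hj hi' hi2 (by omega)
        (by linarith) (ok_neg h))
      rwa [neg_neg, show -(j * -w1 + -w2 + i' - i) = j * w1 + w2 + i - i' by ring] at this
    · exact ok_step_pos hj hi hi2' h2 h1 h

theorem inA_smor {k j : ℕ} (hj : 1 ≤ j) {p q : List Bool} (h : InA (k + 1) p q) :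
    InA k (smor j p) (smor j q) := by
  constructor
  · intro p' q' hp hq
    obtain ⟨p0, i, a1, a2, rfl⟩ := pre_smor hp
    obtain ⟨q0, i', b1, b2, rfl⟩ := pre_smor hq
    have := ok_step (j := j) (i := i) (i' := i') (by omega) (by omega) (by omega) (by omega)
      (by omega) (h.1 p0 q0 a1 b1)
    convert this using 1
    · simp [dc, count_false_smor, List.count_replicate]; ring
    · simp [dc, count_true_smor, List.count_replicate]
  · convert fm_smor hj h.2 using 1
    · simp [dc, count_false_smor]; ring
    · simp [dc, count_true_smor]

theorem abs_dc_le (p q : List Bool) :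
    |dc false p q| + |dc true p q| ≤ (p.length : ℤ) + q.length := by
  have h1 := count_add_count p
  have h2 := count_add_count q
  simp only [dc]
  rcases abs_cases ((p.count false : ℤ) - q.count false) with h | h <;>
    rcases abs_cases ((p.count true : ℤ) - q.count true) with h' | h' <;> omega

theorem inA_init {N : ℕ} {p q : List Bool} (hp : p.length ≤ N) (hq : q.length ≤ N) :
    InA (4 * N + 1) p q := by
  constructor
  · intro p' q' h1 h2
    have := abs_dc_le p' q'
    have := h1.length_le
    have := h2.length_le
    right; right
    push_cast
    split_ifs <;> omega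
  · have := abs_dc_le p q
    right
    push_cast
    omega

theorem smor_inj {j : ℕ} (hj : 1 ≤ j) {p q : List Bool} (h : smor j p = smor j q) : p = q := by
  induction p using List.reverseRecOn generalizing q with
  | nil =>
    cases q with
    | nil => rfl
    | cons b q => cases b <;> simp [smor_false, smor_true] at h
  | append_singleton p b ih =>
    induction q using List.reverseRecOn with
    | nil =>
      cases b <;> simp [smor_append, smor_false, smor_true] at h
    | append_singleton q c _ =>
      rw [smor_append, smor_append] at h
      cases b <;> cases c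
      · rw [ih (List.append_cancel_right h)]
      · have := congrArg List.getLast? h
        simp [smor_false, smor_true, ← List.append_assoc] at this
      · have := congrArg List.getLast? h
        simp [smor_false, smor_true, ← List.append_assoc] at this
      · rw [ih (List.append_cancel_right h)]

theorem bd_aux (n : ℕ) : ∀ p q : List Bool, p.length ≤ n →
    (∀ p' q', p' <+: p → q' <+: q → Ok 0 (dc false p' q') (dc true p' q')) →
    p.count false = q.count false → p.count true = q.count true → BD p q := by
  induction n with
  | zero =>
    intro p q hp _ h1 h2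
    have e1 := count_add_count p
    have e2 := count_add_count q
    rw [List.length_eq_zero_iff.1 (by omega : p.length = 0),
      List.length_eq_zero_iff.1 (by omega : q.length = 0)]
    exact BD.nil
  | succ n ih =>
    intro p q hp h h1 h2
    have e1 := count_add_count p
    have e2 := count_add_count q
    have hl : p.length = q.length := by omega
    match p, q, hl with
    | [], [], _ => exact BD.nil
    | b :: p, c :: q, hl =>
      by_cases hbc : b = c
      · subst hbc
        refine BD.same b (ih p q (by simpa using hp) (fun p' q' a1 a2 => ?_)
          (by cases b <;> simpa using h1) (by cases b <;> simpa using h2))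
        have := h (b :: p') (b :: q') (List.cons_prefix_cons.2 ⟨rfl, a1⟩)
          (List.cons_prefix_cons.2 ⟨rfl, a2⟩)
        cases b <;> simpa [dc] using this
      · have hc : c = !b := by cases b <;> cases c <;> simp_all
        subst hc
        match p, q, hl with
        | [], [], _ => cases b <;> simp at h1
        | d :: p, e :: q, hl =>
          have hd : d = !b := by
            have := h [b, d] [!b] (by simp) (by simp)
            cases b <;> cases d <;> simp [dc, Ok] at this ⊢ <;> norm_num at this
          have he : e = b := by
            have := h [b] [!b, e] (by simp) (by simp)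
            cases b <;> cases e <;> simp [dc, Ok] at this ⊢ <;> norm_num at this
          subst hd
          subst he
          refine BD.swap e (ih p q (by simp at hp; omega) (fun p' q' a1 a2 => ?_)
            (by cases e <;> simpa using h1) (by cases e <;> simpa using h2))
          have := h (e :: (!e) :: p') ((!e) :: e :: q') (by simpa using a1) (by simpa using a2)
          cases e <;> simpa [dc] using this

theorem bd_of_inA {p q : List Bool} (h : InA 0 p q) (h1 : dc false p q = 0)
    (h2 : dc true p q = 0) : BD p q :=
  bd_aux p.length p q le_rfl h.1 (by simp only [dc] at h1; omega) (by simp only [dc] at h2; omega)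

end Pool.Agent.WEq
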