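import Pool.Agent.P.MP_a11166_lc.AL
import Pool.Agent.P.MP_a11166_lc.Sub

/-! Row QT. Small solutions of `u A v = v C u`.
`ng`: `A.length = C.length`. If `v.length + C.length ≤ u.length` then `u = v ++ C ++ u1`, and
`¬ Gen` gives `Per M u1 ∨ Per M v`; apply `h2` to `(u1, v)` at level `M' (2 (M' + 2) + 1)` and
`shr_subst` with `K = M' + 2`, `sx = inr true :: cst C ++ [inr false]`, `sy = [inr true]`.
Symmetrically if `u.length + A.length ≤ v.length`. Otherwise one of `u`, `v` is the other followed
by `ze` with `ze.length ≤ M`; use the pair `([], v)` or `(u, [])` (`per_of_length_le`).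
`gen_small`: strong induction on `u.length + v.length`. Say `u = v ++ C ++ u1`; then
`u1 ++ A ++ v = v ++ C ++ u1`. If `(u1, v)` is generic use the induction hypothesis (`v ≠ []` by
`lt_length_of_not_per`). Otherwise `ng` at level `M' = M + 2` gives a bounded pair `(u1', v')`
which solves the equation (it is an equation of size `M + 2`) and has no small periods
(`Eqv.per_left`, `Eqv.per_right` for the symmetric relation); `(v' ++ C ++ u1', v')` is generic.
`qt`: `ng` with `M' = M` or `gen_small` and `al`; `Primrec` by `fun_prop`.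
-/

set_option autoImplicit false

namespace Pool.Agent.WEq

open Pool.Agent.Lib.Comp

variable {S : Type}

theorem ng {B2 : ℕ → ℕ} (h2 : T2St S B2) {M M' : ℕ} (hM : 1 ≤ M) (hM' : M ≤ M')
    {A C u v : List S} (hA : A.length ≤ M) (hC : C.length ≤ M) (hQ : u ++ A ++ v = v ++ C ++ u)
    (hG : ¬ Gen M A C u v) :
    Shr M' ((M' + 2) * (B2 (M' * (2 * (M' + 2) + 1)) + 1)) u v := by
  have hL : M ≤ M' * (2 * (M' + 2) + 1) := hM'.trans (Nat.le_mul_of_pos_right _ (by omega))
  have hK : 1 ≤ M' + 2 := by omega
  have hlen := congrArg List.length hQ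
  simp only [List.length_append] at hlen
  have pu : u <+: v ++ C ++ u := ⟨A ++ v, by rw [← hQ, List.append_assoc]⟩
  have pv : v <+: u ++ A ++ v := ⟨C ++ u, by rw [hQ, List.append_assoc]⟩
  by_cases c1 : v.length + C.length ≤ u.length
  · obtain ⟨u1, e⟩ : v ++ C <+: u :=
      List.prefix_of_prefix_length_le (List.prefix_append _ _) pu (by simpa using c1)
    have hp : Per M u1 ∨ Per M v := by
      by_contra hn
      push Not at hn
      exact hG ⟨hQ, Or.inl ⟨u1, e.symm, hn.1, hn.2⟩⟩
    have := shr_subst (M := M') hK (sx := Sum.inr true :: (cst C ++ [Sum.inr false]))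
      (sy := [Sum.inr true]) (by simp; omega) (by simp)
      (h2 _ u1 v (hp.imp (fun h => h.mono hL) fun h => h.mono hL))
    simp only [ev_y, ev_append, ev_cst, ev_x, ev_nil, List.append_nil] at this
    rwa [← List.append_assoc, e] at this
  by_cases c2 : u.length + A.length ≤ v.length
  · obtain ⟨v1, e⟩ : u ++ A <+: v :=
      List.prefix_of_prefix_length_le (List.prefix_append _ _) pv (by simpa using c2)
    have hp : Per M u ∨ Per M v1 := by
      by_contra hn
      push Not at hn
      exact hG ⟨hQ, Or.inr ⟨v1, e.symm, hn.1, hn.2⟩⟩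
    have := shr_subst (M := M') hK (sx := [Sum.inr false])
      (sy := Sum.inr false :: (cst A ++ [Sum.inr true])) (by simp) (by simp; omega)
      (h2 _ u v1 (hp.imp (fun h => h.mono hL) fun h => h.mono hL))
    simp only [ev_y, ev_append, ev_cst, ev_x, ev_nil, List.append_nil] at this
    rwa [← List.append_assoc, e] at this
  have pnil : Per (M' * (2 * (M' + 2) + 1)) ([] : List S) :=
    per_of_length_le (hM.trans hL) (by simp)
  by_cases c3 : v.length ≤ u.length
  · obtain ⟨ze, e⟩ : v <+: u :=
      List.prefix_of_prefix_length_le ⟨C ++ u, by rw [List.append_assoc]⟩ pu c3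
    have hz := congrArg List.length e
    simp only [List.length_append] at hz
    have := shr_subst (M := M') hK (sx := Sum.inr true :: cst ze)
      (sy := [Sum.inr true]) (by simp; omega) (by simp) (h2 _ [] v (Or.inl pnil))
    simp only [ev_y, ev_cst, ev_nil, List.append_nil] at this
    rwa [e] at this
  · obtain ⟨ze, e⟩ : u <+: v :=
      List.prefix_of_prefix_length_le ⟨A ++ v, by rw [List.append_assoc]⟩ pv (by omega)
    have hz := congrArg List.length e
    simp only [List.length_append] at hz
    have := shr_subst (M := M') hK (sx := [Sum.inr false])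
      (sy := Sum.inr false :: cst ze) (by simp) (by simp; omega) (h2 _ u [] (Or.inr pnil))
    simp only [ev_x, ev_cst, ev_nil, List.append_nil] at this
    rwa [e] at this

theorem qt_aux1 {M : ℕ} {A C u v u' v' : List S} (hA : A.length ≤ M) (hC : C.length ≤ M)
    (h : Eqv (M + 2) u v u' v') (hQ : u ++ A ++ v = v ++ C ++ u) :
    u' ++ A ++ v' = v' ++ C ++ u' := by
  have := (h.1 (Sum.inr false :: (cst A ++ [Sum.inr true]))
    (Sum.inr true :: (cst C ++ [Sum.inr false])) (by simp; omega) (by simp; omega)).1
    (by simpa using hQ)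
  simpa using this

theorem gen_small {B2 : ℕ → ℕ} (h2 : T2St S B2) {M : ℕ} (hM : 1 ≤ M) {A C u v : List S}
    (hA : A.length ≤ M) (hC : C.length ≤ M) (hG : Gen M A C u v) :
    ∃ u' v', Gen M A C u' v' ∧
      u'.length ≤ 2 * ((M + 4) * (B2 ((M + 2) * (2 * (M + 4) + 1)) + 1)) + M ∧
      v'.length ≤ 2 * ((M + 4) * (B2 ((M + 2) * (2 * (M + 4) + 1)) + 1)) + M := by
  induction hn : u.length + v.length using Nat.strong_induction_on generalizing u v with
  | _ n ih =>
    obtain ⟨hQ, ⟨u1, e, p1, p2⟩ | ⟨v1, e, p1, p2⟩⟩ := hG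
    · have hQ1 : u1 ++ A ++ v = v ++ C ++ u1 := by
        rw [e] at hQ
        simp only [List.append_assoc, List.append_cancel_left_eq] at hQ
        simpa only [List.append_assoc] using hQ
      by_cases hG1 : Gen M A C u1 v
      · refine ih (u1.length + v.length) ?_ hG1 rfl
        have h1 := lt_length_of_not_per hM p2
        have h3 := congrArg List.length e
        simp only [List.length_append] at h3
        omega
      · obtain ⟨u', v', hE, b1, b2⟩ := ng h2 hM (M' := M + 2) (by omega) hA hC hQ1 hG1
        have hQ2 := qt_aux1 hA hC hE hQ1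
        have hE' : Eqv (M + 1) u' v' u1 v := hE.symm.mono (by omega)
        refine ⟨v' ++ C ++ u', v', ⟨?_, Or.inl ⟨u', rfl, fun h => p1 (hE'.per_left h),
          fun h => p2 (hE'.per_right h)⟩⟩, ?_, ?_⟩
        · simp only [List.append_assoc, List.append_cancel_left_eq]
          simpa only [List.append_assoc] using hQ2
        · simp only [List.length_append]
          rw [show M + 2 + 2 = M + 4 from rfl] at b1 b2
          omega
        · rw [show M + 2 + 2 = M + 4 from rfl] at b2
          omega
    · have hQ1 : u ++ A ++ v1 = v1 ++ C ++ u := by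
        rw [e] at hQ
        simp only [List.append_assoc, List.append_cancel_left_eq] at hQ
        simpa only [List.append_assoc] using hQ
      by_cases hG1 : Gen M A C u v1
      · refine ih (u.length + v1.length) ?_ hG1 rfl
        have h1 := lt_length_of_not_per hM p1
        have h3 := congrArg List.length e
        simp only [List.length_append] at h3
        omega
      · obtain ⟨u', v', hE, b1, b2⟩ := ng h2 hM (M' := M + 2) (by omega) hA hC hQ1 hG1
        have hQ2 := qt_aux1 hA hC hE hQ1
        have hE' : Eqv (M + 1) u' v' u v1 := hE.symm.mono (by omega)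
        refine ⟨u', u' ++ A ++ v', ⟨?_, Or.inr ⟨v', rfl, fun h => p1 (hE'.per_left h),
          fun h => p2 (hE'.per_right h)⟩⟩, ?_, ?_⟩
        · simp only [List.append_assoc, List.append_cancel_left_eq]
          simpa only [List.append_assoc] using hQ2
        · rw [show M + 2 + 2 = M + 4 from rfl] at b1
          omega
        · simp only [List.length_append]
          rw [show M + 2 + 2 = M + 4 from rfl] at b1 b2
          omega

theorem qt {B2 : ℕ → ℕ} (hB : Primrec B2) (h2 : T2St S B2) :
    ∃ B : ℕ → ℕ, Primrec B ∧ QSt S B := by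
  refine ⟨fun M => (M + 2) * (B2 (M * (2 * (M + 2) + 1)) + 1) +
    (2 * ((M + 4) * (B2 ((M + 2) * (2 * (M + 4) + 1)) + 1)) + M), by fun_prop, ?_⟩
  intro M A C u v hM hA hC hQ
  by_cases hG : Gen M A C u v
  · obtain ⟨u', v', hG', b1, b2⟩ := gen_small h2 hM hA hC hG
    exact ⟨u', v', al hM hA hC hG hG', b1.trans (Nat.le_add_left _ _),
      b2.trans (Nat.le_add_left _ _)⟩
  · exact ((ng h2 hM le_rfl hA hC hQ hG).shrK 0).mono le_rfl (Nat.le_add_right _ _)

end Pool.Agent.WEq
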