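import Pool.Agent.P.MP_a11166_lc.T2
import Pool.Agent.P.MP_a11166_lc.QT
import Pool.Agent.P.MP_a11166_lc.C0

/-! Row Main. Assembly of the small model theorem.
`cstep`: `1 ≤ M` since `proj U ≠ proj V`. Replace `x` by `ratio M y x` and `Eqv.swap`
(`K = 3 (M + 1)`); the equation and `y.length ≤ x.length` (the form `(1, -1, 0)`) persist;
`ShrK.of_eqvK`. If `Per (2 M + 1)` holds for one word use `h2`. Otherwise `rd` with
`F = (2 K + 2) (M + 1) ^ 2 + 1`, `G M = M (2 F + 1)`: for `v = []` use `h2` at level `G M` and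
`shr_subst`; otherwise the hypothesis for `subst sx sy U`, `subst sx sy V` (`ev_subst`,
`length_subst_le`, `proj_subst_smor`, `inA_smor`, `smor_inj`) and `shrK_subst_smor`.
`call`: for fixed `k`, `M` define `A 0 = B0 (G^[k] M)`,
`A (i + 1) = max (H (G^[k - i - 1] M)) (F (G^[k - i - 1] M) * (A i + 1))` by `Nat.rec` and prove
`CSt S i (G^[k - i] M) (A i)` for `i ≤ k` (`Function.iterate_succ_apply'`); `Primrec.nat_iterate`,
`pr_natRec`.
`free`: letters `a ≠ b`, `ilp (2 * N) (N + 2) 1`, the new lengths are at least `N + 2`,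
`x' = replicate (m' - 1) a ++ [b]`, `y' = replicate (n' - 1) b ++ [a]` (`not_per_marker` with
`r = 0`). Equal projections: `same_proj` for both pairs. Different projections: false by `hfree`
and by `firstdiff` (compare the letters at position `max a.length b.length`).
`small`: `t2` at level `N + 1` (`Shr.mono`); or a true equation with different
projections (swap the variables if `x` is shorter: `ev_swap`, `Shr.swap`), `call` at stage
`4 N + 1`, `inA_init`; or `free`.
-/

set_option autoImplicit false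

namespace Pool.Agent.WEq

open Pool.Agent.Lib.Comp

variable {S : Type}

theorem main_proj_swap (U : FW S) : proj (U.map (Sum.map id not)) = (proj U).map not := by
  induction U with
  | nil => rfl
  | cons c U ih => rcases c with a | b <;> simp [ih]

theorem main_shr {N B : ℕ} {x y : List S} (h : ShrK (4 * N + 1) N B x y) : Shr N B x y := by
  obtain ⟨x', y', h1, h2, h3⟩ := h
  refine ⟨x', y', ⟨fun U V hU hV => h1.1 U V hU hV
    (inA_init ((length_proj_le U).trans hU) ((length_proj_le V).trans hV)),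
    fun a b c ha hb hc => h1.2 a b c ha hb hc (Or.inr ?_)⟩, h2, h3⟩
  push_cast
  omega

theorem main_letter {a : S} {L i : ℕ} {g R : List S} (h1 : g.length ≤ i) (h2 : i < g.length + L) :
    (g ++ (List.replicate L a ++ R))[i]? = some a := by
  rw [List.getElem?_append_right h1, List.getElem?_append_left (by simp; omega),
    List.getElem?_replicate, if_pos (by omega)]

theorem cstep {B2 : ℕ → ℕ} (hB2 : Primrec B2) (h2 : T2St S B2) :
    ∃ G F H : ℕ → ℕ, Primrec G ∧ Primrec F ∧ Primrec H ∧
      ∀ k M B, CSt S k (G M) B → CSt S (k + 1) M (max (H M) (F M * (B + 1))) := by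
  refine ⟨fun M => M * (2 * ((2 * (3 * (M + 1)) + 2) * (M + 1) ^ 2 + 1) + 1),
    fun M => (2 * (3 * (M + 1)) + 2) * (M + 1) ^ 2 + 1,
    fun M => max (B2 (2 * M + 1)) (((2 * (3 * (M + 1)) + 2) * (M + 1) ^ 2 + 1) *
      (B2 (M * (2 * ((2 * (3 * (M + 1)) + 2) * (M + 1) ^ 2 + 1) + 1)) + 1)),
    by fun_prop, by fun_prop, by fun_prop, ?_⟩
  intro k M B hC x y U V hxy hU hV hA hne h
  simp only at hC ⊢
  generalize hF : (2 * (3 * (M + 1)) + 2) * (M + 1) ^ 2 + 1 = F at hC ⊢
  have hF1 : 1 ≤ F := by omega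
  have hM : 1 ≤ M := by
    by_contra h0
    rw [List.length_eq_zero_iff.1 (by omega : U.length = 0),
      List.length_eq_zero_iff.1 (by omega : V.length = 0)] at hne
    exact hne rfl
  have hM' : (1 : ℤ) ≤ M := by exact_mod_cast hM
  obtain ⟨x', he, hx'⟩ := ratio M y x
  have he' := he.swap
  have h' := (he'.1 U V hU hV).1 h
  have hxy' : y.length ≤ x'.length := by
    have := (he'.2 1 (-1) 0 (by simpa using hM') (by simpa using hM') (by simp)).1
      (by simp only [Lin]; omega)
    simp only [Lin] at this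
    omega
  refine ShrK.of_eqvK (he'.eqvK _) ?_
  by_cases hp : Per (2 * M + 1) x' ∨ Per (2 * M + 1) y
  · exact ((h2 _ _ _ hp).mono (by omega) ((le_max_left _ _).trans (le_max_left _ _))).shrK _
  rw [not_or] at hp
  obtain ⟨sx, sy, u, v, h1, h3, rfl, rfl, hv⟩ := rd hxy' hp.1 hp.2 hx' hU hV hne h'
  rw [hF] at h1 h3
  rcases hv with rfl | ⟨j, hj, px, py, hvu⟩
  · have h4 := h2 (M * (2 * F + 1)) u []
      (Or.inr (per_of_length_le (Nat.mul_pos hM (by omega)) (Nat.zero_le _)))
    exact ((shr_subst hF1 h1 h3 h4).mono le_rfl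
      ((le_max_right _ _).trans (le_max_left _ _))).shrK _
  · have hl : ∀ W : FW S, W.length ≤ M → (subst sx sy W).length ≤ M * (2 * F + 1) := fun W hW =>
      (length_subst_le hF1 h1 h3 W).trans (Nat.mul_le_mul hW (by omega))
    have h4 := hC u v (subst sx sy U) (subst sx sy V) hvu (hl U hU) (hl V hV)
      (by rw [proj_subst_smor px py, proj_subst_smor px py]; exact inA_smor hj hA)
      (by rw [proj_subst_smor px py, proj_subst_smor px py]; exact fun e => hne (smor_inj hj e))
      (by rw [ev_subst, ev_subst]; exact h')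
    exact (shrK_subst_smor hj hF1 h1 h3 px py h4).mono le_rfl (le_max_right _ _)

theorem call (S : Type) : ∃ B : ℕ → ℕ → ℕ, Primrec₂ B ∧ ∀ k M, CSt S k M (B k M) := by
  obtain ⟨B2, hB2, h2⟩ := t2 S
  obtain ⟨BQ, hBQ, hQ⟩ := qt hB2 h2
  obtain ⟨B0, hB0, h0⟩ := c0 hB2 h2 hBQ hQ
  obtain ⟨G, F, H, hG, hF, hH, hs⟩ := cstep hB2 h2
  obtain ⟨I, hI, hI'⟩ : ∃ I : ℕ × ℕ → ℕ, Primrec I ∧ ∀ n M, I (n, M) = G^[n] M :=
    ⟨fun p => G^[p.1] p.2, Primrec.nat_iterate (h := fun _ => G) Primrec.fst Primrec.snd
      (hG.comp Primrec.snd), fun _ _ => rfl⟩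
  refine ⟨fun k M => (Nat.rec (motive := fun _ => ℕ) (B0 (I (k, M)))
    (fun i r => max (H (I (k - (i + 1), M))) (F (I (k - (i + 1), M)) * (r + 1))) k : ℕ), ?_, ?_⟩
  · unfold Primrec₂
    fun_prop
  · intro k M
    have key : ∀ i, i ≤ k → CSt S i (I (k - i, M)) (Nat.rec (motive := fun _ => ℕ) (B0 (I (k, M)))
        (fun i r => max (H (I (k - (i + 1), M))) (F (I (k - (i + 1), M)) * (r + 1))) i : ℕ) := by
      intro i hi
      induction i with
      | zero => exact h0 _
      | succ i ih =>
        refine hs i _ _ ?_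
        have h1 := ih (by omega)
        rwa [show k - i = k - (i + 1) + 1 by omega, hI', Function.iterate_succ_apply', ← hI'] at h1
    have h1 := key k le_rfl
    rwa [Nat.sub_self, hI', Function.iterate_zero_apply] at h1

theorem free {N : ℕ} {x y : List S} (hx : ¬ Per (N + 1) x) (hy : ¬ Per (N + 1) y)
    (hfree : ∀ U V : FW S, U.length ≤ N → V.length ≤ N → proj U ≠ proj V →
      ev x y U ≠ ev x y V) : Shr N (2 ^ (2 * N + 1) * (N + 3)) x y := by
  obtain ⟨a, b, hab⟩ := exists_ne_of_not_per (by omega) hx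
  have lx := lt_length_of_not_per (by omega) hx
  have ly := lt_length_of_not_per (by omega) hy
  obtain ⟨m, n, -, -, -, -, hB, hs⟩ := ilp (2 * N) (N + 2) 1 le_rfl x.length y.length
  have hc : |(-((N : ℤ) + 2))| ≤ (N + 2 : ℕ) := by
    rw [abs_neg, abs_of_nonneg (by positivity)]
    push_cast
    exact le_rfl
  have hm := (hs 1 0 (-(N + 2)) (Or.inl (by simp)) hc).1 (by omega)
  have hn := (hs 0 1 (-(N + 2)) (Or.inl (by simp)) hc).1 (by omega)
  obtain ⟨m, rfl⟩ : ∃ m', m = m' + 1 := ⟨m - 1, by omega⟩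
  obtain ⟨n, rfl⟩ : ∃ n', n = n' + 1 := ⟨n - 1, by omega⟩
  have hx' : ¬ Per N (List.replicate m a ++ [b]) := fun h =>
    not_per_marker hab m 0 (h.mono (by omega))
  have hy' : ¬ Per N (List.replicate n b ++ [a]) := fun h =>
    not_per_marker hab.symm n 0 (h.mono (by omega))
  have hx0 : ¬ Per N x := fun h => hx (h.mono (by omega))
  have hy0 : ¬ Per N y := fun h => hy (h.mono (by omega))
  refine ⟨List.replicate m a ++ [b], List.replicate n b ++ [a],
    ⟨fun U V hU hV => ?_, fun p q c hp hq hc => ?_⟩, ?_, ?_⟩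
  · by_cases hp : proj U = proj V
    · exact ⟨fun h => by rw [same_proj hx0 hy0 hU hV hp h],
        fun h => by rw [same_proj hx' hy' hU hV hp h]⟩
    · refine ⟨fun h => absurd h (hfree U V hU hV hp), fun h => ?_⟩
      obtain ⟨g, g', U1, V1, h1, h2, -, -, h3⟩ := firstdiff hx' hy' hU hV hp h
      have h4 := congrArg (fun l => l[max g.length g'.length]?) h3
      simp only [List.append_assoc] at h4
      rw [main_letter (by omega) (by omega), main_letter (by omega) (by omega)] at h4
      exact absurd (Option.some.inj h4) hab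
  · have := hs p q c (Or.inr (by push_cast; omega)) (by push_cast; omega)
    simpa [Lin] using this
  · simp only [List.length_append, List.length_replicate, List.length_singleton]
    exact le_trans (by omega) hB
  · simp only [List.length_append, List.length_replicate, List.length_singleton]
    exact le_trans (by omega) hB

theorem small (S : Type) : ∃ B : ℕ → ℕ, Primrec B ∧ ∀ (N : ℕ) (x y : List S), Shr N (B N) x y := by
  obtain ⟨B2, hB2, h2⟩ := t2 S
  obtain ⟨BC, hBC, hC⟩ := call S
  have hBC' : Primrec fun N => BC (4 * N + 1) N := hBC.comp (by fun_prop) Primrec.id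
  refine ⟨fun N => max (B2 (N + 1)) (max (BC (4 * N + 1) N) (2 ^ (2 * N + 1) * (N + 3))),
    pr_max (by fun_prop) (pr_max hBC' (by fun_prop)), fun N x y => ?_⟩
  by_cases hp : Per (N + 1) x ∨ Per (N + 1) y
  · exact (h2 _ _ _ hp).mono (by omega) (le_max_left _ _)
  rw [not_or] at hp
  by_cases hf : ∀ U V : FW S, U.length ≤ N → V.length ≤ N → proj U ≠ proj V →
      ev x y U ≠ ev x y V
  · exact (free hp.1 hp.2 hf).mono le_rfl ((le_max_right _ _).trans (le_max_right _ _))
  push Not at hf
  obtain ⟨U, V, hU, hV, hne, h⟩ := hf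
  have key : ∀ (x y : List S) (U V : FW S), y.length ≤ x.length → U.length ≤ N → V.length ≤ N →
      proj U ≠ proj V → ev x y U = ev x y V → Shr N (BC (4 * N + 1) N) x y :=
    fun x y U V hxy hU hV hne h => main_shr (hC _ _ x y U V hxy hU hV
      (inA_init ((length_proj_le U).trans hU) ((length_proj_le V).trans hV)) hne h)
  refine Shr.mono ?_ le_rfl ((le_max_left _ _).trans (le_max_right _ _))
  rcases le_total y.length x.length with hxy | hxy
  · exact key x y U V hxy hU hV hne h
  · refine (key y x (U.map (Sum.map id not)) (V.map (Sum.map id not)) hxy (by simpa) (by simpa)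
      ?_ (by rwa [ev_swap, ev_swap])).swap
    rw [main_proj_swap, main_proj_swap]
    exact fun e => hne (List.map_injective_iff.2 Bool.involutive_not.injective e)

end Pool.Agent.WEq
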