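import Pool.Agent.P.MP_a11166_lc.Form
import Pool.Agent.P.MP_a11166_lc.Main

/-! The decision procedure: search all pairs of words up to the bound of the small model theorem. -/

set_option autoImplicit false

namespace Pool.Agent.WEq

open Pool.Agent.Lib.Comp

variable {S : Type}

section prim
variable {α β γ σ : Type} [Primcodable α] [Primcodable β] [Primcodable γ] [Primcodable σ]

@[fun_prop] theorem pr_sumElim {f : α → β ⊕ γ} {g : α → β → σ} {h : α → γ → σ} (hf : Primrec f)
    (hg : Primrec fun p : α × β => g p.1 p.2) (hh : Primrec fun p : α × γ => h p.1 p.2) :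
    Primrec fun a => Sum.elim (g a) (h a) (f a) :=
  (Primrec.sumCasesOn hf hg.to₂ hh.to₂).of_eq fun a => by cases f a <;> rfl

@[fun_prop] theorem pr_flatMap {f : α → List β} {g : α → β → List σ} (hf : Primrec f)
    (hg : Primrec fun p : α × β => g p.1 p.2) : Primrec fun a => (f a).flatMap (g a) :=
  Primrec.list_flatMap hf hg.to₂

end prim

/-- The assignment sending `z0` to `u` and all other variables to `v`. -/
def asg (z0 : ℕ) (u v : List S) (z : ℕ) : List S := cond (eqb z z0) u v

/-- Sum of a list of numbers. -/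
def lsum (l : List ℕ) : ℕ := l.foldr (fun a b => a + b) 0

theorem lsum_eq (l : List ℕ) : lsum l = l.sum := by
  induction l with
  | nil => rfl
  | cons a l ih => simp [lsum] at ih ⊢; rw [ih]

/-- Comparison of two numbers according to a code. -/
def cmpB (r a b : ℕ) : Bool := cond (eqb r 0) (eqb a b) (cond (eqb r 1) (leb a b) (ltb a b))

/-- One step of the stack machine. -/
def step [DecidableEq S] (z0 : ℕ) (u v : List S) (st : List Bool) (t : Tok S) : List Bool :=
  Sum.elim
    (fun e => eqb (e.1.flatMap (Sum.elim (fun a => [a]) (asg z0 u v)))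
      (e.2.flatMap (Sum.elim (fun a => [a]) (asg z0 u v))) :: st)
    (Sum.elim
      (fun e => cmpB e.2.1
        (lsum (e.1.map fun p => p.1.1 * (asg z0 u v p.2).length) + e.2.2.2)
        (lsum (e.1.map fun p => p.1.2 * (asg z0 u v p.2).length) + e.2.2.1) :: st)
      (fun k => cond (eqb k 0) ((st.getD 1 false && st.getD 0 false) :: st.drop 2)
        (cond (eqb k 1) ((st.getD 1 false || st.getD 0 false) :: st.drop 2)
          ((!st.getD 0 false) :: st.drop 1)))) t

theorem sum_icode (h : ℕ → List S) (cs : List (ℤ × ℕ)) :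
    (cs.map fun p => p.1 * ((h p.2).length : ℤ)).sum =
      (lsum ((cs.map fun p => (icode p.1, p.2)).map fun p => p.1.1 * (h p.2).length) : ℤ) -
      (lsum ((cs.map fun p => (icode p.1, p.2)).map fun p => p.1.2 * (h p.2).length) : ℤ) := by
  rw [lsum_eq, lsum_eq]
  induction cs with
  | nil => simp
  | cons p cs ih =>
    simp only [List.map_cons, List.sum_cons, Nat.cast_add, Nat.cast_mul, ih, icode]
    have : p.1 = (p.1.toNat : ℤ) - ((-p.1).toNat : ℤ) := (Int.toNat_sub_toNat_neg _).symm
    linear_combination ((h p.2).length : ℤ) * this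

theorem foldl_code [DecidableEq S] (z0 : ℕ) (u v : List S) (φ : Fml S) (st : List Bool) :
    ∃ b : Bool, φ.code.foldl (step z0 u v) st = b :: st ∧ (b = true ↔ φ.Holds (asg z0 u v)) := by
  induction φ generalizing st with
  | weq U V => exact ⟨_, rfl, by simp [Fml.Holds, val]⟩
  | len cs r c =>
    refine ⟨_, rfl, ?_⟩
    simp only [Fml.Holds]
    rw [sum_icode]
    have : c = (c.toNat : ℤ) - ((-c).toNat : ℤ) := (Int.toNat_sub_toNat_neg _).symm
    generalize lsum ((cs.map fun p => (icode p.1, p.2)).map
      fun p => p.1.1 * (asg z0 u v p.2).length) = A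
    generalize lsum ((cs.map fun p => (icode p.1, p.2)).map
      fun p => p.1.2 * (asg z0 u v p.2).length) = B
    cases r <;> simp [cmpB, Cmp.code, Cmp.Rel, icode, eqb] <;> omega
  | and φ ψ ih1 ih2 =>
    obtain ⟨b1, e1, h1⟩ := ih1 st
    obtain ⟨b2, e2, h2⟩ := ih2 (b1 :: st)
    refine ⟨b1 && b2, ?_, by simp [Fml.Holds, h1, h2]⟩
    simp only [Fml.code, List.foldl_append, e1, e2]
    simp [step, eqb]
  | or φ ψ ih1 ih2 =>
    obtain ⟨b1, e1, h1⟩ := ih1 st
    obtain ⟨b2, e2, h2⟩ := ih2 (b1 :: st)
    refine ⟨b1 || b2, ?_, by simp [Fml.Holds, h1, h2]⟩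
    simp only [Fml.code, List.foldl_append, e1, e2]
    simp [step, eqb]
  | not φ ih =>
    obtain ⟨b1, e1, h1⟩ := ih st
    refine ⟨!b1, ?_, by simp [Fml.Holds, ← h1]⟩
    simp only [Fml.code, List.foldl_append, e1]
    simp [step, eqb]

/-- The variables of a token. -/
def tvars (t : Tok S) : List ℕ :=
  Sum.elim (fun e => (e.1 ++ e.2).flatMap (Sum.elim (fun _ => []) (fun z => [z])))
    (Sum.elim (fun e => e.1.map fun p => p.2) (fun _ => [])) t

theorem mem_vars (φ : Fml S) (z : ℕ) : z ∈ φ.vars ↔ z ∈ φ.code.flatMap tvars := by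
  induction φ with
  | weq U V =>
    simp only [Fml.vars, Fml.code, List.mem_toFinset, List.mem_filterMap, List.flatMap_cons,
      List.flatMap_nil, List.append_nil, tvars, Sum.elim_inl, List.mem_flatMap]
    refine exists_congr fun c => and_congr_right fun _ => ?_
    rcases c with a | w <;> simp [eq_comm]
  | len cs r c => simp [Fml.vars, Fml.code, tvars]
  | and φ ψ ih1 ih2 => simp [Fml.vars, Fml.code, tvars, ih1, ih2]
  | or φ ψ ih1 ih2 => simp [Fml.vars, Fml.code, tvars, ih1, ih2]
  | not φ ih => simp [Fml.vars, Fml.code, tvars, ih]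

/-- The size of a token. -/
def tsize (t : Tok S) : ℕ :=
  Sum.elim (fun e => e.1.length + e.2.length)
    (Sum.elim (fun e => lsum (e.1.map fun p => p.1.1 + p.1.2) + e.2.2.1 + e.2.2.2) (fun _ => 0)) t

theorem holds_congr {h h' : ℕ → List S} (φ : Fml S) (hh : ∀ z ∈ φ.vars, h z = h' z) :
    φ.Holds h ↔ φ.Holds h' := by
  induction φ with
  | weq U V =>
    have key : ∀ W : List (S ⊕ ℕ), (∀ z, Sum.inr z ∈ W → h z = h' z) → val h W = val h' W := by
      intro W hW
      refine List.flatMap_congr fun c hc => ?_
      rcases c with a | z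
      · rfl
      · exact hW z hc
    simp only [Fml.Holds]
    rw [key U fun z hz => hh z (by
        simp only [Fml.vars, List.mem_toFinset, List.mem_filterMap]
        exact ⟨_, List.mem_append_left _ hz, rfl⟩),
      key V fun z hz => hh z (by
        simp only [Fml.vars, List.mem_toFinset, List.mem_filterMap]
        exact ⟨_, List.mem_append_right _ hz, rfl⟩)]
  | len cs r c =>
    simp only [Fml.Holds]
    rw [List.map_congr_left fun p hp => by
      rw [hh p.2 (by simp only [Fml.vars, List.mem_toFinset]; exact List.mem_map_of_mem hp)]]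
  | and φ ψ ih1 ih2 =>
    exact and_congr (ih1 fun z hz => hh z (Finset.mem_union_left _ hz))
      (ih2 fun z hz => hh z (Finset.mem_union_right _ hz))
  | or φ ψ ih1 ih2 =>
    exact or_congr (ih1 fun z hz => hh z (Finset.mem_union_left _ hz))
      (ih2 fun z hz => hh z (Finset.mem_union_right _ hz))
  | not φ ih => exact not_congr (ih hh)

theorem val_asg (z0 : ℕ) (u v : List S) (U : List (S ⊕ ℕ)) :
    val (asg z0 u v) U = ev u v (U.map (Sum.map id fun z => !eqb z z0)) := by
  induction U with
  | nil => rfl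
  | cons c U ih =>
    rcases c with a | z
    · simpa [val] using ih
    · simp only [val, List.flatMap_cons, Sum.elim_inr, List.map_cons, Sum.map_inr, ev_inr] at ih ⊢
      rw [ih, asg]
      cases eqb z z0 <;> rfl

theorem sum_asg (z0 : ℕ) (cs : List (ℤ × ℕ)) :
    ∃ a b : ℤ, |a| + |b| ≤
        (lsum ((cs.map fun p => (icode p.1, p.2)).map fun p => p.1.1 + p.1.2) : ℤ) ∧
      ∀ u v : List S, (cs.map fun p => p.1 * ((asg z0 u v p.2).length : ℤ)).sum =
        a * u.length + b * v.length := by
  rw [lsum_eq]
  induction cs with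
  | nil => exact ⟨0, 0, by simp, by simp⟩
  | cons p cs ih =>
    obtain ⟨a, b, h1, h2⟩ := ih
    have hp : |p.1| = (p.1.toNat : ℤ) + ((-p.1).toNat : ℤ) := by
      rcases abs_cases p.1 with h | h <;> omega
    cases hz : eqb p.2 z0
    · refine ⟨a, b + p.1, ?_, fun u v => ?_⟩
      · have := abs_add_le b p.1
        simp only [List.map_cons, List.sum_cons, Nat.cast_add, icode] at h1 ⊢
        omega
      · simp only [List.map_cons, List.sum_cons, h2]
        simp only [asg, hz, cond_false]; ring
    · refine ⟨a + p.1, b, ?_, fun u v => ?_⟩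
      · have := abs_add_le a p.1
        simp only [List.map_cons, List.sum_cons, Nat.cast_add, icode] at h1 ⊢
        omega
      · simp only [List.map_cons, List.sum_cons, h2]
        simp only [asg, hz, cond_true]; ring

theorem holds_eqv {N : ℕ} {x y x' y' : List S} (h : Eqv N x y x' y') (z0 : ℕ) (φ : Fml S)
    (hN : ∀ t ∈ φ.code, tsize t ≤ N) : φ.Holds (asg z0 x y) ↔ φ.Holds (asg z0 x' y') := by
  induction φ with
  | weq U V =>
    have := hN _ (List.mem_singleton_self _)
    simp only [tsize, Sum.elim_inl] at this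
    simp only [Fml.Holds, val_asg]
    exact h.1 _ _ (by simp; omega) (by simp; omega)
  | len cs r c =>
    have h0 := hN _ (List.mem_singleton_self _)
    simp only [tsize, Sum.elim_inr, Sum.elim_inl, icode] at h0
    obtain ⟨a, b, h1, h2⟩ := sum_asg (S := S) z0 cs
    simp only [icode] at h1
    have hc : |c| = (c.toNat : ℤ) + ((-c).toNat : ℤ) := by
      rcases abs_cases c with h | h <;> omega
    have ha := abs_nonneg a
    have hb := abs_nonneg b
    have e1 := h.2 a b (-c) (by omega) (by omega) (by rw [abs_neg]; omega)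
    have e2 := h.2 (-a) (-b) c (by rw [abs_neg]; omega) (by rw [abs_neg]; omega) (by omega)
    simp only [Lin, neg_mul] at e1 e2
    simp only [Fml.Holds, h2]
    cases r <;> simp only [Cmp.Rel] <;> omega
  | and φ ψ ih1 ih2 =>
    exact and_congr (ih1 fun t ht => hN t (by simp [Fml.code, ht]))
      (ih2 fun t ht => hN t (by simp [Fml.code, ht]))
  | or φ ψ ih1 ih2 =>
    exact or_congr (ih1 fun t ht => hN t (by simp [Fml.code, ht]))
      (ih2 fun t ht => hN t (by simp [Fml.code, ht]))
  | not φ ih => exact not_congr (ih fun t ht => hN t (by simp [Fml.code, ht]))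

/-- All words of length at most `n` over the letters `L`. -/
def words (L : List S) (n : ℕ) : List (List S) :=
  Nat.rec [[]] (fun _ W => [] :: W.flatMap fun w => L.map fun a => a :: w) n

theorem mem_words {L : List S} (hL : ∀ a, a ∈ L) {n : ℕ} {w : List S} (h : w.length ≤ n) :
    w ∈ words L n := by
  induction n generalizing w with
  | zero => simp [words, List.length_eq_zero_iff.1 (Nat.le_zero.1 h)]
  | succ n ih =>
    cases w with
    | nil => exact List.mem_cons_self
    | cons a w =>
      refine List.mem_cons_of_mem _ (List.mem_flatMap.2 ⟨w, ih (by simpa using h), ?_⟩)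
      exact List.mem_map.2 ⟨a, hL a, rfl⟩

theorem exists_asg (φ : Fml S) (hφ : φ.vars.card ≤ 2) (h : ℕ → List S) :
    ∃ x y : List S, ∀ z ∈ φ.vars, h z = asg ((φ.code.flatMap tvars).getD 0 0) x y z := by
  set z0 := (φ.code.flatMap tvars).getD 0 0 with hz0
  by_cases hz : ∃ z1 ∈ φ.vars, z1 ≠ z0
  · obtain ⟨z1, h1, h2⟩ := hz
    have h0 : z0 ∈ φ.vars := by
      rw [mem_vars] at h1 ⊢
      rw [hz0]
      cases hl : φ.code.flatMap tvars with
      | nil => rw [hl] at h1; simp at h1
      | cons a l => simp
    refine ⟨h z0, h z1, fun z hz => ?_⟩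
    by_cases e : z = z0
    · simp [asg, eqb, e]
    · have : z = z1 := by
        by_contra e'
        have : ({z0, z1, z} : Finset ℕ) ⊆ φ.vars := by
          intro w hw
          simp only [Finset.mem_insert, Finset.mem_singleton] at hw
          rcases hw with rfl | rfl | rfl <;> assumption
        have hc := Finset.card_le_card this
        rw [Finset.card_eq_three.2 ⟨z0, z1, z, h2.symm, Ne.symm e, Ne.symm e', rfl⟩] at hc
        omega
      simp [asg, eqb, this, h2]
  · push Not at hz
    exact ⟨h z0, [], fun z hz' => by simp [asg, eqb, hz z hz']⟩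

theorem le_lsum {l : List ℕ} {a : ℕ} (h : a ∈ l) : a ≤ lsum l := by
  rw [lsum_eq]; exact List.single_le_sum (fun _ _ => Nat.zero_le _) a h

theorem decide_two (S : Type) [Fintype S] [Primcodable S] :
    ∃ f : List (Tok S) → Bool, Computable f ∧
      ∀ φ : Fml S, φ.vars.card ≤ 2 → (f φ.code = true ↔ ∃ h : ℕ → List S, φ.Holds h) := by
  classical
  obtain ⟨B, hB, hS⟩ := small S
  set L := (Finset.univ : Finset S).toList with hL
  refine ⟨fun t => (words L (B (lsum (t.map tsize)))).any fun u =>
    (words L (B (lsum (t.map tsize)))).any fun v =>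
      (t.foldl (step ((t.flatMap tvars).getD 0 0) u v) []).getD 0 false, ?_, fun φ hφ => ?_⟩
  · apply Primrec.to_comp
    unfold words step tvars tsize lsum cmpB asg
    fun_prop
  · simp only [List.any_eq_true]
    constructor
    · rintro ⟨u, -, v, -, h⟩
      obtain ⟨b, e, hb⟩ := foldl_code ((φ.code.flatMap tvars).getD 0 0) u v φ []
      rw [e] at h
      exact ⟨_, hb.1 (by simpa using h)⟩
    · rintro ⟨h, hh⟩
      obtain ⟨x, y, hxy⟩ := exists_asg φ hφ h
      obtain ⟨x', y', e, h1, h2⟩ := hS (lsum (φ.code.map tsize)) x y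
      have hm : ∀ a, a ∈ L := fun a => by simp [hL]
      refine ⟨x', mem_words hm h1, y', mem_words hm h2, ?_⟩
      obtain ⟨b, e', hb⟩ := foldl_code ((φ.code.flatMap tvars).getD 0 0) x' y' φ []
      rw [e']
      have := (holds_eqv e _ φ fun t ht => le_lsum (List.mem_map_of_mem ht)).1
        ((holds_congr φ hxy).1 hh)
      simpa using hb.2 this

end Pool.Agent.WEq
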