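import Mathlib
import Pool.Agent.Lib.Comp.PrimFun

/-! Word equations in two variables with length constraints: definitions for the small model
theorem. The variable `false` is called `x`, the variable `true` is called `y`. -/

set_option autoImplicit false

namespace Pool.Agent.WEq

variable {S : Type}

/-- Formal words in letters and the two variables. -/
abbrev FW (S : Type) := List (S ⊕ Bool)

/-- The value of a formal word at the pair `(x, y)`. -/
def ev (x y : List S) (U : FW S) : List S :=
  U.flatMap (Sum.elim (fun a => [a]) (fun b => cond b y x))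

/-- Substitution of formal words for the variables. -/
def subst (sx sy : FW S) (U : FW S) : FW S :=
  U.flatMap (Sum.elim (fun a => [Sum.inl a]) (fun b => cond b sy sx))

/-- The sequence of variables of a formal word. -/
def proj (U : FW S) : List Bool := U.filterMap Sum.getRight?

/-- A constant word as a formal word. -/
def cst (a : List S) : FW S := a.map Sum.inl

/-- Only the variable `x` occurs. -/
def OnlyX (U : FW S) : Prop := ∀ b ∈ proj U, b = false

/-- The linear length condition `0 ≤ a |x| + b |y| + c`. -/
def Lin (a b c : ℤ) (x y : List S) : Prop := 0 ≤ a * (x.length : ℤ) + b * (y.length : ℤ) + c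

/-- Two pairs satisfy the same equations and length conditions of size at most `M`. -/
def Eqv (M : ℕ) (x y x' y' : List S) : Prop :=
  (∀ U V : FW S, U.length ≤ M → V.length ≤ M →
    (ev x y U = ev x y V ↔ ev x' y' U = ev x' y' V)) ∧
  ∀ a b c : ℤ, |a| ≤ M → |b| ≤ M → |c| ≤ M → (Lin a b c x y ↔ Lin a b c x' y')

/-- The pair is equivalent at level `M` to a pair of words of length at most `B`. -/
def Shr (M B : ℕ) (x y : List S) : Prop :=
  ∃ x' y', Eqv M x y x' y' ∧ x'.length ≤ B ∧ y'.length ≤ B

/-- The word has a period between `1` and `M`. -/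
def Per (M : ℕ) (w : List S) : Prop := ∃ p, 1 ≤ p ∧ p ≤ M ∧ w.HasPeriod p

/-- Difference of the numbers of occurrences of a variable. -/
def dc (b : Bool) (p q : List Bool) : ℤ := (p.count b : ℤ) - (q.count b : ℤ)

/-- Vectors that have no mixed signs or have norm at most `k`. -/
def Fm (k : ℕ) (a b : ℤ) : Prop := 0 ≤ a * b ∨ |a| + |b| ≤ k

/-- Vectors that have no mixed signs, or are `±(1, -1)`, or have potential at most `k`. -/
def Ok (k : ℕ) (a b : ℤ) : Prop :=
  0 ≤ a * b ∨ (|a| = 1 ∧ |b| = 1) ∨ 2 * (|a| + |b|) + (if |a| = 1 then 1 else 0) ≤ k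

/-- All differences of initial segments are `Ok`, the total difference is `Fm`. -/
def InA (k : ℕ) (p q : List Bool) : Prop :=
  (∀ p' q', p' <+: p → q' <+: q → Ok k (dc false p' q') (dc true p' q')) ∧
  Fm k (dc false p q) (dc true p q)

/-- The standard morphism `x ↦ x ^ j y`, `y ↦ x`. -/
def smor (j : ℕ) (p : List Bool) : List Bool :=
  p.flatMap (fun b => cond b [false] (List.replicate j false ++ [true]))

/-- Words that agree up to swaps of disjoint pairs of neighbours. -/
inductive BD : List Bool → List Bool → Prop
  | nil : BD [] []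
  | same (b : Bool) {p q : List Bool} : BD p q → BD (b :: p) (b :: q)
  | swap (b : Bool) {p q : List Bool} : BD p q → BD (b :: (!b) :: p) ((!b) :: b :: q)

/-- Equivalence restricted to the equations and length conditions of stage `k`. -/
def EqvK (k M : ℕ) (x y x' y' : List S) : Prop :=
  (∀ U V : FW S, U.length ≤ M → V.length ≤ M → InA k (proj U) (proj V) →
    (ev x y U = ev x y V ↔ ev x' y' U = ev x' y' V)) ∧
  ∀ a b c : ℤ, |a| ≤ M → |b| ≤ M → |c| ≤ M → Fm k a b → (Lin a b c x y ↔ Lin a b c x' y')

/-- Shrinking for the restricted equivalence. -/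
def ShrK (k M B : ℕ) (x y : List S) : Prop :=
  ∃ x' y', EqvK k M x y x' y' ∧ x'.length ≤ B ∧ y'.length ≤ B

/-- Generic solutions of `u A v = v B u`. -/
def Gen (M : ℕ) (A B u v : List S) : Prop :=
  u ++ A ++ v = v ++ B ++ u ∧
  ((∃ u1, u = v ++ B ++ u1 ∧ ¬ Per M u1 ∧ ¬ Per M v) ∨
   (∃ v1, v = u ++ A ++ v1 ∧ ¬ Per M u ∧ ¬ Per M v1))

/-- The initial segment of length `m` of a sequence. -/
def wd (f : ℕ → S) (m : ℕ) : List S := (List.range m).map f

/-- The statement of the periodic case with bound function `B`. -/
def T2St (S : Type) (B : ℕ → ℕ) : Prop :=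
  ∀ (M : ℕ) (x y : List S), Per M x ∨ Per M y → Shr M (B M) x y

/-- The statement for solutions of `u A v = v B u` with bound function `B`. -/
def QSt (S : Type) (B : ℕ → ℕ) : Prop :=
  ∀ (M : ℕ) (A C u v : List S), 1 ≤ M → A.length ≤ M → C.length ≤ M →
    u ++ A ++ v = v ++ C ++ u → ShrK 0 M (B M) u v

/-- The statement of stage `k` at level `M` with bound `B`. -/
def CSt (S : Type) (k M B : ℕ) : Prop :=
  ∀ (x y : List S) (U V : FW S), y.length ≤ x.length → U.length ≤ M → V.length ≤ M →
    InA k (proj U) (proj V) → proj U ≠ proj V → ev x y U = ev x y V → ShrK k M B x y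

end Pool.Agent.WEq
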