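import Pool.Agent.P.MP_a11166_lc.Basic

/-! Row FD. Cancellation for words without small periods.
`strip`: induction on `r`. With `exists_of_proj_cons`, `a ++ z ++ R = b ++ z ++ R'` where `z` is
`x` or `y` (`ev_inr`); if `a` is shorter then `b = a ++ g`, `g ≠ []`, `z <+: g ++ z`
(`pre_of_pre_append`), so `Per M z` (`per_of_pre`), a contradiction; hence `a = b`.
`same_proj`: `strip` with `p = q = []`, `exists_cst_of_proj_nil`.
`firstdiff`: write `proj U = r ++ p`, `proj V = r ++ q` with `p`, `q` not starting with the same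
letter (longest common initial segment), `strip`; if `p = []` or `q = []` the lengths give a
contradiction with `lt_length_of_not_per` (note `1 ≤ M` because `U` or `V` is not empty);
otherwise swap the sides if necessary.
`firstswap`: `BD p q` and `p ≠ q` give `p = r ++ b :: (!b) :: p'`, `q = r ++ (!b) :: b :: q'`
(induction on `BD`); `strip`, `exists_of_proj_cons` twice on each side.
-/

set_option autoImplicit false

namespace Pool.Agent.WEq

open Pool.Agent.Lib.Comp

variable {S : Type}

theorem fd_cancel {M : ℕ} {z a b R R' : List S} (hz : ¬ Per M z) (ha : a.length ≤ M)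
    (hb : b.length ≤ M) (h : a ++ (z ++ R) = b ++ (z ++ R')) : a = b := by
  have key : ∀ {a b R R' : List S}, b.length ≤ M → a ++ (z ++ R) = b ++ (z ++ R') →
      a.length ≤ b.length → a = b := by
    intro a b R R' hb h hl
    obtain ⟨g, rfl⟩ : a <+: b :=
      List.prefix_of_prefix_length_le ⟨_, h⟩ (List.prefix_append _ _) hl
    rw [List.append_assoc, List.append_cancel_left_eq] at h
    by_contra hne
    refine hz (per_of_pre (pre_of_pre_append (r := R') ⟨R, ?_⟩) (g := g) ?_ ?_)
    · rw [h, List.append_assoc]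
    · rintro rfl
      exact hne (List.append_nil a).symm
    · rw [List.length_append] at hb
      omega
  rcases le_total a.length b.length with hl | hl
  · exact key hb h hl
  · exact (key ha h.symm hl).symm

theorem strip {M : ℕ} {x y : List S} (hx : ¬ Per M x) (hy : ¬ Per M y) {r p q : List Bool}
    {U V : FW S} (hU : U.length ≤ M) (hV : V.length ≤ M) (pU : proj U = r ++ p)
    (pV : proj V = r ++ q) (h : ev x y U = ev x y V) :
    ∃ W U' V' : FW S, U = W ++ U' ∧ V = W ++ V' ∧ proj U' = p ∧ proj V' = q ∧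
      ev x y U' = ev x y V' := by
  induction r generalizing U V with
  | nil => exact ⟨[], U, V, rfl, rfl, pU, pV, h⟩
  | cons c r ih =>
    obtain ⟨a, U1, rfl, e1⟩ := exists_of_proj_cons pU
    obtain ⟨b, V1, rfl, e2⟩ := exists_of_proj_cons pV
    simp only [List.length_append, length_cst, List.length_cons] at hU hV
    simp only [ev_append, ev_cst, ev_inr] at h
    have hz : ¬ Per M (cond c y x) := by cases c <;> assumption
    obtain rfl := fd_cancel hz (by omega) (by omega) h
    obtain ⟨W, U', V', rfl, rfl, h3⟩ := ih (by omega) (by omega) e1 e2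
      (List.append_cancel_left (List.append_cancel_left h))
    exact ⟨cst a ++ Sum.inr c :: W, U', V', by simp, by simp, h3⟩

theorem same_proj {M : ℕ} {x y : List S} (hx : ¬ Per M x) (hy : ¬ Per M y) {U V : FW S}
    (hU : U.length ≤ M) (hV : V.length ≤ M) (hp : proj U = proj V) (h : ev x y U = ev x y V) :
    U = V := by
  obtain ⟨W, U', V', rfl, rfl, h1, h2, h3⟩ := strip hx hy (r := proj V) (p := []) (q := []) hU hV
    (by simpa using hp) (by simp) h
  obtain ⟨a, rfl⟩ := exists_cst_of_proj_nil h1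
  obtain ⟨b, rfl⟩ := exists_cst_of_proj_nil h2
  rw [ev_cst, ev_cst] at h3
  rw [h3]

theorem fd_split {P Q : List Bool} (h : P ≠ Q) : ∃ r p q, P = r ++ p ∧ Q = r ++ q ∧
    ((p = [] ∧ ∃ c q', q = c :: q') ∨ (q = [] ∧ ∃ c p', p = c :: p') ∨
      (∃ p' q', p = false :: p' ∧ q = true :: q') ∨ ∃ p' q', p = true :: p' ∧ q = false :: q') := by
  induction P generalizing Q with
  | nil =>
    cases Q with
    | nil => exact (h rfl).elim
    | cons c Q => exact ⟨[], [], c :: Q, rfl, rfl, Or.inl ⟨rfl, c, Q, rfl⟩⟩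
  | cons c P ih =>
    cases Q with
    | nil => exact ⟨[], c :: P, [], rfl, rfl, Or.inr (Or.inl ⟨rfl, c, P, rfl⟩)⟩
    | cons d Q =>
      by_cases e : c = d
      · subst e
        obtain ⟨r, p, q, rfl, rfl, h'⟩ := ih (Q := Q) fun e => h (by rw [e])
        exact ⟨c :: r, p, q, rfl, rfl, h'⟩
      · refine ⟨[], c :: P, d :: Q, rfl, rfl, Or.inr (Or.inr ?_)⟩
        cases c <;> cases d
        · exact (e rfl).elim
        · exact Or.inl ⟨P, Q, rfl, rfl⟩
        · exact Or.inr ⟨P, Q, rfl, rfl⟩
        · exact (e rfl).elim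

theorem fd_short {M : ℕ} {x y : List S} (hx : ¬ Per M x) (hy : ¬ Per M y) {U V : FW S}
    (hU : U.length ≤ M) (hV : V.length ≤ M) {c : Bool} {q : List Bool} (pU : proj U = [])
    (pV : proj V = c :: q) : ev x y U ≠ ev x y V := by
  obtain ⟨a, rfl⟩ := exists_cst_of_proj_nil pU
  obtain ⟨b, V1, rfl, -⟩ := exists_of_proj_cons pV
  simp only [List.length_append, length_cst, List.length_cons] at hU hV
  have hz : ¬ Per M (cond c y x) := by cases c <;> assumption
  have := lt_length_of_not_per (by omega) hz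
  intro h
  have h' := congrArg List.length h
  simp only [ev_append, ev_cst, ev_inr, List.length_append] at h'
  omega

theorem fd_diff {M : ℕ} {x y : List S} {U V : FW S} (hU : U.length ≤ M) (hV : V.length ≤ M)
    {p q : List Bool} (pU : proj U = false :: p) (pV : proj V = true :: q)
    (h : ev x y U = ev x y V) :
    ∃ (a b : List S) (U1 V1 : FW S), a.length ≤ M ∧ b.length ≤ M ∧ U1.length ≤ M ∧
      V1.length ≤ M ∧ a ++ x ++ ev x y U1 = b ++ y ++ ev x y V1 := by
  obtain ⟨a, U1, rfl, -⟩ := exists_of_proj_cons pU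
  obtain ⟨b, V1, rfl, -⟩ := exists_of_proj_cons pV
  simp only [List.length_append, length_cst, List.length_cons] at hU hV
  exact ⟨a, b, U1, V1, by omega, by omega, by omega, by omega, by simpa using h⟩

theorem firstdiff {M : ℕ} {x y : List S} (hx : ¬ Per M x) (hy : ¬ Per M y) {U V : FW S}
    (hU : U.length ≤ M) (hV : V.length ≤ M) (hne : proj U ≠ proj V) (h : ev x y U = ev x y V) :
    ∃ (a b : List S) (U1 V1 : FW S), a.length ≤ M ∧ b.length ≤ M ∧ U1.length ≤ M ∧
      V1.length ≤ M ∧ a ++ x ++ ev x y U1 = b ++ y ++ ev x y V1 := by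
  obtain ⟨r, p, q, e1, e2, hc⟩ := fd_split hne
  obtain ⟨W, U', V', rfl, rfl, h1, h2, h3⟩ := strip hx hy hU hV e1 e2 h
  rw [List.length_append] at hU hV
  have hU' : U'.length ≤ M := by omega
  have hV' : V'.length ≤ M := by omega
  rcases hc with ⟨rfl, c, q', rfl⟩ | ⟨rfl, c, p', rfl⟩ | ⟨p', q', rfl, rfl⟩ | ⟨p', q', rfl, rfl⟩
  · exact (fd_short hx hy hU' hV' h1 h2 h3).elim
  · exact (fd_short hx hy hV' hU' h2 h1 h3.symm).elim
  · exact fd_diff hU' hV' h1 h2 h3
  · exact fd_diff hV' hU' h2 h1 h3.symm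

theorem fd_bd {P Q : List Bool} (hB : BD P Q) (h : P ≠ Q) :
    ∃ r b p q, P = r ++ b :: (!b) :: p ∧ Q = r ++ (!b) :: b :: q := by
  induction hB with
  | nil => exact (h rfl).elim
  | same c _ ih =>
    obtain ⟨r, b, p, q, rfl, rfl⟩ := ih fun e => h (by rw [e])
    exact ⟨c :: r, b, p, q, rfl, rfl⟩
  | swap c _ _ => exact ⟨[], c, _, _, rfl, rfl⟩

theorem fd_swap {M : ℕ} {x y : List S} {U V : FW S} (hU : U.length ≤ M) (hV : V.length ≤ M)
    {p q : List Bool} (pU : proj U = false :: true :: p) (pV : proj V = true :: false :: q)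
    (h : ev x y U = ev x y V) :
    ∃ a A b C R R' : List S, a.length ≤ M ∧ A.length ≤ M ∧ b.length ≤ M ∧ C.length ≤ M ∧
      a ++ x ++ A ++ y ++ R = b ++ y ++ C ++ x ++ R' := by
  obtain ⟨a, U1, rfl, e1⟩ := exists_of_proj_cons pU
  obtain ⟨b, V1, rfl, e2⟩ := exists_of_proj_cons pV
  obtain ⟨A, U2, rfl, -⟩ := exists_of_proj_cons e1
  obtain ⟨C, V2, rfl, -⟩ := exists_of_proj_cons e2
  simp only [List.length_append, length_cst, List.length_cons] at hU hV
  exact ⟨a, A, b, C, ev x y U2, ev x y V2, by omega, by omega, by omega, by omega,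
    by simpa using h⟩

theorem firstswap {M : ℕ} {x y : List S} (hx : ¬ Per M x) (hy : ¬ Per M y) {U V : FW S}
    (hU : U.length ≤ M) (hV : V.length ≤ M) (hB : BD (proj U) (proj V)) (hne : proj U ≠ proj V)
    (h : ev x y U = ev x y V) :
    ∃ a A b C R R' : List S, a.length ≤ M ∧ A.length ≤ M ∧ b.length ≤ M ∧ C.length ≤ M ∧
      a ++ x ++ A ++ y ++ R = b ++ y ++ C ++ x ++ R' := by
  obtain ⟨r, b, p, q, e1, e2⟩ := fd_bd hB hne
  obtain ⟨W, U', V', rfl, rfl, h1, h2, h3⟩ := strip hx hy hU hV e1 e2 h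
  rw [List.length_append] at hU hV
  have hU' : U'.length ≤ M := by omega
  have hV' : V'.length ≤ M := by omega
  cases b
  · exact fd_swap hU' hV' h1 h2 h3
  · exact fd_swap hV' hU' h2 h1 h3.symm

end Pool.Agent.WEq
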