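import Mathlib

/-! Quantifier-free formulas of word equations and linear length constraints over the alphabet `S`
with variables indexed by natural numbers, their semantics and their codes. -/

set_option autoImplicit false

namespace Pool.Agent.WEq

/-- The relations `=`, `≤`, `<` of length constraints. -/
inductive Cmp : Type
  | eq : Cmp
  | le : Cmp
  | lt : Cmp

/-- The meaning of a relation symbol. -/
def Cmp.Rel : Cmp → ℤ → ℤ → Prop
  | .eq, a, b => a = b
  | .le, a, b => a ≤ b
  | .lt, a, b => a < b

/-- The number of a relation symbol. -/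
def Cmp.code : Cmp → ℕ
  | .eq => 0
  | .le => 1
  | .lt => 2

/-- Formulas: word equations `U = V`, length constraints `∑ c_i |x_i| ⋈ c` (given by the list of
pairs `(c_i, x_i)`), and Boolean combinations. -/
inductive Fml (S : Type) : Type
  | weq (U V : List (S ⊕ ℕ)) : Fml S
  | len (cs : List (ℤ × ℕ)) (r : Cmp) (c : ℤ) : Fml S
  | and (φ ψ : Fml S) : Fml S
  | or (φ ψ : Fml S) : Fml S
  | not (φ : Fml S) : Fml S

variable {S : Type}

/-- The image of a word in letters and variables under the morphism that fixes the letters and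
sends the variable `z` to `h z`. -/
def val (h : ℕ → List S) (U : List (S ⊕ ℕ)) : List S := U.flatMap (Sum.elim (fun a => [a]) h)

/-- The assignment `h` makes the formula true. -/
def Fml.Holds (h : ℕ → List S) : Fml S → Prop
  | .weq U V => val h U = val h V
  | .len cs r c => r.Rel (cs.map fun p => p.1 * ((h p.2).length : ℤ)).sum c
  | .and φ ψ => φ.Holds h ∧ ψ.Holds h
  | .or φ ψ => φ.Holds h ∨ ψ.Holds h
  | .not φ => ¬ φ.Holds h

/-- The variables that occur in the formula. -/
def Fml.vars : Fml S → Finset ℕ
  | .weq U V => ((U ++ V).filterMap Sum.getRight?).toFinset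
  | .len cs _ _ => (cs.map Prod.snd).toFinset
  | .and φ ψ => φ.vars ∪ ψ.vars
  | .or φ ψ => φ.vars ∪ ψ.vars
  | .not φ => φ.vars

/-- An integer as the pair of its positive and negative parts. -/
def icode (c : ℤ) : ℕ × ℕ := (c.toNat, (-c).toNat)

/-- Tokens: an equation, a length constraint, or a connective. -/
abbrev Tok (S : Type) :=
  (List (S ⊕ ℕ) × List (S ⊕ ℕ)) ⊕ (List ((ℕ × ℕ) × ℕ) × ℕ × ℕ × ℕ) ⊕ ℕ

/-- The formula written in reverse Polish form as a list of tokens. -/
def Fml.code : Fml S → List (Tok S)
  | .weq U V => [Sum.inl (U, V)]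
  | .len cs r c => [Sum.inr (Sum.inl (cs.map fun p => (icode p.1, p.2), r.code, icode c))]
  | .and φ ψ => φ.code ++ ψ.code ++ [Sum.inr (Sum.inr 0)]
  | .or φ ψ => φ.code ++ ψ.code ++ [Sum.inr (Sum.inr 1)]
  | .not φ => φ.code ++ [Sum.inr (Sum.inr 2)]

end Pool.Agent.WEq
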