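import Pool.Agent.P.MP_a11166_lc.Basic

/-! Row Ilp. Small points with the same sign pattern.
Induction on `k`, generalizing `s t`. For `k = 0` the form has `0 ≤ a * b`; take `s' = s` if
`s ≤ C + P` and otherwise the number in `(C, C + P]` congruent to `s` (so `C < s ↔ C < s'`, and
`s' = s` when `s ≤ C`), the same for `t`. Step: if `t ≤ s` write `s = r + t`, apply the induction
hypothesis to `(r, t)` and the form `(a, a + b, c)`, which satisfies `Fm k a (a + b)`, and put
`s' = r' + t'`; symmetrically if `s ≤ t`.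
-/

set_option autoImplicit false

namespace Pool.Agent.WEq

open Pool.Agent.Lib.Comp

variable {S : Type}

theorem ilp_one (C P : ℕ) (hP : 1 ≤ P) (s : ℕ) :
    ∃ s' : ℕ, s' ≤ s ∧ s' % P = s % P ∧ s' ≤ C + P ∧ (s ≤ C → s' = s) ∧ (C < s → C < s') := by
  induction s using Nat.strong_induction_on with
  | _ s ih =>
    by_cases h : s ≤ C + P
    · exact ⟨s, le_rfl, rfl, h, fun _ => rfl, id⟩
    · obtain ⟨s', h1, h2, h3, -, h5⟩ := ih (s - P) (by omega)
      refine ⟨s', by omega, ?_, h3, fun h' => by omega, fun _ => h5 (by omega)⟩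
      rw [h2, ← Nat.mod_eq_sub_mod (by omega)]

theorem ilp_term {a C s s' : ℤ} (h4 : s ≤ C → s' = s) (h5 : C < s → C < s') (hs : 0 ≤ s)
    (hs' : 0 ≤ s') (hC : 0 ≤ C) (ha : 0 ≤ a) :
    0 ≤ a * s ∧ 0 ≤ a * s' ∧ (a * s = a * s' ∨ (C < a * s ∧ C < a * s')) := by
  refine ⟨mul_nonneg ha hs, mul_nonneg ha hs', ?_⟩
  by_cases h : s ≤ C
  · left; rw [h4 h]
  · rcases ha.eq_or_lt with rfl | ha'
    · left; simp
    · have := h5 (by omega)
      right; constructor <;> nlinarith

theorem ilp_fm {k : ℕ} {a b : ℤ} (h : Fm (k + 1) a b) : Fm k a (a + b) := by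
  rcases h with h | h
  · left; nlinarith [mul_self_nonneg a]
  · by_cases h' : 0 ≤ a * (a + b)
    · exact Or.inl h'
    · right
      push_cast at h
      have : (0 < a ∧ a + b < 0) ∨ (a < 0 ∧ 0 < a + b) := mul_neg_iff.1 (not_le.1 h')
      rcases abs_cases a with h1 | h1 <;> rcases abs_cases b with h2 | h2 <;>
        rcases abs_cases (a + b) with h3 | h3 <;> omega

theorem ilp_fm_symm {k : ℕ} {a b : ℤ} (h : Fm k a b) : Fm k b a := by
  rcases h with h | h
  · left; rwa [mul_comm]
  · right; rwa [add_comm]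

theorem ilp (k C P : ℕ) (hP : 1 ≤ P) (s t : ℕ) :
    ∃ s' t' : ℕ, s' ≤ s ∧ t' ≤ t ∧ s' % P = s % P ∧ t' % P = t % P ∧
      s' + t' ≤ 2 ^ (k + 1) * (C + P) ∧
      ∀ a b c : ℤ, Fm k a b → |c| ≤ C →
        (0 ≤ a * (s : ℤ) + b * (t : ℤ) + c ↔ 0 ≤ a * (s' : ℤ) + b * (t' : ℤ) + c) := by
  induction k generalizing s t with
  | zero =>
    obtain ⟨s', a1, a2, a3, a4, a5⟩ := ilp_one C P hP s
    obtain ⟨t', b1, b2, b3, b4, b5⟩ := ilp_one C P hP t
    refine ⟨s', t', a1, b1, a2, b2, by omega, fun a b c hF hc => ?_⟩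
    have hab : 0 ≤ a * b := by
      rcases hF with h | h
      · exact h
      · have h1 := abs_nonneg a
        have h2 := abs_nonneg b
        have : a = 0 := abs_eq_zero.1 (by push_cast at h; omega)
        simp [this]
    have hc' := abs_le.1 hc
    rcases mul_nonneg_iff.1 hab with ⟨ha, hb⟩ | ⟨ha, hb⟩
    · have e1 := ilp_term (a := a) (C := C) (s := s) (s' := s') (by omega) (by omega) (by omega)
        (by omega) (by omega) ha
      have e2 := ilp_term (a := b) (C := C) (s := t) (s' := t') (by omega) (by omega) (by omega)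
        (by omega) (by omega) hb
      omega
    · have e1 := ilp_term (a := -a) (C := C) (s := s) (s' := s') (by omega) (by omega) (by omega)
        (by omega) (by omega) (by omega)
      have e2 := ilp_term (a := -b) (C := C) (s := t) (s' := t') (by omega) (by omega) (by omega)
        (by omega) (by omega) (by omega)
      simp only [neg_mul] at e1 e2
      omega
  | succ k ih =>
    rcases le_total t s with h | h
    · obtain ⟨r, rfl⟩ := Nat.exists_eq_add_of_le' h
      obtain ⟨r', t', h1, h2, h3, h4, h5, h6⟩ := ih r t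
      refine ⟨r' + t', t', by omega, h2, by rw [Nat.add_mod, h3, h4, ← Nat.add_mod], h4, ?_,
        fun a b c hF hc => ?_⟩
      · rw [pow_succ, mul_right_comm]; omega
      · have := h6 a (a + b) c (ilp_fm hF) hc
        push_cast
        rw [show a * ((r : ℤ) + t) + b * t + c = a * r + (a + b) * t + c by ring,
          show a * ((r' : ℤ) + t') + b * t' + c = a * r' + (a + b) * t' + c by ring]
        exact this
    · obtain ⟨r, rfl⟩ := Nat.exists_eq_add_of_le' h
      obtain ⟨s', r', h1, h2, h3, h4, h5, h6⟩ := ih s r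
      refine ⟨s', r' + s', h1, by omega, h3, by rw [Nat.add_mod, h3, h4, ← Nat.add_mod], ?_,
        fun a b c hF hc => ?_⟩
      · rw [pow_succ, mul_right_comm]; omega
      · have := h6 (b + a) b c (ilp_fm_symm (ilp_fm (ilp_fm_symm hF))) hc
        push_cast
        rw [show a * (s : ℤ) + b * (r + s) + c = (b + a) * s + b * r + c by ring,
          show a * (s' : ℤ) + b * (r' + s') + c = (b + a) * s' + b * r' + c by ring]
        exact this

end Pool.Agent.WEq
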