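import Pool.Agent.P.MP_a11166_lc.Basic

/-! Row One. One long variable.
`one`: prove, by induction on `U.length + V.length`, the implication for
`al ++ ev x y U = be ++ ev x y V` with arbitrary words `al`, `be` such that
`al.length + (ev x [] U).length ≤ T` and the same for `be`, `V`. A leading letter or `x` is moved
into `al` (or `be`). If both sides continue with `y` and `al` is the shorter one then
`be = al ++ g`, `y ++ R = g ++ y ++ R'`, so `g ++ y = y ++ g'` (`pre_of_pre_append`) and
`R = g' ++ R'`; recurse with `[]`, `g'`. If only one side continues with `y` the lengths give a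
contradiction. The hypotheses are symmetric in `y`, `y'`.
`ratio`: strong induction on `y.length`, `T = (M + 1) * (x.length + 1)`; assume `3 * T < y.length`.
If `y` has a period `P` with `1 ≤ P ≤ T`, put `y' = y.drop P`, which is also `y.take (n - P)`
(`HasPeriod.drop_prefix`). For `q ≤ T`, `y` has period `q` iff `y'` has (for `i + q < n - P` look
inside the initial segment `y'`, otherwise `P ≤ i` and shift both indices by `P`), and
`g ++ y = y ++ g'` with `g.length = q` holds iff `y` has period `q`, `g` is the initial and `g'` the
final segment of `y` of length `q`; these are the same for `y'`. If `¬ Per T y`, take letters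
`a ≠ b` (`exists_ne_of_not_per`) and `y' = replicate T a ++ [b]` (`not_per_marker`); then both
sides of `hK` hold exactly for `g = g' = []`. Length conditions: `|a |x| + c| < T`, so for `b ≠ 0`
the sign is that of `b`. `(ev x [] U).length ≤ T` by induction on `U`.
-/

set_option autoImplicit false

namespace Pool.Agent.WEq

open Pool.Agent.Lib.Comp

variable {S : Type}

theorem one_split {g y R R' : List S} (h : y ++ R = g ++ (y ++ R')) :
    ∃ g', g'.length = g.length ∧ g ++ y = y ++ g' ∧ R = g' ++ R' := by
  obtain ⟨g', hg⟩ : y <+: g ++ y := pre_of_pre_append (r := R') ⟨R, by rw [h, List.append_assoc]⟩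
  refine ⟨g', ?_, hg.symm, ?_⟩
  · have := congrArg List.length hg
    simp only [List.length_append] at this
    omega
  · rw [← List.append_assoc, ← hg, List.append_assoc] at h
    exact List.append_cancel_left h

theorem one_aux {T : ℕ} {x y y' : List S} (hy : T < y.length)
    (hK : ∀ g g' : List S, g.length ≤ T → g ++ y = y ++ g' → g ++ y' = y' ++ g') (n : ℕ) :
    ∀ (U V : FW S) (al be : List S), U.length + V.length < n →
      al.length + (ev x [] U).length ≤ T → be.length + (ev x [] V).length ≤ T →
      al ++ ev x y U = be ++ ev x y V → al ++ ev x y' U = be ++ ev x y' V := by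
  induction n with
  | zero => intro U V al be h; omega
  | succ n ih =>
    intro U V al be hn hU hV h
    have key : ∀ (U V : FW S) (al g : List S), U.length + V.length < n →
        (ev x [] U).length ≤ T → g.length + (ev x [] V).length ≤ T →
        y ++ ev x y U = g ++ (y ++ ev x y V) →
        al ++ (y' ++ ev x y' U) = al ++ g ++ (y' ++ ev x y' V) := by
      intro U V al g hn hU hV h
      obtain ⟨g', h1, h2, h3⟩ := one_split h
      have h4 := ih U V [] g' hn (by simpa using hU) (by omega) h3
      rw [List.nil_append] at h4
      rw [h4, List.append_assoc, ← List.append_assoc g, hK g g' (by omega) h2, List.append_assoc]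
    have mv : ∀ (U V : FW S) (c : S ⊕ Bool) (al be : List S), c ≠ Sum.inr true →
        U.length + V.length < n → al.length + (ev x [] (c :: U)).length ≤ T →
        be.length + (ev x [] V).length ≤ T → al ++ ev x y (c :: U) = be ++ ev x y V →
        al ++ ev x y' (c :: U) = be ++ ev x y' V := by
      intro U V c al be hc hn hU hV h
      rcases c with a | _ | _
      · simpa using ih U V (al ++ [a]) be hn (by simp at hU ⊢; omega) hV (by simpa using h)
      · simpa using ih U V (al ++ x) be hn (by simp at hU ⊢; omega) hV (by simpa using h)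
      · exact absurd rfl hc
    rcases U with _ | ⟨c, U⟩
    · rcases V with _ | ⟨d, V⟩
      · exact h
      · by_cases hd : d = Sum.inr true
        · subst hd
          have := congrArg List.length h
          simp at this hU
          omega
        · exact (mv V [] d be al hd (by simp at hn ⊢; omega) hV hU h.symm).symm
    · by_cases hc : c = Sum.inr true
      · subst hc
        rcases V with _ | ⟨d, V⟩
        · have := congrArg List.length h
          simp at this hV
          omega
        · by_cases hd : d = Sum.inr true
          · subst hd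
            simp only [ev_y, List.nil_append, List.length_cons] at hU hV h hn ⊢
            rcases List.append_eq_append_iff.1 h with ⟨g, rfl, h1⟩ | ⟨g, rfl, h1⟩
            · rw [List.length_append] at hV
              exact key U V al g (by omega) (by omega) (by omega) h1
            · rw [List.length_append] at hU
              exact (key V U be g (by omega) (by omega) (by omega) h1).symm
          · exact (mv V _ d be al hd (by simp at hn ⊢; omega) hV hU h.symm).symm
      · exact mv U V c al be hc (by simp at hn ⊢; omega) hU hV h

theorem one {T : ℕ} {x y y' : List S} (hy : T < y.length) (hy' : T < y'.length)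
    (hK : ∀ g g' : List S, g.length ≤ T → (g ++ y = y ++ g' ↔ g ++ y' = y' ++ g'))
    {U V : FW S} (hU : (ev x [] U).length ≤ T) (hV : (ev x [] V).length ≤ T) :
    ev x y U = ev x y V ↔ ev x y' U = ev x y' V :=
  ⟨one_aux hy (fun g g' h => (hK g g' h).1) _ U V [] [] (Nat.lt_succ_self _) (by simpa using hU)
      (by simpa using hV),
    one_aux hy' (fun g g' h => (hK g g' h).2) _ U V [] [] (Nat.lt_succ_self _) (by simpa using hU)
      (by simpa using hV)⟩

theorem one_lin {T b d z z' : ℤ} (hd : |d| ≤ T) (hz : T < z) (hz' : T < z') (h : 0 ≤ d + b * z) :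
    0 ≤ d + b * z' := by
  obtain ⟨h1, h2⟩ := abs_le.1 hd
  rcases lt_trichotomy b 0 with hb | hb | hb
  · nlinarith
  · subst hb
    simpa using h
  · nlinarith

theorem one_eqv {M : ℕ} {x y y' : List S} (hy : (M + 1) * (x.length + 1) < y.length)
    (hy' : (M + 1) * (x.length + 1) < y'.length)
    (hK : ∀ g g' : List S, g.length ≤ (M + 1) * (x.length + 1) →
      (g ++ y = y ++ g' ↔ g ++ y' = y' ++ g')) : Eqv M x y x y' := by
  have h1 : ∀ U : FW S, U.length ≤ M → (ev x [] U).length ≤ (M + 1) * (x.length + 1) :=
    fun U hU => (length_ev_le le_rfl (Nat.zero_le _) U).trans (Nat.mul_le_mul_right _ (by omega))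
  refine ⟨fun U V hU hV => one hy hy' hK (h1 U hU) (h1 V hV), fun a b c ha _ hc => ?_⟩
  have h2 : |a * (x.length : ℤ) + c| ≤ (((M + 1) * (x.length + 1) : ℕ) : ℤ) := by
    have h3 : (0 : ℤ) ≤ x.length := Nat.cast_nonneg _
    have h4 : (0 : ℤ) ≤ M := Nat.cast_nonneg _
    refine (abs_add_le _ _).trans ?_
    rw [abs_mul, abs_of_nonneg h3]
    push_cast
    nlinarith [mul_le_mul_of_nonneg_right ha h3]
  simp only [Lin, add_right_comm _ _ c]
  exact ⟨one_lin h2 (Nat.cast_lt.2 hy) (Nat.cast_lt.2 hy'),
    one_lin h2 (Nat.cast_lt.2 hy') (Nat.cast_lt.2 hy)⟩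

theorem one_pump {g g' h y : List S} (hp : y <+: h ++ y) (hl : g.length + h.length ≤ y.length) :
    g ++ (h ++ y) = h ++ y ++ g' ↔ g ++ y = y ++ g' := by
  have e : ∀ {a b c : List S}, a <+: c → b <+: c → a.length ≤ b.length → a <+: b :=
    List.prefix_of_prefix_length_le
  have key : g <+: y → g ++ h <+: h ++ y → (g ++ (h ++ y) = h ++ y ++ g' ↔ g ++ y = y ++ g') := by
    intro h1 h2
    have h3 : g ++ h = h ++ g :=
      (e h2 ((List.prefix_append_right_inj h).2 h1) (by simp; omega)).eq_of_length (by simp; omega)
    rw [← List.append_assoc, h3, List.append_assoc, List.append_assoc, List.append_right_inj]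
  refine ⟨fun H => (key ?_ ?_).1 H, fun H => (key ?_ ?_).2 H⟩
  · exact e (e ⟨_, H⟩ (List.prefix_append _ _) (by simp; omega)) hp (by omega)
  · exact e ⟨y, by rw [List.append_assoc, H]⟩ (List.prefix_append _ g') (by simp; omega)
  · exact e ⟨_, H⟩ (List.prefix_append _ _) (by omega)
  · have h1 : h <+: y := e (List.prefix_append _ _) hp (by omega)
    have h2 : g ++ h <+: y ++ g' := H ▸ (List.prefix_append_right_inj g).2 h1
    exact (e h2 (List.prefix_append _ _) (by simpa using hl)).trans hp

theorem one_aper {T : ℕ} {g g' w : List S} (hw : ¬ Per T w) (hg : g.length ≤ T) :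
    g ++ w = w ++ g' ↔ g = [] ∧ g' = [] := by
  refine ⟨fun h => ?_, fun h => by simp [h.1, h.2]⟩
  by_cases h1 : g = []
  · subst h1
    exact ⟨rfl, by simpa using h⟩
  · exact absurd (per_of_pre ⟨g', h.symm⟩ h1 hg) hw

theorem ratio (M : ℕ) (x y : List S) :
    ∃ y', Eqv M x y x y' ∧ y'.length ≤ 3 * (M + 1) * (x.length + 1) := by
  induction hn : y.length using Nat.strong_induction_on generalizing y with
  | _ n ih =>
    by_cases hl : y.length ≤ 3 * (M + 1) * (x.length + 1)
    · exact ⟨y, Eqv.refl M x y, hl⟩
    rw [mul_assoc] at hl
    have hT : 1 ≤ (M + 1) * (x.length + 1) := Nat.mul_pos (by omega) (by omega)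
    obtain ⟨z, h1, h2⟩ : ∃ z, Eqv M x y x z ∧ z.length < y.length := by
      by_cases hp : Per ((M + 1) * (x.length + 1)) y
      · obtain ⟨P, h1, h2, h3⟩ := hp
        refine ⟨y.drop P, one_eqv (by omega) (by rw [List.length_drop]; omega) fun g g' hg => ?_,
          by rw [List.length_drop]; omega⟩
        have h4 := one_pump (g := g) (g' := g') (h := y.take P) (y := y.drop P)
          (by rw [List.take_append_drop]; exact List.HasPeriod.drop_prefix P h3)
          (by rw [List.length_drop, List.length_take]; omega)
        rwa [List.take_append_drop] at h4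
      · obtain ⟨a, b, hab⟩ := exists_ne_of_not_per hT hp
        refine ⟨_, one_eqv (by omega) (by simp) fun g g' hg =>
          (one_aper hp hg).trans (one_aper (not_per_marker hab _ 0) hg).symm, ?_⟩
        simp only [List.length_append, List.length_replicate, List.length_cons]
        omega
    obtain ⟨y', h3, h4⟩ := ih z.length (hn ▸ h2) z rfl
    exact ⟨y', h1.trans h3, h4⟩

end Pool.Agent.WEq
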