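import Pool.Agent.P.MP_a11166_lc.Basic

/-! Row PP. Initial segments of powers, and equations with a displaced `y`.
`pre_ev`: induction on `Z`. `pp`: strong induction on `w.length`; with `z = ev u [] Z`, if
`z.length ≤ w.length` then `w = z ++ w1` and `w1 <+: z ++ w1`, take `Z ++ Y1`; otherwise `w <+: z`,
use `pre_ev`.
`st_core`: let `a`, `b` be the numbers of `x` in `al`, `be`. By `length_ev`, `a < b`. Split
`be = b0 ++ inr false :: b1` with exactly `a` occurrences of `x` in `b0` (induction, or
`exists_of_proj_cons` repeatedly). The lengths of the values of `al` and `b0` differ by at most `M`.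
If `ev al` is the shorter, `g = ze ++ x ++ ev x [] b1`, `rho = []`. Otherwise `x = rho ++ u` and
`g = u ++ ev x [] b1`, `ze = []`. In both cases `G = subst (cst rho ++ [inr false]) [] b1`.
`st`: strong induction on `U.length + V.length` (the statement is symmetric in `U`, `V`), with
`onlyX_or_split` and `subst (cst x) s W = cst (ev x [] W)` for `OnlyX W`. Both free of `y`:
contradiction. `U = al ++ inr true :: U'`, `V` free of `y`: `g = y ++ ev x y U'`. Both contain `y`:
if the values of the two `y`-free parts have the same length they are equal, recurse on the rests;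
otherwise the longer is the shorter followed by `g ≠ []` and `y <+: g ++ y`. In the last two cases
`y <+: g ++ y`, `g ≠ []`, so `M < g.length` (`per_of_pre`), and `st_core` applies.
-/

set_option autoImplicit false

namespace Pool.Agent.WEq

open Pool.Agent.Lib.Comp

variable {S : Type}

theorem pp_onlyX_inl {a : S} {Z : FW S} : OnlyX (Sum.inl a :: Z) ↔ OnlyX Z := by
  simp [OnlyX]

theorem pp_onlyX_x {Z : FW S} : OnlyX (Sum.inr false :: Z) ↔ OnlyX Z := by
  simp [OnlyX]

theorem pp_not_onlyX_y {Z : FW S} : ¬ OnlyX (Sum.inr true :: Z) := by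
  simp [OnlyX]

theorem pre_ev {u w : List S} {Z : FW S} (hZ : OnlyX Z) (hw : w <+: ev u [] Z) :
    ∃ (Y : FW S) (v : List S), OnlyX Y ∧ v <+: u ∧ w = ev u [] Y ++ v ∧ Y.length ≤ Z.length := by
  induction Z generalizing w with
  | nil =>
    refine ⟨[], [], hZ, List.nil_prefix, ?_, le_rfl⟩
    simpa using hw
  | cons c Z ih =>
    rcases c with a | _ | _
    · rcases w with _ | ⟨b, w⟩
      · exact ⟨[], [], onlyX_cst [], List.nil_prefix, rfl, Nat.zero_le _⟩
      · rw [ev_inl, List.cons_prefix_cons] at hw
        obtain ⟨rfl, hw⟩ := hw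
        obtain ⟨Y, v, h1, h2, h3, h4⟩ := ih (pp_onlyX_inl.1 hZ) hw
        refine ⟨Sum.inl b :: Y, v, pp_onlyX_inl.2 h1, h2, ?_, ?_⟩
        · rw [ev_inl, h3]; rfl
        · simpa using h4
    · rw [ev_x] at hw
      by_cases hl : w.length ≤ u.length
      · exact ⟨[], w, onlyX_cst [],
          List.prefix_of_prefix_length_le hw (List.prefix_append _ _) hl, rfl, Nat.zero_le _⟩
      · obtain ⟨w', rfl⟩ : u <+: w :=
          List.prefix_of_prefix_length_le (List.prefix_append _ _) hw (by omega)
        rw [List.prefix_append_right_inj] at hw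
        obtain ⟨Y, v, h1, h2, h3, h4⟩ := ih (pp_onlyX_x.1 hZ) hw
        refine ⟨Sum.inr false :: Y, v, pp_onlyX_x.2 h1, h2, ?_, ?_⟩
        · rw [ev_x, h3, List.append_assoc]
        · simpa using h4
    · exact absurd hZ pp_not_onlyX_y

theorem pp {u w : List S} {Z : FW S} (hZ : OnlyX Z) (hz : ev u [] Z ≠ [])
    (hw : w <+: ev u [] Z ++ w) :
    ∃ (Y : FW S) (v : List S), OnlyX Y ∧ v <+: u ∧ w = ev u [] Y ++ v ∧
      Y.length * (ev u [] Z).length ≤ (w.length + (ev u [] Z).length) * Z.length := by
  induction hn : w.length using Nat.strong_induction_on generalizing w with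
  | _ n ih =>
    subst hn
    have hz' : 0 < (ev u [] Z).length := List.length_pos_iff.2 hz
    by_cases hl : (ev u [] Z).length ≤ w.length
    · obtain ⟨w1, rfl⟩ : ev u [] Z <+: w :=
        List.prefix_of_prefix_length_le (List.prefix_append _ _) hw hl
      rw [List.prefix_append_right_inj] at hw
      have hw1 : w1 <+: ev u [] Z ++ w1 := hw
      obtain ⟨Y, v, h1, h2, h3, h4⟩ := ih w1.length (by simp; omega) hw1 rfl
      refine ⟨Z ++ Y, v, onlyX_append.2 ⟨hZ, h1⟩, h2, ?_, ?_⟩
      · rw [ev_append, List.append_assoc, ← h3]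
      · simp only [List.length_append]
        nlinarith
    · have hw' : w <+: ev u [] Z :=
        List.prefix_of_prefix_length_le hw (List.prefix_append _ _) (by omega)
      obtain ⟨Y, v, h1, h2, h3, h4⟩ := pre_ev hZ hw'
      refine ⟨Y, v, h1, h2, h3, ?_⟩
      calc Y.length * (ev u [] Z).length ≤ Z.length * (ev u [] Z).length :=
            Nat.mul_le_mul_right _ h4
        _ ≤ (w.length + (ev u [] Z).length) * Z.length := by
            rw [mul_comm]; exact Nat.mul_le_mul_right _ (Nat.le_add_left _ _)

theorem pp_length_ev (x : List S) {W : FW S} (hW : OnlyX W) :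
    (ev x [] W).length + (proj W).length = (proj W).length * x.length + W.length := by
  induction W with
  | nil => simp
  | cons c W ih =>
    rcases c with a | _ | _
    · have := ih (pp_onlyX_inl.1 hW)
      simp only [ev_inl, proj_inl, List.length_cons]
      omega
    · have := ih (pp_onlyX_x.1 hW)
      simp only [ev_x, proj_inr, List.length_cons, List.length_append, Nat.succ_mul]
      omega
    · exact absurd hW pp_not_onlyX_y

theorem pp_split {W : FW S} (hW : OnlyX W) {a : ℕ} (ha : a < (proj W).length) :
    ∃ b0 b1 : FW S, W = b0 ++ Sum.inr false :: b1 ∧ (proj b0).length = a := by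
  induction W generalizing a with
  | nil => simp at ha
  | cons c W ih =>
    rcases c with d | _ | _
    · obtain ⟨b0, b1, rfl, h⟩ := ih (pp_onlyX_inl.1 hW) (by simpa using ha)
      exact ⟨Sum.inl d :: b0, b1, rfl, by simpa using h⟩
    · rcases a with _ | a
      · exact ⟨[], W, rfl, rfl⟩
      · obtain ⟨b0, b1, rfl, h⟩ := ih (pp_onlyX_x.1 hW) (a := a) (by simpa using ha)
        exact ⟨Sum.inr false :: b0, b1, rfl, by simpa using h⟩
    · exact absurd hW pp_not_onlyX_y

theorem st_core {M : ℕ} {x g : List S} {al be : FW S} (hal : OnlyX al) (hbe : OnlyX be)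
    (hal' : al.length ≤ M) (hbe' : be.length ≤ M) (h : ev x [] be = ev x [] al ++ g)
    (hg : M < g.length) (hx : M < x.length) :
    ∃ (rho u ze : List S) (G : FW S), x = rho ++ u ∧ rho.length ≤ M ∧ ze.length ≤ M ∧ OnlyX G ∧
      G.length ≤ M * (M + 1) ∧ g = ze ++ u ++ ev u [] G := by
  have e1 := pp_length_ev x hal
  have e2 := pp_length_ev x hbe
  have e3 : (ev x [] be).length = (ev x [] al).length + g.length := by rw [h, List.length_append]
  have p1 := length_proj_le al
  have p2 := length_proj_le be
  have hab : (proj al).length < (proj be).length := by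
    by_contra hc
    have : (proj be).length * x.length ≤ (proj al).length * x.length :=
      Nat.mul_le_mul_right _ (by omega)
    omega
  obtain ⟨b0, b1, rfl, h0⟩ := pp_split hbe hab
  obtain ⟨hb0, hb1⟩ := onlyX_append.1 hbe
  have hb1' : OnlyX b1 := pp_onlyX_x.1 hb1
  have e4 := pp_length_ev x hb0
  have p3 := length_proj_le b0
  rw [h0] at e4 p3
  simp only [List.length_append, List.length_cons] at hbe'
  rw [ev_append, ev_x] at h
  by_cases hl : (ev x [] al).length ≤ (ev x [] b0).length
  · obtain ⟨ze, hze⟩ : ev x [] al <+: ev x [] b0 :=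
      List.prefix_of_prefix_length_le ⟨g, h.symm⟩ (List.prefix_append _ _) hl
    have e5 := congrArg List.length hze
    rw [List.length_append] at e5
    rw [← hze, List.append_assoc, List.append_cancel_left_eq] at h
    refine ⟨[], x, ze, b1, rfl, Nat.zero_le _, by omega, hb1', ?_, ?_⟩
    · have : M ≤ M * (M + 1) := Nat.le_mul_of_pos_right _ (Nat.succ_pos _)
      omega
    · rw [← h, List.append_assoc]
  · obtain ⟨rho, hrho⟩ : ev x [] b0 <+: ev x [] al :=
      List.prefix_of_prefix_length_le (List.prefix_append _ _) ⟨g, h.symm⟩ (by omega)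
    have e5 := congrArg List.length hrho
    rw [List.length_append] at e5
    rw [← hrho, List.append_assoc, List.append_cancel_left_eq] at h
    have hr : rho.length ≤ M := by omega
    obtain ⟨u, hu⟩ : rho <+: x :=
      List.prefix_of_prefix_length_le ⟨g, h.symm⟩ (List.prefix_append _ _) (by omega)
    refine ⟨rho, u, [], subst (cst rho ++ [Sum.inr false]) [] b1, hu.symm, hr, Nat.zero_le _,
      onlyX_subst (onlyX_append.2 ⟨onlyX_cst _, onlyX_x⟩) (onlyX_cst []) _, ?_, ?_⟩
    · refine (length_subst_le (K := M + 1) (by omega) (by simp; omega) (by simp) b1).trans ?_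
      exact Nat.mul_le_mul_right _ (by omega)
    · rw [ev_subst]
      simp only [ev_append, ev_cst, ev_x, ev_nil, List.append_nil, List.nil_append]
      rw [hu]
      have h' : rho ++ (u ++ ev x [] b1) = rho ++ g := by rw [← List.append_assoc, hu, h]
      exact (List.append_cancel_left h').symm

theorem pp_subst_onlyX (x : List S) (s : FW S) {W : FW S} (hW : OnlyX W) :
    subst (cst x) s W = cst (ev x [] W) := by
  induction W with
  | nil => rfl
  | cons c W ih =>
    rcases c with a | _ | _
    · simp [ih (pp_onlyX_inl.1 hW)]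
    · simp [ih (pp_onlyX_x.1 hW)]
    · exact absurd hW pp_not_onlyX_y

/-- The common end of the cases of `st`. -/
theorem pp_finish {M : ℕ} {x y g : List S} {al be : FW S} (hal : OnlyX al) (hbe : OnlyX be)
    (hal' : al.length ≤ M) (hbe' : be.length ≤ M) (h : ev x [] be = ev x [] al ++ g)
    (hg : g ≠ []) (hyg : y <+: g ++ y) (hy : ¬ Per M y) (hx : M < x.length) :
    ∃ (rho u ze : List S) (G : FW S), x = rho ++ u ∧ rho.length ≤ M ∧ ze.length ≤ M ∧ OnlyX G ∧
      G.length ≤ M * (M + 1) ∧ y <+: ze ++ u ++ ev u [] G ++ y := by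
  have hg' : M < g.length := by
    by_contra hc
    exact hy (per_of_pre hyg hg (by omega))
  obtain ⟨rho, u, ze, G, h1, h2, h3, h4, h5, h6⟩ := st_core hal hbe hal' hbe' h hg' hx
  exact ⟨rho, u, ze, G, h1, h2, h3, h4, h5, h6 ▸ hyg⟩

/-- One side contains `y`, the other does not. -/
theorem pp_one {M : ℕ} {x y : List S} {al U' V : FW S} (hal : OnlyX al) (hV' : OnlyX V)
    (hU : (al ++ Sum.inr true :: U').length ≤ M) (hV : V.length ≤ M)
    (h : ev x y (al ++ Sum.inr true :: U') = ev x y V) (hy : ¬ Per M y) (hx : M < x.length) :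
    ∃ (rho u ze : List S) (G : FW S), x = rho ++ u ∧ rho.length ≤ M ∧ ze.length ≤ M ∧ OnlyX G ∧
      G.length ≤ M * (M + 1) ∧ y <+: ze ++ u ++ ev u [] G ++ y := by
  simp only [List.length_append, List.length_cons] at hU
  have hy' := lt_length_of_not_per (by omega) hy
  rw [ev_append, ev_y, hal.ev_eq x y [], hV'.ev_eq x y []] at h
  refine pp_finish (g := y ++ ev x y U') hal hV' (by omega) hV h.symm ?_ ?_ hy hx
  · intro hc
    have := congrArg List.length hc
    simp only [List.length_append, List.length_nil] at this
    omega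
  · rw [List.append_assoc]; exact List.prefix_append _ _

/-- Both sides contain `y`, at different positions. -/
theorem pp_two {M : ℕ} {x y : List S} {al be U' V' : FW S} (hal : OnlyX al) (hbe : OnlyX be)
    (hU : (al ++ Sum.inr true :: U').length ≤ M) (hV : (be ++ Sum.inr true :: V').length ≤ M)
    (h : ev x y (al ++ Sum.inr true :: U') = ev x y (be ++ Sum.inr true :: V'))
    (hl : (ev x [] al).length < (ev x [] be).length) (hy : ¬ Per M y) (hx : M < x.length) :
    ∃ (rho u ze : List S) (G : FW S), x = rho ++ u ∧ rho.length ≤ M ∧ ze.length ≤ M ∧ OnlyX G ∧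
      G.length ≤ M * (M + 1) ∧ y <+: ze ++ u ++ ev u [] G ++ y := by
  simp only [List.length_append, List.length_cons] at hU hV
  rw [ev_append, ev_y, ev_append, ev_y, hal.ev_eq x y [], hbe.ev_eq x y []] at h
  obtain ⟨g, hg⟩ : ev x [] al <+: ev x [] be :=
    List.prefix_of_prefix_length_le ⟨_, h⟩ (List.prefix_append _ _) hl.le
  have e := congrArg List.length hg
  rw [List.length_append] at e
  rw [← hg, List.append_assoc, List.append_cancel_left_eq] at h
  refine pp_finish (g := g) hal hbe (by omega) (by omega) hg.symm ?_ ?_ hy hx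
  · rintro rfl
    simp at e
    omega
  · refine pre_of_pre_append (r := ev x y V') ⟨ev x y U', ?_⟩
    rw [h, List.append_assoc]

theorem st {M : ℕ} {x y : List S} {U V : FW S} (hU : U.length ≤ M) (hV : V.length ≤ M)
    (h : ev x y U = ev x y V)
    (hne : subst (cst x) [Sum.inr true] U ≠ subst (cst x) [Sum.inr true] V)
    (hy : ¬ Per M y) (hx : M < x.length) :
    ∃ (rho u ze : List S) (G : FW S), x = rho ++ u ∧ rho.length ≤ M ∧ ze.length ≤ M ∧ OnlyX G ∧
      G.length ≤ M * (M + 1) ∧ y <+: ze ++ u ++ ev u [] G ++ y := by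
  induction hn : U.length using Nat.strong_induction_on generalizing U V with
  | _ n ih =>
    subst hn
    rcases onlyX_or_split U with hU' | ⟨al, U', rfl, hal⟩
    · rcases onlyX_or_split V with hV' | ⟨be, V', rfl, hbe⟩
      · exfalso
        apply hne
        rw [pp_subst_onlyX x _ hU', pp_subst_onlyX x _ hV', hU'.ev_eq x [] y, hV'.ev_eq x [] y, h]
      · exact pp_one hbe hU' hV hU h.symm hy hx
    · rcases onlyX_or_split V with hV' | ⟨be, V', rfl, hbe⟩
      · exact pp_one hal hV' hU hV h hy hx
      · rcases lt_trichotomy (ev x [] al).length (ev x [] be).length with hl | hl | hl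
        · exact pp_two hal hbe hU hV h hl hy hx
        · rw [ev_append, ev_y, ev_append, ev_y, hal.ev_eq x y [], hbe.ev_eq x y []] at h
          obtain ⟨e1, e2⟩ := List.append_inj h hl
          simp only [List.length_append, List.length_cons] at hU hV
          refine ih U'.length (by simp; omega) (U := U') (V := V') (by omega) (by omega)
            (List.append_cancel_left e2) ?_ rfl
          intro hc
          apply hne
          rw [subst_append, subst_y, subst_append, subst_y, pp_subst_onlyX x _ hal,
            pp_subst_onlyX x _ hbe, e1, hc]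
        · exact pp_two hbe hal hV hU h.symm hl hy hx

end Pool.Agent.WEq
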