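import Pool.Agent.P.MP_a11166_lc.Ilp

/-! Row Pos. Two periodic variables.
`pos`: for a formal word `W` let `L W`, `L' W` be the lengths of its values at `(m, n)` and
`(m', n')` (`length_ev`). For `W1`, `W2` of length at most `M` and `|d| ≤ P`, `hs` gives
`d ≤ L W1 - L W2 ↔ d ≤ L' W1 - L' W2`; also `L W % P = L' W % P`. So the new lengths agree. A position
`i' < L' U` lies in an item: `U = U0 ++ I :: U1` with `L' U0 ≤ i' < L' (U0 ++ [I])`, and the letter
there is `om I (i' - L' U0)` with `om (inl a) = fun _ => a`, `om (inr false) = f`,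
`om (inr true) = g`, all of period `P`; the same with `V = V0 ++ J :: V1`. Let `lo'` be the larger
start and `hi'` the smaller end; `lo`, `hi` the corresponding old values (they are the larger start
and the smaller end again). If `P ≤ hi' - lo'` then `P ≤ hi - lo` and some `i` in `[lo, hi)` is
congruent to `i'`; otherwise `hi - lo = hi' - lo'` and `i = lo + (i' - lo')` works. Compare letters
at `i`.
`t3`: if both words are empty use `Eqv.refl`; otherwise there is a letter `d`; `exists_wd`,
`P = p * q`, `ilp (2 * M) (M + P) P`, and `pos` in both directions.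
-/

set_option autoImplicit false

namespace Pool.Agent.WEq

open Pool.Agent.Lib.Comp

variable {S : Type}

/-- The periodic sequence attached to an item. -/
def pos_om (f g : ℕ → S) : S ⊕ Bool → ℕ → S
  | Sum.inl a => fun _ => a
  | Sum.inr false => f
  | Sum.inr true => g

theorem pos_om_mod {P : ℕ} {f g : ℕ → S} (hf : ∀ i, f (i + P) = f i) (hg : ∀ i, g (i + P) = g i)
    (I : S ⊕ Bool) {i j : ℕ} (h : i ≡ j [MOD P]) : pos_om f g I i = pos_om f g I j := by
  have key : ∀ u : ℕ → S, Function.Periodic u P → u i = u j := fun u hu => by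
    rw [← hu.map_mod_nat i, ← hu.map_mod_nat j, h]
  rcases I with a | _ | _
  · rfl
  · exact key f hf
  · exact key g hg

theorem pos_loc (x y : List S) (U : FW S) {i : ℕ} (hi : i < (ev x y U).length) :
    ∃ U0 I U1, U = U0 ++ I :: U1 ∧ (ev x y U0).length ≤ i ∧ i < (ev x y (U0 ++ [I])).length := by
  induction U generalizing i with
  | nil => simp at hi
  | cons I U ih =>
    by_cases h : i < (ev x y [I]).length
    · exact ⟨[], I, U, rfl, Nat.zero_le _, h⟩
    · have e : ∀ W, (ev x y (I :: W)).length = (ev x y [I]).length + (ev x y W).length :=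
        fun W => by rw [← List.length_append, ← ev_append]; rfl
      rw [e] at hi
      obtain ⟨U0, J, U1, rfl, h1, h2⟩ := ih (i := i - (ev x y [I]).length) (by omega)
      refine ⟨I :: U0, J, U1, rfl, ?_, ?_⟩
      · rw [e]
        omega
      · rw [List.cons_append, e]
        omega

theorem pos_get (f g : ℕ → S) (m n : ℕ) (U0 : FW S) (I : S ⊕ Bool) (U1 : FW S) {i : ℕ}
    (h1 : (ev (wd f m) (wd g n) U0).length ≤ i)
    (h2 : i < (ev (wd f m) (wd g n) (U0 ++ [I])).length) :
    (ev (wd f m) (wd g n) (U0 ++ I :: U1))[i]? =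
      some (pos_om f g I (i - (ev (wd f m) (wd g n) U0).length)) := by
  rw [ev_append, List.getElem?_append_right h1]
  rw [ev_append, List.length_append] at h2
  rcases I with a | _ | _
  · simp only [ev_inl, ev_nil, List.length_cons, List.length_nil] at h2
    rw [show i - (ev (wd f m) (wd g n) U0).length = 0 by omega]
    simp [pos_om]
  · simp only [ev_x, ev_nil, List.append_nil, length_wd] at h2
    rw [ev_x, List.getElem?_append_left (by rw [length_wd]; omega), getElem?_wd f (by omega)]
    rfl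
  · simp only [ev_y, ev_nil, List.append_nil, length_wd] at h2
    rw [ev_y, List.getElem?_append_left (by rw [length_wd]; omega), getElem?_wd g (by omega)]
    rfl

theorem pos_mod {P : ℕ} {x y x' y' : List S} (hx : x.length ≡ x'.length [MOD P])
    (hy : y.length ≡ y'.length [MOD P]) (W : FW S) :
    (ev x y W).length ≡ (ev x' y' W).length [MOD P] := by
  induction W with
  | nil => rfl
  | cons I W ih =>
    rcases I with a | _ | _
    · simpa only [ev_inl, List.length_cons] using ih.add_right 1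
    · simpa only [ev_x, List.length_append] using hx.add ih
    · simpa only [ev_y, List.length_append] using hy.add ih

theorem pos_cmp {M P : ℕ} {x y x' y' : List S}
    (hs : ∀ a b c : ℤ, |a| ≤ M → |b| ≤ M → |c| ≤ M + P →
      (0 ≤ a * (x.length : ℤ) + b * (y.length : ℤ) + c ↔
        0 ≤ a * (x'.length : ℤ) + b * (y'.length : ℤ) + c))
    {W1 W2 : FW S} (h1 : W1.length ≤ M) (h2 : W2.length ≤ M) {d : ℕ} (hd : d ≤ P) :
    (ev x y W2).length + d ≤ (ev x y W1).length ↔
      (ev x' y' W2).length + d ≤ (ev x' y' W1).length := by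
  have a1 := count_add_count (proj W1)
  have a2 := count_add_count (proj W2)
  have b1 := length_proj_le W1
  have b2 := length_proj_le W2
  have h := hs (((proj W1).count false : ℤ) - (proj W2).count false)
    (((proj W1).count true : ℤ) - (proj W2).count true)
    (((W1.length : ℤ) - (proj W1).length) - ((W2.length : ℤ) - (proj W2).length) - d)
    (abs_le.2 ⟨by omega, by omega⟩) (abs_le.2 ⟨by omega, by omega⟩)
    (abs_le.2 ⟨by omega, by omega⟩)
  have c1 := length_ev x y W1
  have c2 := length_ev x y W2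
  have c3 := length_ev x' y' W1
  have c4 := length_ev x' y' W2
  rw [sub_mul, sub_mul, sub_mul, sub_mul] at h
  zify
  constructor
  · intro e
    linarith [h.1 (by linarith)]
  · intro e
    linarith [h.2 (by linarith)]

theorem pos {M P : ℕ} (hP : 1 ≤ P) {f g : ℕ → S} (hf : ∀ i, f (i + P) = f i)
    (hg : ∀ i, g (i + P) = g i) {m n m' n' : ℕ} (hm : m' % P = m % P) (hn : n' % P = n % P)
    (hs : ∀ a b c : ℤ, |a| ≤ M → |b| ≤ M → |c| ≤ M + P →
      (0 ≤ a * (m : ℤ) + b * (n : ℤ) + c ↔ 0 ≤ a * (m' : ℤ) + b * (n' : ℤ) + c))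
    {U V : FW S} (hU : U.length ≤ M) (hV : V.length ≤ M)
    (h : ev (wd f m) (wd g n) U = ev (wd f m) (wd g n) V) :
    ev (wd f m') (wd g n') U = ev (wd f m') (wd g n') V := by
  have cmp : ∀ {W1 W2 : FW S}, W1.length ≤ M → W2.length ≤ M → ∀ {d : ℕ}, d ≤ P →
      ((ev (wd f m) (wd g n) W2).length + d ≤ (ev (wd f m) (wd g n) W1).length ↔
        (ev (wd f m') (wd g n') W2).length + d ≤ (ev (wd f m') (wd g n') W1).length) :=
    pos_cmp (by simpa only [length_wd] using hs)
  have md : ∀ W : FW S, (ev (wd f m) (wd g n) W).length ≡ (ev (wd f m') (wd g n') W).length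
      [MOD P] := pos_mod (by rw [length_wd, length_wd]; exact hm.symm)
        (by rw [length_wd, length_wd]; exact hn.symm)
  have hl := congrArg List.length h
  have hl' : (ev (wd f m') (wd g n') U).length = (ev (wd f m') (wd g n') V).length :=
    le_antisymm ((cmp hV hU P.zero_le).1 hl.le) ((cmp hU hV P.zero_le).1 hl.ge)
  refine List.ext_getElem?' fun i' hi' => ?_
  rw [← hl', max_self] at hi'
  obtain ⟨U0, I, U1, rfl, u1, u2⟩ := pos_loc _ _ U hi'
  obtain ⟨V0, J, V1, rfl, v1, v2⟩ := pos_loc _ _ V (hl' ▸ hi')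
  simp only [List.length_append, List.length_cons] at hU hV
  obtain ⟨Z, hZ, z1, z2, z3⟩ : ∃ Z : FW S, Z.length ≤ M ∧
      (ev (wd f m') (wd g n') U0).length ≤ (ev (wd f m') (wd g n') Z).length ∧
      (ev (wd f m') (wd g n') V0).length ≤ (ev (wd f m') (wd g n') Z).length ∧
      (ev (wd f m') (wd g n') Z).length ≤ i' := by
    rcases le_total (ev (wd f m') (wd g n') U0).length (ev (wd f m') (wd g n') V0).length
      with e | e
    · exact ⟨V0, by omega, e, le_rfl, v1⟩
    · exact ⟨U0, by omega, le_rfl, e, u1⟩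
  have r1 := Nat.mod_lt (i' - (ev (wd f m') (wd g n') Z).length) hP
  have r2 := Nat.mod_le (i' - (ev (wd f m') (wd g n') Z).length) P
  have r3 := Nat.mod_modEq (i' - (ev (wd f m') (wd g n') Z).length) P
  generalize (i' - (ev (wd f m') (wd g n') Z).length) % P = r at r1 r2 r3
  have r4 := (md Z).add r3
  rw [Nat.add_sub_cancel' z3] at r4
  have key : ∀ (W0 : FW S) (K : S ⊕ Bool) (W1 : FW S), W0.length + 1 ≤ M →
      (ev (wd f m') (wd g n') W0).length ≤ (ev (wd f m') (wd g n') Z).length →
      i' < (ev (wd f m') (wd g n') (W0 ++ [K])).length →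
      (ev (wd f m') (wd g n') (W0 ++ K :: W1))[i']? =
        (ev (wd f m) (wd g n) (W0 ++ K :: W1))[(ev (wd f m) (wd g n) Z).length + r]? := by
    intro W0 K W1 w0 w1 w2
    have w3 := (cmp hZ (W2 := W0) (by omega) P.zero_le).2 w1
    have w4 := (cmp (W1 := W0 ++ [K]) (by simpa using w0) hZ (d := r + 1) r1).2 (by omega)
    rw [pos_get f g m' n' W0 K W1 (w1.trans z3) w2,
      pos_get f g m n W0 K W1 (i := (ev (wd f m) (wd g n) Z).length + r) (by omega) w4]
    refine congrArg some (pos_om_mod hf hg K (Nat.ModEq.add_right_cancel (md W0).symm ?_))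
    rw [Nat.sub_add_cancel (w1.trans z3), Nat.sub_add_cancel (by omega)]
    exact r4.symm
  rw [key U0 I U1 (by omega) z1 u2, key V0 J V1 (by omega) z2 v2, h]

theorem exists_wd {x : List S} {p : ℕ} (hp : 1 ≤ p) (hx : x.HasPeriod p) (d : S) :
    ∃ f : ℕ → S, (∀ i, f (i + p) = f i) ∧ x = wd f x.length := by
  have _ := hp
  refine ⟨fun i => x.getD (i % p) d, fun i => by simp only [Nat.add_mod_right], ?_⟩
  refine List.ext_getElem?' fun i hi => ?_
  rw [length_wd, max_self] at hi
  have h1 : i % p < x.length := (Nat.mod_le i p).trans_lt hi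
  rw [getElem?_wd _ hi, List.hasPeriod_iff_forall_getElem?_mod.1 hx i hi,
    List.getD_eq_getElem?_getD, List.getElem?_eq_getElem h1]
  rfl

theorem hasPeriod_wd {f : ℕ → S} {p : ℕ} (hf : ∀ i, f (i + p) = f i) (m : ℕ) :
    (wd f m).HasPeriod p := by
  refine List.hasPeriod_iff_getElem?.2 fun i hi => ?_
  rw [length_wd] at hi
  rw [getElem?_wd f (by omega), getElem?_wd f (by omega), hf]

theorem t3 {M : ℕ} {x y : List S} (hx : Per M x) (hy : Per M y) :
    Shr M (2 ^ (2 * M + 1) * (M + 2 * (M * M))) x y := by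
  rcases isEmpty_or_nonempty S with hS | ⟨⟨d⟩⟩
  · have e : ∀ w : List S, w.length = 0 := fun w => by
      cases w with
      | nil => rfl
      | cons a _ => exact isEmptyElim a
    exact ⟨x, y, Eqv.refl M x y, (e x).trans_le (Nat.zero_le _), (e y).trans_le (Nat.zero_le _)⟩
  obtain ⟨p, p1, p2, p3⟩ := hx
  obtain ⟨q, q1, q2, q3⟩ := hy
  obtain ⟨f, f1, f2⟩ := exists_wd p1 p3 d
  obtain ⟨g, g1, g2⟩ := exists_wd q1 q3 d
  have hP : 1 ≤ p * q := Nat.mul_pos p1 q1
  have hf : ∀ i, f (i + p * q) = f i := by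
    rw [mul_comm]
    exact Function.Periodic.nat_mul (c := p) f1 q
  have hg : ∀ i, g (i + p * q) = g i := Function.Periodic.nat_mul (c := q) g1 p
  obtain ⟨s, t, -, -, h1, h2, h3, h4⟩ := ilp (2 * M) (M + p * q) (p * q) hP x.length y.length
  have h5 : ∀ a b c : ℤ, |a| ≤ M → |b| ≤ M → |c| ≤ M + (p * q : ℕ) →
      (0 ≤ a * (x.length : ℤ) + b * (y.length : ℤ) + c ↔ 0 ≤ a * (s : ℤ) + b * (t : ℤ) + c) :=
    fun a b c ha hb hc => h4 a b c (Or.inr (by push_cast; linarith)) (by exact_mod_cast hc)
  have h6 : s + t ≤ 2 ^ (2 * M + 1) * (M + 2 * (M * M)) := by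
    have := Nat.mul_le_mul p2 q2
    exact h3.trans (Nat.mul_le_mul_left _ (by omega))
  refine ⟨wd f s, wd g t, ⟨fun U V hU hV => ?_, fun a b c ha hb hc => ?_⟩,
    by rw [length_wd]; omega, by rw [length_wd]; omega⟩
  · rw [f2, g2]
    exact ⟨pos hP hf hg h1 h2 h5 hU hV,
      pos hP hf hg h1.symm h2.symm (fun a b c ha hb hc => (h5 a b c ha hb hc).symm) hU hV⟩
  · simp only [Lin, length_wd]
    exact h5 a b c ha hb (hc.trans (le_add_of_nonneg_right (Nat.cast_nonneg _)))

end Pool.Agent.WEq
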