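import Pool.Agent.P.MP_a11166_lc.FD
import Pool.Agent.P.MP_a11166_lc.PP

/-! Row RD. One round of the Euclidean algorithm.
`pop`: one of `a`, `b` is an initial segment of the other; if `b = a ++ g` then `g <+: x` because
`g.length ≤ M ≤ x.length`, take `g1 = g`, `g2 = []`; symmetrically otherwise.
`rd`: `firstdiff` (with `Per.mono`) and `pop` give `x = g1 ++ x0`, `y = g2 ++ y0`,
`x0 ++ ev x y U1 = y0 ++ ev x y V1`. If `x0` is shorter than `y0` then `y0 = x0 ++ ze` with
`ze.length ≤ M`; take `u = x0`, `v = []`, `sx = cst g1 ++ [inr false]`,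
`sy = cst g2 ++ inr false :: cst ze`. Otherwise `x0 = y0 ++ x1`, `x1 ++ ev x y U1 = ev x y V1`. Apply
`onlyX_or_split` to `V1.map (Sum.map id not)` (`ev_swap`): there is `W` with `OnlyX W`,
`W.length ≤ M` and `ev x y V1 = ev y [] W` or `ev x y V1 = ev y [] W ++ x ++ R`. In both cases
`x1 <+: ev y [] W ++ g1 ++ y0 ++ x1`. Apply `pp` with `u = y0` and
`Z = subst (cst g2 ++ [inr false]) [] W ++ cst g1 ++ [inr false]` (`Z.length ≤ (M + 1) ^ 2`,
`y.length + 1 ≤ 2 * (ev y0 [] Z).length`), so `x1 = ev y0 [] Y ++ v`,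
`Y.length ≤ (2 K + 1) (M + 1) ^ 2`. Take `sx = cst g1 ++ inr false :: Y ++ [inr true]`,
`sy = cst g2 ++ [inr false]`, `j = (proj Y).length + 1` (`OnlyX.proj_eq`, `OnlyX.ev_eq`).
-/

set_option autoImplicit false

namespace Pool.Agent.WEq

open Pool.Agent.Lib.Comp

variable {S : Type}

theorem pop {M : ℕ} {x y a b R R' : List S} (ha : a.length ≤ M) (hb : b.length ≤ M)
    (hx : M ≤ x.length) (hy : M ≤ y.length) (h : a ++ x ++ R = b ++ y ++ R') :
    ∃ g1 g2 x0 y0 : List S, x = g1 ++ x0 ∧ y = g2 ++ y0 ∧ g1.length ≤ M ∧ g2.length ≤ M ∧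
      x0 ++ R = y0 ++ R' := by
  rw [List.append_assoc, List.append_assoc, List.append_eq_append_iff] at h
  rcases h with ⟨g, rfl, e⟩ | ⟨g, rfl, e⟩
  · rw [List.length_append] at hb
    obtain ⟨x0, rfl⟩ : g <+: x := List.prefix_of_prefix_length_le (e ▸ List.prefix_append _ _)
      (List.prefix_append x R) (by omega)
    rw [List.append_assoc] at e
    exact ⟨g, [], x0, y, rfl, rfl, by omega, by simp, List.append_cancel_left e⟩
  · rw [List.length_append] at ha
    obtain ⟨y0, rfl⟩ : g <+: y := List.prefix_of_prefix_length_le (e ▸ List.prefix_append _ _)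
      (List.prefix_append y R') (by omega)
    rw [List.append_assoc] at e
    exact ⟨[], g, x, y0, rfl, rfl, by simp, by omega, (List.append_cancel_left e).symm⟩

theorem rd {M K : ℕ} {x y : List S} (hxy : y.length ≤ x.length) (hx : ¬ Per (2 * M + 1) x)
    (hy : ¬ Per (2 * M + 1) y) (hr : x.length ≤ K * (y.length + 1)) {U V : FW S}
    (hU : U.length ≤ M) (hV : V.length ≤ M) (hne : proj U ≠ proj V) (h : ev x y U = ev x y V) :
    ∃ (sx sy : FW S) (u v : List S), sx.length ≤ (2 * K + 2) * (M + 1) ^ 2 + 1 ∧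
      sy.length ≤ (2 * K + 2) * (M + 1) ^ 2 + 1 ∧ x = ev u v sx ∧ y = ev u v sy ∧
      (v = [] ∨ ∃ j, 1 ≤ j ∧ proj sx = List.replicate j false ++ [true] ∧ proj sy = [false] ∧
        v.length ≤ u.length) := by
  have lx := lt_length_of_not_per (by omega) hx
  have ly := lt_length_of_not_per (by omega) hy
  obtain ⟨a, b, U1, V1, ha, hb, -, hV1, e⟩ := firstdiff (M := M)
    (fun c => hx (c.mono (by omega))) (fun c => hy (c.mono (by omega))) hU hV hne h
  obtain ⟨g1, g2, x0, y0, ex, ey, h1, h2, e⟩ := pop ha hb (by omega) (by omega) e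
  have sq : M + 1 ≤ (M + 1) ^ 2 := by nlinarith
  have b1 : (2 * K + 2) * (M + 1) ^ 2 = (2 * K + 1) * (M + 1) ^ 2 + (M + 1) ^ 2 := by ring
  have b2 : (M + 1) ^ 2 ≤ (2 * K + 1) * (M + 1) ^ 2 := Nat.le_mul_of_pos_left _ (by omega)
  have l1 := congrArg List.length ex
  have l2 := congrArg List.length ey
  rw [List.length_append] at l1 l2
  rcases List.append_eq_append_iff.1 e with ⟨ze, e1, -⟩ | ⟨x1, e1, e2⟩
  · have l3 := congrArg List.length e1
    rw [List.length_append] at l3
    refine ⟨cst g1 ++ [Sum.inr false], cst g2 ++ Sum.inr false :: cst ze, x0, [], ?_, ?_, ?_, ?_,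
      Or.inl rfl⟩
    · simp only [List.length_append, length_cst, List.length_singleton]
      omega
    · simp only [List.length_append, length_cst, List.length_cons]
      omega
    · simp [ex]
    · simp [ey, e1]
  · obtain ⟨W, hW, lW, pW⟩ : ∃ W : FW S, OnlyX W ∧ W.length ≤ M ∧
        x1 <+: (ev y [] W ++ g1 ++ y0) ++ x1 := by
      rw [← ev_swap] at e2
      rcases onlyX_or_split (V1.map (Sum.map id not)) with c | ⟨W, U', c, hW⟩
      · refine ⟨_, c, by simpa using hV1, ?_⟩
        rw [c.ev_eq y x []] at e2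
        rw [e2]
        simp only [List.append_assoc, List.prefix_append]
      · have l4 := congrArg List.length c
        rw [List.length_map, List.length_append] at l4
        refine ⟨W, hW, by omega, pre_of_pre_append (r := ev y x U') ⟨ev x y U1, ?_⟩⟩
        rw [← e2, c, ev_append, ev_y, hW.ev_eq y x []]
        nth_rw 1 [ex, e1]
        simp only [List.append_assoc]
    obtain ⟨Z, hZ, lZ, eZ⟩ : ∃ Z : FW S, OnlyX Z ∧ Z.length ≤ (M + 1) ^ 2 ∧
        ev y0 [] Z = ev y [] W ++ g1 ++ y0 := by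
      refine ⟨subst (cst g2 ++ [Sum.inr false]) [] W ++ cst g1 ++ [Sum.inr false], ?_, ?_, ?_⟩
      · exact onlyX_append.2 ⟨onlyX_append.2 ⟨onlyX_subst
          (onlyX_append.2 ⟨onlyX_cst _, onlyX_x⟩) (onlyX_cst []) _, onlyX_cst _⟩, onlyX_x⟩
      · have := length_subst_le (K := M + 1) (by omega) (sx := cst g2 ++ [Sum.inr false]) (sy := [])
          (by simpa using h2) (by simp) W
        simp only [List.length_append, length_cst, List.length_singleton]
        nlinarith
      · simp [ev_subst, ey]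
    have lE : y.length + 1 ≤ 2 * (ev y0 [] Z).length := by
      rw [eZ, List.length_append]
      omega
    obtain ⟨Y, v, hY, hv, e3, lY⟩ := pp hZ (fun c => by simp [c] at lE) (eZ ▸ pW)
    have l3 := congrArg List.length e1
    rw [List.length_append] at l3
    have lY' : Y.length ≤ (2 * K + 1) * (M + 1) ^ 2 := by
      refine Nat.le_of_mul_le_mul_right (c := (ev y0 [] Z).length) (lY.trans ?_) (by omega)
      have := Nat.mul_le_mul_left K lE
      calc _ ≤ ((2 * K + 1) * (ev y0 [] Z).length) * (M + 1) ^ 2 :=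
            Nat.mul_le_mul (by nlinarith) lZ
        _ = _ := by ring
    refine ⟨cst g1 ++ Sum.inr false :: Y ++ [Sum.inr true], cst g2 ++ [Sum.inr false], y0, v, ?_, ?_,
      ?_, ?_, Or.inr ⟨(proj Y).length + 1, by omega, ?_, by simp, hv.length_le⟩⟩
    · simp only [List.length_append, length_cst, List.length_cons, List.length_nil]
      omega
    · simp only [List.length_append, length_cst, List.length_singleton]
      omega
    · simp [ex, e1, e3, hY.ev_eq y0 v []]
    · simp [ey]
    · rw [List.replicate_succ, ← hY.proj_eq]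
      simp

end Pool.Agent.WEq
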