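import Pool.Agent.P.MP_a11166_lc.One
import Pool.Agent.P.MP_a11166_lc.Pos
import Pool.Agent.P.MP_a11166_lc.PP
import Pool.Agent.P.MP_a11166_lc.Sub

/-! Row T2. One periodic variable.
`t2_struct`: `st`, then `pp` with `Z = cst ze ++ inr false :: G` (`Z.length ≤ (M + 1) ^ 2`,
`x.length + 1 ≤ 2 * (ev u [] Z).length`), which gives `y = ev u [] Y ++ v`, `v <+: u`,
`Y.length ≤ (2 K + 1) (M + 1) ^ 2`. Take `sx = cst rho ++ [inr false]`, `sy = Y ++ [inr true]`;
`u` is a final segment of `x` and `v` an initial segment of `u` (`Per.right`, `Per.left`).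
`t2_free`: let `p` be the period of `x`, `x = wd f m` (`exists_wd`), letters `a ≠ b`. Apply
`ilp (2 * M) (4 * M + 5) p` to the lengths; `m' > 4 M + 4`, `n' > 2 M + 1` are preserved
(forms `(1, 0, c)`, `(0, 1, c)`). Put `x' = wd f m'`,
`y' = replicate (M + p) a ++ b :: replicate (n' - (M + p) - 1) a`. The relation
`subst (cst x) [inr true] U = subst (cst x) [inr true] V` is equivalent to the same relation for
`x'`: `subst_eq_ev` and `pos` over the alphabet `S ⊕ Bool` with `inl ∘ f`, the constant sequence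
`inr true` and `n = n' = 1` (the form `(a, b, c)` at `(m, 1)` is the form `(a, 0, b + c)`). If the
relation holds then the equation holds for both pairs (apply `ev [] y` and `ev_subst`). If it
fails, the equation is false for `(x, y)` by `hfree`, and for `(x', y')` by `st`
(`not_per_marker`, `Per.mono`): `y' <+: ze ++ u ++ ...` with `ze.length ≤ M`, `u` of period `p` and
length at least `3 M + 4`, gives `y'[M] = y'[M + p]`, that is `a = b`.
`t2`: by `Shr.swap` let `x` be periodic. `ratio` replaces `y` (`K = 3 (M + 1)`, `Shr.of_eqv`). If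
`x.length ≤ 4 M + 4` both words are bounded. If `Per (2 M + 1) y` use `t3` at level `2 M + 1`.
Otherwise `t2_free`, or `t2_struct`, `t3` at level `M (2 F + 1)`, `shr_subst`. Take for `B` the sum
of the bounds; `Primrec B` by `fun_prop`.
-/

set_option autoImplicit false

namespace Pool.Agent.WEq

open Pool.Agent.Lib.Comp

variable {S : Type}

theorem t2_struct {M K : ℕ} {x y : List S} {U V : FW S} (hU : U.length ≤ M) (hV : V.length ≤ M)
    (h : ev x y U = ev x y V)
    (hne : subst (cst x) [Sum.inr true] U ≠ subst (cst x) [Sum.inr true] V)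
    (hy : ¬ Per M y) (hx : 2 * M < x.length) (hp : Per M x)
    (hr : y.length ≤ K * (x.length + 1)) :
    ∃ (sx sy : FW S) (u v : List S), sx.length ≤ (2 * K + 1) * (M + 1) ^ 2 + 1 ∧
      sy.length ≤ (2 * K + 1) * (M + 1) ^ 2 + 1 ∧ x = ev u v sx ∧ y = ev u v sy ∧
      Per M u ∧ Per M v := by
  obtain ⟨rho, u, ze, G, rfl, h1, h2, h3, h4, h5⟩ := st hU hV h hne hy (by omega)
  have hZ : OnlyX (cst ze ++ ([Sum.inr false] ++ G)) :=
    onlyX_append.2 ⟨onlyX_cst ze, onlyX_append.2 ⟨onlyX_x, h3⟩⟩
  have e : ev u [] (cst ze ++ ([Sum.inr false] ++ G)) = ze ++ u ++ ev u [] G := by simp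
  have l1 : (cst ze ++ ([Sum.inr false] ++ G)).length ≤ (M + 1) ^ 2 := by
    simp only [List.length_append, length_cst, List.length_singleton]
    nlinarith
  have l2 : u.length ≤ (ev u [] (cst ze ++ ([Sum.inr false] ++ G))).length := by
    rw [e]
    simp only [List.length_append]
    omega
  rw [List.length_append] at hx hr
  rw [← e] at h5
  obtain ⟨Y, v, k1, ⟨t, rfl⟩, k3, k4⟩ := pp hZ (List.length_pos_iff.1 (by omega)) h5
  generalize (ev (v ++ t) [] (cst ze ++ ([Sum.inr false] ++ G))).length = z at k4 l2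
  have l3 : y.length ≤ K * (2 * z) := hr.trans (Nat.mul_le_mul_left K (by omega))
  have l4 : Y.length ≤ (2 * K + 1) * (M + 1) ^ 2 := by
    refine Nat.le_of_mul_le_mul_right (k4.trans ?_) (show 0 < z by omega)
    calc _ ≤ (K * (2 * z) + z) * (M + 1) ^ 2 := Nat.mul_le_mul (by omega) l1
      _ = _ := by ring
  refine ⟨cst rho ++ [Sum.inr false], Y ++ [Sum.inr true], v ++ t, v, ?_, ?_, by simp, ?_,
    hp.right, hp.right.left⟩
  · simp only [List.length_append, length_cst, List.length_singleton]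
    nlinarith [Nat.zero_le (K * (M + 1) ^ 2)]
  · simp only [List.length_append, List.length_singleton]
    omega
  · rw [k3, k1.ev_eq _ [] v]
    simp

theorem t2_ev {x : List S} {U V : FW S}
    (h : subst (cst x) [Sum.inr true] U = subst (cst x) [Sum.inr true] V) (y : List S) :
    ev x y U = ev x y V := by
  have := congrArg (ev [] y) h
  simpa [ev_subst] using this

theorem t2_rel {M p : ℕ} (hp : 1 ≤ p) {f : ℕ → S} (hf : ∀ i, f (i + p) = f i) {m m' : ℕ}
    (hm : m' % p = m % p) (hs : ∀ a c : ℤ, |a| ≤ M → |c| ≤ 2 * M + p →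
      (0 ≤ a * (m : ℤ) + c ↔ 0 ≤ a * (m' : ℤ) + c)) {U V : FW S} (hU : U.length ≤ M)
    (hV : V.length ≤ M)
    (h : subst (cst (wd f m)) [Sum.inr true] U = subst (cst (wd f m)) [Sum.inr true] V) :
    subst (cst (wd f m')) [Sum.inr true] U = subst (cst (wd f m')) [Sum.inr true] V := by
  have e1 : ∀ m, cst (wd f m) = wd (fun i => Sum.inl (f i)) m := fun m => by
    simp [cst, wd, Function.comp_def]
  have e2 : ([Sum.inr true] : FW S) = wd (fun _ => Sum.inr true) 1 := rfl
  rw [subst_eq_ev, subst_eq_ev, e1, e2] at h ⊢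
  refine pos (M := M) hp (fun i => by rw [hf]) (fun _ => rfl) hm rfl (fun a b c ha hb hc => ?_)
    (by simpa) (by simpa) h
  have := hs a (b + c) ha ((abs_add_le b c).trans (by linarith))
  simpa only [Nat.cast_one, mul_one, add_assoc] using this

theorem t2_mark {M p r : ℕ} {a b : S} (hp : 1 ≤ p) (hpM : p ≤ M) {ze u t : List S}
    (hz : ze.length ≤ M) (hu : u.HasPeriod p) (hl : 2 * M < u.length)
    (h : List.replicate (M + p) a ++ b :: List.replicate r a <+: ze ++ u ++ t) : a = b := by
  obtain ⟨w, hw⟩ := h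
  have h1 := congrArg (fun l => l[M]?) hw
  have h2 := congrArg (fun l => l[M + p]?) hw
  have h3 := List.hasPeriod_iff_getElem?.1 hu (M - ze.length) (by omega)
  simp only [List.append_assoc] at h1 h2
  rw [List.getElem?_append_left (by simp; omega), List.getElem?_append_right hz,
    List.getElem?_append_left (by omega), List.getElem?_replicate, if_pos (by omega), h3] at h1
  rw [List.getElem?_append_right (by simp), List.getElem?_append_right (l₁ := ze) (by omega),
    List.getElem?_append_left (l₁ := u) (by omega),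
    show M + p - ze.length = M - ze.length + p by omega, ← h1] at h2
  simpa using h2.symm

theorem t2_free {M : ℕ} {x y : List S} (hp : Per M x) (hx : 4 * M + 4 < x.length)
    (hy : ¬ Per (2 * M + 1) y)
    (hfree : ∀ U V : FW S, U.length ≤ M → V.length ≤ M → ev x y U = ev x y V →
      subst (cst x) [Sum.inr true] U = subst (cst x) [Sum.inr true] V) :
    Shr M (2 ^ (2 * M + 1) * (5 * M + 5)) x y := by
  obtain ⟨p, h1, h2, h3⟩ := hp
  obtain ⟨a, b, hab⟩ := exists_ne_of_not_per (by omega) hy
  have hn := lt_length_of_not_per (by omega) hy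
  obtain ⟨f, hf, ex⟩ := exists_wd h1 h3 a
  obtain ⟨m', n', -, -, k1, -, k2, k3⟩ := ilp (2 * M) (4 * M + 5) p h1 x.length y.length
  have k4 : 4 * M + 5 ≤ m' := by
    have := (k3 1 0 (-(4 * M + 5)) (Or.inl (by simp))
      (by rw [abs_neg, abs_of_nonneg (by positivity)]; simp)).1 (by omega)
    omega
  have k5 : 2 * M + 2 ≤ n' := by
    have := (k3 0 1 (-(2 * M + 2)) (Or.inl (by simp))
      (by rw [abs_neg, abs_of_nonneg (by positivity)]; push_cast; omega)).1 (by omega)
    omega
  have k6 : ∀ a c : ℤ, |a| ≤ M → |c| ≤ 2 * M + p →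
      (0 ≤ a * (x.length : ℤ) + c ↔ 0 ≤ a * (m' : ℤ) + c) := fun a c _ hc => by
    simpa using k3 a 0 c (Or.inl (by simp)) (hc.trans (by push_cast; omega))
  have k7 : m' + n' ≤ 2 ^ (2 * M + 1) * (5 * M + 5) :=
    k2.trans (Nat.mul_le_mul_left _ (by omega))
  have l1 : (List.replicate (M + p) a ++ b :: List.replicate (n' - (M + p) - 1) a).length = n' := by
    simp only [List.length_append, List.length_replicate, List.length_cons]
    omega
  refine ⟨wd f m', List.replicate (M + p) a ++ b :: List.replicate (n' - (M + p) - 1) a,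
    ⟨fun U V hU hV => ⟨fun h => ?_, fun h => ?_⟩, fun a b c ha hb hc => ?_⟩, ?_, ?_⟩
  · have h4 := hfree U V hU hV h
    rw [ex] at h4
    exact t2_ev (t2_rel h1 hf k1 k6 hU hV h4) _
  · by_cases h4 : subst (cst (wd f m')) [Sum.inr true] U = subst (cst (wd f m')) [Sum.inr true] V
    · have h5 := t2_rel h1 hf k1.symm (fun a c ha hc => (k6 a c ha hc).symm) hU hV h4
      rw [← ex] at h5
      exact t2_ev h5 y
    · obtain ⟨rho, u, ze, G, e, g1, g2, -, -, g3⟩ := st hU hV h h4
        (fun hq => not_per_marker hab _ _ (hq.mono (Nat.le_add_right M p)))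
        (by rw [length_wd]; omega)
      have g4 := hasPeriod_wd hf m'
      have g5 := congrArg List.length e
      rw [length_wd, List.length_append] at g5
      rw [e, ← List.append_nil (rho ++ u)] at g4
      rw [List.append_assoc (ze ++ u)] at g3
      exact absurd (t2_mark h1 h2 g2 g4.factor (by omega) g3) hab
  · simp only [Lin, length_wd, l1]
    exact k3 a b c (Or.inr (by push_cast; linarith)) (hc.trans (by push_cast; omega))
  · rw [length_wd]
    omega
  · omega

/-- The bound for two periodic words. -/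
def t2_b3 (M : ℕ) : ℕ := 2 ^ (2 * M + 1) * (M + 2 * (M * M))

/-- The length of the substituted words. -/
def t2_len (M : ℕ) : ℕ := (2 * (3 * (M + 1)) + 1) * (M + 1) ^ 2 + 1

theorem t2_left {M : ℕ} {x y : List S} (hp : Per M x) :
    Shr M (3 * (M + 1) * (4 * M + 4 + 1) + t2_b3 (2 * M + 1) + 2 ^ (2 * M + 1) * (5 * M + 5) +
      t2_len M * (t2_b3 (M * (2 * t2_len M + 1)) + 1)) x y := by
  obtain ⟨y', h1, h2⟩ := ratio M x y
  refine Shr.of_eqv h1 ?_
  by_cases hx : x.length ≤ 4 * M + 4
  · have h3 := h2.trans (Nat.mul_le_mul_left (3 * (M + 1)) (Nat.add_le_add_right hx 1))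
    have h4 : 4 * M + 4 ≤ 3 * (M + 1) * (4 * M + 4 + 1) := by nlinarith
    exact ⟨x, y', Eqv.refl _ _ _, by omega, by omega⟩
  by_cases hy : Per (2 * M + 1) y'
  · exact (t3 (hp.mono (by omega)) hy).mono (by omega) (by unfold t2_b3; omega)
  by_cases hf : ∀ U V : FW S, U.length ≤ M → V.length ≤ M → ev x y' U = ev x y' V →
      subst (cst x) [Sum.inr true] U = subst (cst x) [Sum.inr true] V
  · exact (t2_free hp (by omega) hy hf).mono le_rfl (by omega)
  push Not at hf
  obtain ⟨U, V, hU, hV, h, hne⟩ := hf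
  obtain ⟨sx, sy, u, v, k1, k2, rfl, rfl, k3, k4⟩ := t2_struct hU hV h hne
    (fun hq => hy (hq.mono (by omega))) (by omega) hp h2
  have h5 : M ≤ M * (2 * t2_len M + 1) := Nat.le_mul_of_pos_right _ (by omega)
  exact (shr_subst (K := t2_len M) (Nat.le_add_left 1 _) k1 k2
    (t3 (k3.mono h5) (k4.mono h5))).mono le_rfl (Nat.le_add_left _ _)

theorem t2 (S : Type) : ∃ B : ℕ → ℕ, Primrec B ∧ T2St S B := by
  refine ⟨fun M => 3 * (M + 1) * (4 * M + 4 + 1) + t2_b3 (2 * M + 1) +
    2 ^ (2 * M + 1) * (5 * M + 5) + t2_len M * (t2_b3 (M * (2 * t2_len M + 1)) + 1), ?_,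
    fun M x y h => h.elim t2_left fun h => (t2_left h).swap⟩
  unfold t2_b3 t2_len
  fun_prop

end Pool.Agent.WEq
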